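import Pool.Agent.Lib.MP_ba1bba_al.LR.Spec
import Pool.Agent.Lib.MP_ba1bba_al.AS.PTV

section
/-! # MP_ba1bba_al, LR: module BDA, the good and the bad classes (helper83) -/
set_option autoImplicit false

open scoped ENNReal

namespace Pool.Agent.Lib.MPba1bba.LR

open Pool.Agent.Lib.MPba1bba Pool.Agent.Lib.MPba1bba.AS Vec

namespace BDAAux

/-- A number `y < 1` close to `1`. -/
theorem exists_y (p : ℕ) (z l : ℝ≥0∞) (hz : z < 1) (hl : 1 < l) :
    ∃ (y l' : ℝ≥0∞), 0 < y ∧ y < 1 ∧ z ≤ y ^ 4 ∧ l' ≤ l ∧ l' ≠ ∞ ∧ 1 < y ^ p * l' := by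
  set l' : ℝ≥0∞ := min l 2 with hl'
  have h1 : 1 < l' := lt_min hl (by norm_num)
  have h2 : l' ≠ ∞ := ne_top_of_le_ne_top (by norm_num) (min_le_right l 2)
  have hz' : z.toReal < 1 := by
    have := (ENNReal.toReal_lt_toReal hz.ne_top ENNReal.one_ne_top).2 hz
    simpa using this
  have h1' : 1 < l'.toReal := by
    have := (ENNReal.toReal_lt_toReal ENNReal.one_ne_top h2).2 h1
    simpa using this
  have c1 : Filter.Tendsto (fun y : ℝ => y ^ 4) (nhdsWithin 1 (Set.Iio 1)) (nhds (1 ^ 4)) :=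
    ((continuous_pow 4).tendsto 1).mono_left nhdsWithin_le_nhds
  have c2 : Filter.Tendsto (fun y : ℝ => y ^ p * l'.toReal) (nhdsWithin 1 (Set.Iio 1))
      (nhds (1 ^ p * l'.toReal)) :=
    (((continuous_pow p).mul continuous_const).tendsto 1).mono_left nhdsWithin_le_nhds
  have e1 : ∀ᶠ y : ℝ in nhdsWithin 1 (Set.Iio 1), z.toReal < y ^ 4 :=
    c1.eventually (lt_mem_nhds (by simpa using hz'))
  have e2 : ∀ᶠ y : ℝ in nhdsWithin 1 (Set.Iio 1), 1 < y ^ p * l'.toReal :=
    c2.eventually (lt_mem_nhds (by simpa using h1'))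
  have e3 : ∀ᶠ y : ℝ in nhdsWithin 1 (Set.Iio 1), (0 : ℝ) < y :=
    (continuous_id.tendsto 1).mono_left nhdsWithin_le_nhds |>.eventually
      (lt_mem_nhds (by norm_num))
  have e4 : ∀ᶠ y : ℝ in nhdsWithin 1 (Set.Iio 1), y < 1 := self_mem_nhdsWithin
  obtain ⟨y, ⟨⟨hy1, hy2⟩, hy3⟩, hy4⟩ := (((e1.and e2).and e3).and e4).exists
  refine ⟨ENNReal.ofReal y, l', ENNReal.ofReal_pos.2 hy3, ?_, ?_, min_le_left l 2, h2, ?_⟩
  · rw [← ENNReal.ofReal_one]
    exact (ENNReal.ofReal_lt_ofReal_iff one_pos).2 hy4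
  · rw [← ENNReal.ofReal_pow hy3.le, ← ENNReal.ofReal_toReal hz.ne_top]
    exact ENNReal.ofReal_le_ofReal hy1.le
  · rw [← ENNReal.ofReal_pow hy3.le, ← ENNReal.ofReal_toReal h2, ← ENNReal.ofReal_one,
      ← ENNReal.ofReal_mul (pow_nonneg hy3.le p)]
    exact (ENNReal.ofReal_lt_ofReal_iff (by positivity)).2 hy2

theorem tsum_int (w : ℝ≥0∞) (hw : w < 1) : ∑' k : ℤ, w ^ k.natAbs ≠ ∞ := by
  have h : HasSum (fun k : ℤ => w ^ k.natAbs)
      (∑' n : ℕ, w ^ ((n : ℤ)).natAbs + ∑' n : ℕ, w ^ (-((n : ℤ) + 1)).natAbs) :=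
    HasSum.of_nat_of_neg_add_one ENNReal.summable.hasSum ENNReal.summable.hasSum
  rw [h.tsum_eq]
  have h1 : ∑' n : ℕ, w ^ ((n : ℤ)).natAbs = (1 - w)⁻¹ := by
    rw [← ENNReal.tsum_geometric]
    exact tsum_congr fun n => by simp
  have h2 : ∑' n : ℕ, w ^ (-((n : ℤ) + 1)).natAbs ≤ (1 - w)⁻¹ := by
    rw [← ENNReal.tsum_geometric]
    refine ENNReal.tsum_le_tsum fun n => ?_
    have : (-((n : ℤ) + 1)).natAbs = n + 1 := by omega
    rw [this]
    exact pow_le_pow_right_of_le_one' hw.le (Nat.le_succ n)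
  have h3 : (1 - w)⁻¹ ≠ ∞ := ENNReal.inv_ne_top.2 (tsub_pos_of_lt hw).ne'
  rw [h1]
  exact ENNReal.add_ne_top.2 ⟨h3, ne_top_of_le_ne_top h3 h2⟩

/-- Bernoulli. -/
theorem bern (a : ℝ≥0∞) (ha : 1 < a) (hat : a ≠ ∞) :
    ∃ C : ℝ≥0∞, C ≠ ∞ ∧ ∀ n : ℕ, (n : ℝ≥0∞) + 1 ≤ C * a ^ n := by
  have ha' : 1 < a.toReal := by
    have := (ENNReal.toReal_lt_toReal ENNReal.one_ne_top hat).2 ha
    simpa using this
  set b := a.toReal with hb
  have hab : a = ENNReal.ofReal b := (ENNReal.ofReal_toReal hat).symm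
  refine ⟨ENNReal.ofReal (1 + 1 / (b - 1)), ENNReal.ofReal_ne_top, fun n => ?_⟩
  have hb1 : 0 < b - 1 := by linarith
  have h1 : 1 + (n : ℝ) * (b - 1) ≤ b ^ n := by
    have := one_add_mul_le_pow (a := b - 1) (by linarith) n
    simpa using this
  have h2 : (n : ℝ) + 1 ≤ (1 + 1 / (b - 1)) * b ^ n := by
    have h3 : (0 : ℝ) ≤ 1 / (b - 1) := by positivity
    calc (n : ℝ) + 1 ≤ (1 + 1 / (b - 1)) * (1 + (n : ℝ) * (b - 1)) := by
          have h4 : (1 + 1 / (b - 1)) * (1 + (n : ℝ) * (b - 1)) =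
              1 + n + n * (b - 1) + 1 / (b - 1) := by
            field_simp
            ring
          rw [h4]
          have : 0 ≤ (n : ℝ) * (b - 1) := by positivity
          linarith
      _ ≤ _ := mul_le_mul_of_nonneg_left h1 (by positivity)
  rw [hab, ← ENNReal.ofReal_pow (by linarith), ← ENNReal.ofReal_mul (by positivity)]
  calc (n : ℝ≥0∞) + 1 = ENNReal.ofReal ((n : ℝ) + 1) := by
        rw [ENNReal.ofReal_add (by positivity) (by norm_num), ENNReal.ofReal_one,
          ENNReal.ofReal_natCast]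
    _ ≤ _ := ENNReal.ofReal_le_ofReal h2

end BDAAux

open BDAAux in
theorem specBDA (hBDC : SpecBDC) (hPRF : SpecPRF) : SpecBDA := by
  intro p hp z l hz hl
  obtain ⟨y, l', hy0, hy1, hzy, hl'l, hl't, hyl⟩ := exists_y p z l hz hl
  set κ : ℝ≥0∞ := y ^ p with hκ
  have hyt : y ≠ ∞ := hy1.ne_top
  have hκ0 : κ ≠ 0 := pow_ne_zero _ hy0.ne'
  have hκt : κ ≠ ∞ := ENNReal.pow_ne_top hyt
  have hκ1 : κ < 1 := pow_lt_one₀ bot_le hy1 (by omega)
  obtain ⟨C, hC, hbern⟩ := bern (κ * l') hyl (ENNReal.mul_ne_top hκt hl't)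
  set S : ℝ≥0∞ := ∑' k : ℤ, (y ^ (2 * p)) ^ k.natAbs with hS
  have hSt : S ≠ ∞ := tsum_int _ (pow_lt_one₀ bot_le hy1 (by omega))
  refine ⟨S * C * κ⁻¹, κ, ?_, pos_iff_ne_zero.2 hκ0, hκ1, ?_⟩
  · exact ENNReal.mul_ne_top (ENNReal.mul_ne_top hSt hC) (ENNReal.inv_ne_top.2 hκ0)
  intro m hm s hs
  set n := Multiset.card s with hn
  set good : Set ℤ := {k : ℤ | 2 * bfun p s k + p * (n + 1) < p * m} with hgood
  have hsplit : LF p z s = ∑' k : ℤ, good.indicator (fun k => z ^ bfun p s k) k +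
      ∑' k : ℤ, goodᶜ.indicator (fun k => z ^ bfun p s k) k := by
    unfold LF
    rw [← ENNReal.tsum_add]
    refine tsum_congr fun k => ?_
    by_cases hk : k ∈ good
    · rw [Set.indicator_of_mem hk, Set.indicator_of_notMem (by simpa using hk), add_zero]
    · rw [Set.indicator_of_notMem hk, Set.indicator_of_mem (by simpa using hk), zero_add]
  -- the good ones
  have hG : ∑' k : ℤ, good.indicator (fun k => z ^ bfun p s k) k ≤ GF p m z s := by
    classical
    set g : ℕ → ℝ≥0∞ := fun r => if sml p m s r = 0 then z ^ cmin p m s r else 0 with hg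
    rw [← tsum_subtype good (fun k => z ^ bfun p s k)]
    have hm0 : (0 : ℤ) < m := by omega
    have hval : ∀ k : good, z ^ bfun p s (k : ℤ) =
        (if ((k : ℤ) % m).toNat < m then g ((k : ℤ) % m).toNat else 0) := by
      intro k
      obtain ⟨h1, h2, -⟩ := hBDC p m (by omega) (by omega) s hs k k.2
      have h3 : ((k : ℤ) % m).toNat < m := by
        have := Int.emod_lt_of_pos (k : ℤ) hm0
        have := Int.emod_nonneg (k : ℤ) hm0.ne'
        omega
      rw [if_pos h3, hg]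
      dsimp only
      rw [if_pos h1, h2]
    have hinj : Function.Injective (fun k : good => ((k : ℤ) % m).toNat) := by
      intro k k' hkk
      by_contra hne
      have hne' : (k' : ℤ) ≠ (k : ℤ) := fun h => hne (Subtype.ext h.symm)
      have h0 := Int.emod_nonneg (k : ℤ) hm0.ne'
      have h0' := Int.emod_nonneg (k' : ℤ) hm0.ne'
      have hmod : (k' : ℤ) % m = (k : ℤ) % m := by
        dsimp only at hkk
        omega
      have h1 := (hBDC p m (by omega) (by omega) s hs k k.2).2.2 k' hne' hmod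
      have h2 : 2 * bfun p s (k' : ℤ) + p * (n + 1) < p * m := k'.2
      rw [← hn] at h1
      omega
    calc ∑' k : good, z ^ bfun p s (k : ℤ)
        = ∑' k : good, (fun r : ℕ => if r < m then g r else 0) (((k : ℤ) % m).toNat) :=
          tsum_congr hval
      _ ≤ ∑' r : ℕ, (if r < m then g r else 0) :=
          ENNReal.tsum_comp_le_tsum_of_injective hinj _
      _ = ∑ r ∈ Finset.range m, (if r < m then g r else 0) := by
          refine tsum_eq_sum fun r hr => ?_
          rw [Finset.mem_range] at hr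
          rw [if_neg hr]
      _ = GF p m z s := by
          unfold GF
          refine Finset.sum_congr rfl fun r hr => ?_
          rw [Finset.mem_range] at hr
          rw [if_pos hr, hg]
  -- the bad ones
  have hB : κ ^ (n + 1) * ∑' k : ℤ, goodᶜ.indicator (fun k => z ^ bfun p s k) k ≤
      κ ^ m * ((n + 1 : ℝ≥0∞) * S) := by
    have hpt : ∀ k : ℤ, κ ^ (n + 1) * goodᶜ.indicator (fun k => z ^ bfun p s k) k ≤
        κ ^ m * ∑ j ∈ Finset.range (n + 1), (y ^ (2 * p)) ^ (k - (j : ℤ)).natAbs := by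
      intro k
      by_cases hk : k ∈ good
      · rw [Set.indicator_of_notMem (by simpa using hk), mul_zero]
        exact bot_le
      · rw [Set.indicator_of_mem (by simpa using hk)]
        obtain ⟨j, hj, hjk⟩ := (hPRF p (by omega) s).2.1 k
        have hbad : p * m ≤ 2 * bfun p s k + p * (n + 1) := by
          by_contra h
          exact hk (not_le.1 h)
        have h1 : κ ^ (n + 1) * z ^ bfun p s k ≤ κ ^ m * (y ^ (2 * p)) ^ (k - (j : ℤ)).natAbs := by
          calc κ ^ (n + 1) * z ^ bfun p s k ≤ κ ^ (n + 1) * (y ^ 4) ^ bfun p s k :=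
                mul_le_mul' le_rfl (pow_le_pow_left' hzy _)
            _ = y ^ (p * (n + 1) + 4 * bfun p s k) := by
                rw [hκ, ← pow_mul, ← pow_mul, ← pow_add]
            _ ≤ y ^ (p * m + 2 * p * (k - (j : ℤ)).natAbs) := by
                refine pow_le_pow_right_of_le_one' hy1.le ?_
                have h2 : 2 * p * (k - (j : ℤ)).natAbs = 2 * (p * (k - (j : ℤ)).natAbs) := by ring
                rw [h2]
                omega
            _ = κ ^ m * (y ^ (2 * p)) ^ (k - (j : ℤ)).natAbs := by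
                rw [hκ, ← pow_mul, ← pow_mul, ← pow_add]
        refine h1.trans (mul_le_mul' le_rfl ?_)
        exact Finset.single_le_sum (f := fun j : ℕ => (y ^ (2 * p)) ^ (k - (j : ℤ)).natAbs)
          (fun _ _ => bot_le) (Finset.mem_range.2 (Nat.lt_succ_of_le hj))
    rw [← ENNReal.tsum_mul_left]
    refine (ENNReal.tsum_le_tsum hpt).trans (le_of_eq ?_)
    rw [ENNReal.tsum_mul_left]
    congr 1
    rw [Summable.tsum_finsetSum fun _ _ => ENNReal.summable]
    have hsh : ∀ j : ℕ, ∑' k : ℤ, (y ^ (2 * p)) ^ (k - (j : ℤ)).natAbs = S := by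
      intro j
      exact (Equiv.subRight (j : ℤ)).tsum_eq (fun k : ℤ => (y ^ (2 * p)) ^ k.natAbs)
    rw [Finset.sum_congr rfl fun j _ => hsh j, Finset.sum_const, Finset.card_range, nsmul_eq_mul]
    push_cast
    ring
  have hB2 : ∑' k : ℤ, goodᶜ.indicator (fun k => z ^ bfun p s k) k ≤
      S * C * κ⁻¹ * κ ^ m * l ^ n := by
    have hne : κ ^ (n + 1) ≠ 0 := pow_ne_zero _ hκ0
    have hnt : κ ^ (n + 1) ≠ ∞ := ENNReal.pow_ne_top hκt
    refine (ENNReal.mul_le_mul_iff_right hne hnt).1 (hB.trans ?_)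
    have h1 : κ⁻¹ * κ = 1 := ENNReal.inv_mul_cancel hκ0 hκt
    calc κ ^ m * ((n + 1 : ℝ≥0∞) * S) ≤ κ ^ m * ((C * (κ * l') ^ n) * S) := by
          gcongr
          exact hbern n
      _ ≤ κ ^ m * ((C * (κ * l) ^ n) * S) := by gcongr
      _ = (κ⁻¹ * κ) * (κ ^ m * ((C * (κ * l) ^ n) * S)) := by rw [h1, one_mul]
      _ = κ ^ (n + 1) * (S * C * κ⁻¹ * κ ^ m * l ^ n) := by
          rw [mul_pow, pow_succ]
          ring
  rw [hsplit]
  exact add_le_add hG hB2

end Pool.Agent.Lib.MPba1bba.LR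
end

section
/-!
# MP_ba1bba_al, LR : module BDC, small values of a profile in a class
-/
namespace Pool.Agent.Lib.MPba1bba.LR

open Pool.Agent.Lib.MPba1bba Pool.Agent.Lib.MPba1bba.AS Vec

namespace BDCAux

/-- (a) two elements of a class -/
lemma two {p m n : ℕ} {b : ℤ → ℕ} (h2 : ∀ k : ℤ, ∃ j : ℕ, j ≤ n ∧ p * (k - (j : ℤ)).natAbs ≤ b k)
    (k k' : ℤ) (h : (m : ℤ) ≤ |k - k'|) : p * m ≤ b k + b k' + p * n := by
  obtain ⟨j, hj, h3⟩ := h2 k
  obtain ⟨j', hj', h4⟩ := h2 k'
  rw [Int.abs_eq_natAbs] at h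
  have h5 : m ≤ (k - (j : ℤ)).natAbs + (k' - (j' : ℤ)).natAbs + n := by
    omega
  calc p * m ≤ p * ((k - (j : ℤ)).natAbs + (k' - (j' : ℤ)).natAbs + n) :=
        Nat.mul_le_mul_left p h5
    _ = p * (k - (j : ℤ)).natAbs + p * (k' - (j' : ℤ)).natAbs + p * n := by ring
    _ ≤ b k + b k' + p * n := by omega

/-- increments over steps of length `m` increase -/
lemma incr {b : ℤ → ℕ} (m : ℕ)
    (h : ∀ k : ℤ, (b (k + 1) : ℤ) - b k ≤ b (k + 2) - b (k + 1)) :
    Monotone fun k : ℤ => (b (k + m) : ℤ) - b k := by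
  have hD : Monotone fun k : ℤ => (b (k + 1) : ℤ) - b k := by
    apply monotone_int_of_le_succ
    intro k
    have := h k
    rw [show k + 1 + 1 = k + 2 by ring]
    exact this
  apply monotone_int_of_le_succ
  intro k
  have h1 := hD (show k ≤ k + m by omega)
  simp only at h1
  rw [show k + 1 + (m : ℤ) = k + m + 1 by ring]
  linarith

end BDCAux

theorem specBDC (hPRF : SpecPRF) : SpecBDC := by
  intro p m hp hm s hs k hk
  obtain ⟨-, h2, h3⟩ := hPRF p hp s
  obtain ⟨-, -, -, h6⟩ := h3 hs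
  set b := bfun p s with hb
  set n := Multiset.card s with hn
  have hm0 : (0 : ℤ) < m := by exact_mod_cast hm
  have hr : ((k % m).toNat : ℤ) = k % m := Int.toNat_of_nonneg (Int.emod_nonneg k hm0.ne')
  have hkr : ((k % m).toNat : ℤ) + m * (k / m) = k := by
    rw [hr]; exact Int.emod_add_mul_ediv k m
  have hexp : p * (n + 1) = p * n + p := by ring
  have hfar : ∀ k' : ℤ, (m : ℤ) ≤ |k - k'| → p * m ≤ b k + b k' + p * n :=
    fun k' h => BDCAux.two h2 k k' h
  have hcl : ∀ k' : ℤ, k' ≠ k → k' % m = k % m → (m : ℤ) ≤ |k - k'| := by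
    intro k' hne he
    have h1 : (m : ℤ) ∣ k - k' := Int.ModEq.dvd (show k' ≡ k [ZMOD m] from he)
    exact Int.le_of_dvd (abs_pos.mpr (sub_ne_zero.mpr hne.symm)) ((dvd_abs _ _).mpr h1)
  have hthird : ∀ k' : ℤ, k' ≠ k → k' % m = k % m → p * m ≤ 2 * b k' + p * (n + 1) := by
    intro k' hne he
    have := hfar k' (hcl k' hne he)
    rw [hexp] at hk ⊢
    omega
  have hmin : ∀ k' : ℤ, k' % m = k % m → b k ≤ b k' := by
    intro k' he
    by_cases hne : k' = k
    · rw [hne]
    · have := hfar k' (hcl k' hne he)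
      rw [hexp] at hk
      omega
  -- the increments
  have hmono := BDCAux.incr m h6
  have hup : (p : ℤ) ≤ (b (k + m) : ℤ) - b k := by
    have h1 := hfar (k + m) (by rw [show k - (k + (m : ℤ)) = -m by ring, abs_neg]; exact le_abs_self _)
    rw [hexp] at hk
    omega
  have hdn : (b (k - m + m) : ℤ) - b (k - m) ≤ -p := by
    have h1 := hfar (k - m) (by rw [show k - (k - (m : ℤ)) = m by ring]; exact le_abs_self _)
    rw [hexp] at hk
    rw [show k - (m : ℤ) + m = k by ring]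
    omega
  refine ⟨?_, ?_, hthird⟩
  · unfold sml
    apply Finset.sum_eq_zero
    intro x hx
    rw [Finset.mem_Ioo] at hx
    have hemp : {j : ℤ | (bfun p s (((k % m).toNat : ℤ) + m * (j + 1)) : ℤ) -
        bfun p s (((k % m).toNat : ℤ) + m * j) = x} = ∅ := by
      rw [Set.eq_empty_iff_forall_notMem]
      intro j hj
      rw [Set.mem_ofPred_eq] at hj
      have e1 : ((k % m).toNat : ℤ) + m * j = k + m * (j - k / m) := by
        linear_combination hkr
      have e2 : ((k % m).toNat : ℤ) + m * (j + 1) = k + m * (j - k / m) + m := by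
        linear_combination hkr
      rw [e1, e2] at hj
      rcases le_or_gt (k / m) j with hle | hlt
      · have h1 : k ≤ k + m * (j - k / m) := by nlinarith
        have h2 := hmono h1
        simp only at h2
        have h3 : (b (k + m * (j - k / m) + m) : ℤ) - b (k + m * (j - k / m)) = x := hj
        linarith [hx.2]
      · have h1 : k + m * (j - k / m) ≤ k - m := by nlinarith
        have h2 := hmono h1
        simp only at h2
        have h3 : (b (k + m * (j - k / m) + m) : ℤ) - b (k + m * (j - k / m)) = x := hj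
        linarith [hx.1]
    rw [hemp, Set.ncard_empty, zero_smul]
  · apply le_antisymm
    · apply le_ciInf
      intro j
      apply hmin
      rw [Int.add_mul_emod_self_left, hr]
      exact Int.emod_emod_of_dvd k (dvd_refl _)
    · have := ciInf_le' (fun j : ℤ => bfun p s (((k % m).toNat : ℤ) + m * j)) (k / m)
      rw [hkr] at this
      exact this

end Pool.Agent.Lib.MPba1bba.LR
end

section
/-!
# MP_ba1bba_al, LR: the value of the first return series at `x_p`
-/
open scoped ENNReal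

namespace Pool.Agent.Lib.MPba1bba.LR

open Pool.Agent.Lib.MPba1bba Pool.Agent.Lib.MPba1bba.AS Vec

namespace BVLM

theorem evs_real {f : PowerSeries ℤ} (hf : ∀ n, 0 ≤ PowerSeries.coeff n f) {x : ℝ} (hx : 0 ≤ x)
    (h : evs (ENNReal.ofReal x) f ≠ ∞) :
    Summable (fun n => ((PowerSeries.coeff n f : ℤ) : ℝ) * x ^ n) ∧
      evs (ENNReal.ofReal x) f = ENNReal.ofReal (∑' n, ((PowerSeries.coeff n f : ℤ) : ℝ) * x ^ n) := by
  have e : ∀ n : ℕ, ENNReal.ofReal x ^ n * ((PowerSeries.coeff n f).toNat : ℝ≥0∞) =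
      ENNReal.ofReal (((PowerSeries.coeff n f : ℤ) : ℝ) * x ^ n) := by
    intro n
    have h1 : (((PowerSeries.coeff n f).toNat : ℕ) : ℝ) = ((PowerSeries.coeff n f : ℤ) : ℝ) := by
      have := Int.toNat_of_nonneg (hf n)
      exact_mod_cast this
    rw [← h1, ENNReal.ofReal_mul (by positivity), ENNReal.ofReal_natCast, ENNReal.ofReal_pow hx, mul_comm]
  have hnn : ∀ n : ℕ, 0 ≤ ((PowerSeries.coeff n f : ℤ) : ℝ) * x ^ n := fun n =>
    mul_nonneg (by exact_mod_cast hf n) (pow_nonneg hx n)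
  have h2 : evs (ENNReal.ofReal x) f = ∑' n, ENNReal.ofReal (((PowerSeries.coeff n f : ℤ) : ℝ) * x ^ n) := by
    unfold evs
    exact tsum_congr e
  have hs : Summable (fun n => ((PowerSeries.coeff n f : ℤ) : ℝ) * x ^ n) := by
    rw [h2] at h
    have := ENNReal.summable_toReal h
    refine this.congr fun n => ?_
    rw [ENNReal.toReal_ofReal (hnn n)]
  exact ⟨hs, by rw [h2, ENNReal.ofReal_tsum_of_nonneg hnn hs]⟩

end BVLM

open BVLM in
theorem specBVL (hUPE : SpecUPE) (hUPV : SpecUPV) (hBDA : SpecBDA) (hLOE : SpecLOE) (hFTW : SpecFTW)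
    (hCRP : SpecCRP) (hMRE : SpecMRE) (hMUL : SpecMUL) (_hTAN : SpecTAN) (hSUP : SpecSUP)
    (hLOW : SpecLOW) (hPSR : SpecPSR) : SpecBVL := by
  intro p x hp hx0 hx1 hxM
  have hP := hMUL p x hp hx0 hx1 hxM
  obtain ⟨z', e', hxz', hz'1, hxe', hcr', hfix⟩ := hSUP p x hp hx0 hx1 hxM hP
  obtain ⟨C, hC, hlow⟩ := hLOW p x hp hx0 hx1 hxM hP
  obtain ⟨-, -, hc3, -, hc5, -⟩ := hCRP p hp
  have hz'0 : 0 < z' := hx0.trans hxz'
  have he'0 : 0 < e' := hx0.trans hxe'
  set X : ℝ≥0∞ := ENNReal.ofReal x with hX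
  set l : ℝ≥0∞ := ENNReal.ofReal (z' / x) with hl
  have hX1 : X < 1 := by
    rw [hX, ← ENNReal.ofReal_one]
    exact (ENNReal.ofReal_lt_ofReal_iff one_pos).2 (by linarith)
  have hXt : X ≠ ∞ := ENNReal.ofReal_ne_top
  have hlX : l * X = ENNReal.ofReal z' := by
    rw [hl, hX, ← ENNReal.ofReal_mul (by positivity)]
    congr 1
    field_simp
  have hl1 : 1 < l := by
    rw [hl, ← ENNReal.ofReal_one]
    exact (ENNReal.ofReal_lt_ofReal_iff (by positivity)).2 (by rwa [one_lt_div hx0])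
  obtain ⟨K, κ, hK, hκ0, hκ1, hbda⟩ := hBDA p hp X l hX1 hl1
  have hκt : κ ≠ ∞ := ne_top_of_lt hκ1
  set Kr := K.toReal with hKr
  set κr := κ.toReal with hκr
  have hKe : K = ENNReal.ofReal Kr := (ENNReal.ofReal_toReal hK).symm
  have hκe : κ = ENNReal.ofReal κr := (ENNReal.ofReal_toReal hκt).symm
  have hKr0 : 0 ≤ Kr := ENNReal.toReal_nonneg
  have hκr0 : 0 < κr := ENNReal.toReal_pos hκ0.ne' hκt
  have hκr1 : κr < 1 := by
    have := (ENNReal.toReal_lt_toReal hκt ENNReal.one_ne_top).2 hκ1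
    simpa using this
  obtain ⟨hMM', hMM'0⟩ := hMRE p z' e' hp hz'0 (by linarith) he'0.le hcr'
  set M' := Mr p z' e' with hM'
  have hcrx : ∀ e : ℝ, 0 ≤ e → e ≤ x → ∀ t ≤ p - 1, e * cr p t x < 1 := fun e he0 hex t _ =>
    lt_of_le_of_lt (mul_le_mul_of_nonneg_right hex (hc3 t x x hx0.le le_rfl).1) (hc5 t x hx0.le hx1.le)
  obtain ⟨hMMx, hMMx0⟩ := hMRE p x x hp hx0 (by linarith) hx0.le (hcrx x hx0.le le_rfl)
  have hXM : X * MM p X X = 1 := by
    rw [hX, hMMx, ← ENNReal.ofReal_mul hx0.le, hxM, ENNReal.ofReal_one]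
  refine ⟨(C * x ^ 2 * (1 + e') + x) * M' * Kr, κr, by positivity, hκr0, hκr1, ?_⟩
  intro m Q E H V U d
  -- upper bounds
  have hE : pr (ev X E) (NF p X) ≤ X := by
    refine hUPE p m Q E H V U d X X hX1 ?_
    have : X ^ 2 * (1 + X) * MM p X X = X * (1 + X) * (X * MM p X X) := by ring
    rw [this, hXM]
    exact le_of_eq (by ring)
  have hV := hUPV p m Q E H V U d X X hX1 hE hXM.le
  obtain ⟨⟨-, -, -, -, hnV, -⟩, -⟩ := hPSR p m Q E H V U d
  have hb : ∀ n, 0 ≤ PowerSeries.coeff n (cf0 V) := fun n => by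
    unfold cf0
    rw [PowerSeries.coeff_mk]
    exact hnV n 0
  have hVt : evs X (cf0 V) ≠ ∞ := ne_top_of_le_ne_top ENNReal.one_ne_top (le_self_add.trans hV)
  obtain ⟨hsum, hev⟩ := evs_real hb hx0.le hVt
  set B := ∑' n, ((PowerSeries.coeff n (cf0 V) : ℤ) : ℝ) * x ^ n with hB
  have hB0 : 0 ≤ B := tsum_nonneg fun n => mul_nonneg (by exact_mod_cast hb n) (pow_nonneg hx0.le n)
  have hB1 : B < 1 := by
    rw [← hX] at hev
    rw [hev, hX, ← ENNReal.ofReal_pow hx0.le, ← ENNReal.ofReal_add hB0 (by positivity), ← ENNReal.ofReal_one,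
      ENNReal.ofReal_le_ofReal_iff zero_le_one] at hV
    have : 0 < x ^ (1 + p * m) := by positivity
    linarith
  refine ⟨hsum, ?_, hB1⟩
  -- lower bounds
  have hloe := hLOE p m Q E H V U d X l (ENNReal.ofReal e') (K * κ ^ m) hl1.le
    (by
      rw [hlX, ← ENNReal.ofReal_one]
      exact (ENNReal.ofReal_lt_ofReal_iff one_pos).2 (by linarith))
    (by
      rw [hlX, hMM', ← ENNReal.ofReal_one, ← ENNReal.ofReal_add zero_le_one he'0.le, ← ENNReal.ofReal_pow hz'0.le,
        ← ENNReal.ofReal_mul (by positivity), ← ENNReal.ofReal_mul (by positivity),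
        ← ENNReal.ofReal_add he'0.le (by positivity)]
      exact ENNReal.ofReal_le_ofReal hfix)
    (fun s hs => hbda m d.hm s hs)
  rw [hlX, hMM'] at hloe
  set e := (ev X E).co 0 with he
  have heX : e ≤ X := by
    refine le_trans ?_ hE
    have h0 : (ev X E).co 0 * NF p X 0 ≤ pr (ev X E) (NF p X) :=
      ENNReal.le_tsum (f := fun s => (ev X E).co s * NF p X s) 0
    rwa [(hFTW p X hp hX1.le).2.2.1, mul_one] at h0
  have het : e ≠ ∞ := ne_top_of_le_ne_top hXt heX
  set er := e.toReal with her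
  have hee : e = ENNReal.ofReal er := (ENNReal.ofReal_toReal het).symm
  have her0 : 0 ≤ er := ENNReal.toReal_nonneg
  have herx : er ≤ x := by
    rw [hee, hX] at heX
    exact (ENNReal.ofReal_le_ofReal_iff hx0.le).1 heX
  obtain ⟨hMMe, hMMe0⟩ := hMRE p x er hp hx0 (by linarith) her0 (hcrx er her0 herx)
  rw [← hX, ← hee] at hMMe
  rw [hMMe] at hloe
  obtain ⟨h1, h2⟩ := hloe
  have hδ : K * κ ^ m = ENNReal.ofReal (Kr * κr ^ m) := by
    rw [hKe, hκe, ← ENNReal.ofReal_pow hκr0.le, ← ENNReal.ofReal_mul hKr0]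
  have hδ0 : 0 ≤ Kr * κr ^ m := by positivity
  have h1' : x ^ 2 * (1 + er) * Mr p x er ≤ er + x ^ 2 + x ^ 2 * (Kr * κr ^ m * ((1 + e') * M')) := by
    rw [hδ, hee, hX, ← ENNReal.ofReal_one, ← ENNReal.ofReal_add zero_le_one her0, ← ENNReal.ofReal_pow hx0.le,
      ← ENNReal.ofReal_mul (by positivity), ← ENNReal.ofReal_mul (by positivity),
      ← ENNReal.ofReal_add her0 (by positivity), ← ENNReal.ofReal_add zero_le_one he'0.le,
      ← ENNReal.ofReal_mul (by positivity), ← ENNReal.ofReal_mul hδ0, ← ENNReal.ofReal_mul (by positivity),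
      ← ENNReal.ofReal_add (by positivity) (by positivity)] at h1
    exact (ENNReal.ofReal_le_ofReal_iff (by positivity)).1 h1
  have h2' : x * Mr p x er ≤ B + x * (Kr * κr ^ m * M') := by
    rw [← hX] at hev
    rw [hδ, hev, hX, ← ENNReal.ofReal_mul hx0.le, ← ENNReal.ofReal_mul hδ0, ← ENNReal.ofReal_mul hx0.le,
      ← ENNReal.ofReal_add hB0 (by positivity)] at h2
    exact (ENNReal.ofReal_le_ofReal_iff (by positivity)).1 h2
  have h3 := hlow er (x ^ 2 * (Kr * κr ^ m * ((1 + e') * M'))) her0 herx (by positivity) h1'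
  have h4 : (C * x ^ 2 * (1 + e') + x) * M' * Kr * κr ^ m =
      C * (x ^ 2 * (Kr * κr ^ m * ((1 + e') * M'))) + x * (Kr * κr ^ m * M') := by ring
  rw [h4]
  linarith

end Pool.Agent.Lib.MPba1bba.LR
end

section
/-! # MP_ba1bba_al, LR: module CRD (helper84) -/
open scoped ENNReal

namespace Pool.Agent.Lib.MPba1bba.LR

open Pool.Agent.Lib.MPba1bba Pool.Agent.Lib.MPba1bba.AS

namespace CRDAux

lemma left (p : ℕ) (h : ℤ → ℕ) (hl : ∀ k : ℤ, k < 0 → h k = h (k + 1) + p) (n : ℕ) :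
    ∀ a : ℤ, a + n ≤ 0 → h a = h (a + n) + p * n := by
  induction n with
  | zero => intro a _; simp
  | succ n ih =>
    intro a ha
    push_cast at ha
    have h1 := hl a (by omega)
    have h2 := ih (a + 1) (by omega)
    have e : a + ((n + 1 : ℕ) : ℤ) = a + 1 + n := by push_cast; ring
    rw [e, h1, h2]; ring

lemma right (p : ℕ) (h : ℤ → ℕ) (c : ℤ) (hl : ∀ k : ℤ, c ≤ k → h (k + 1) = h k + p) (n : ℕ) :
    ∀ a : ℤ, c ≤ a → h (a + n) = h a + p * n := by
  induction n with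
  | zero => intro a _; simp
  | succ n ih =>
    intro a ha
    have h1 := hl (a + n) (by omega)
    have h2 := ih a ha
    have e : a + ((n + 1 : ℕ) : ℤ) = a + n + 1 := by push_cast; ring
    rw [e, h1, h2]; ring

end CRDAux

open CRDAux in
theorem specCRD (hP : SpecPRF) : SpecCRD := by
  intro p m hp hm s hs r hr
  obtain ⟨-, -, h3⟩ := hP p (by omega) s
  obtain ⟨hL, hR, -, -⟩ := h3 hs
  set n := Multiset.card s with hn
  set D : ℤ → ℤ := fun j => (bfun p s (r + m * (j + 1)) : ℤ) - bfun p s (r + m * j) with hD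
  have hmem : ∀ j : ℤ, D j ∈ Finset.Ioo (-(p : ℤ)) (p : ℤ) → j ∈ Finset.Ico (-1 : ℤ) (n : ℤ) := by
    intro j hj
    rw [Finset.mem_Ioo] at hj
    have hpm : (p : ℤ) * 1 ≤ p * m := by
      have : (1 : ℤ) ≤ m := by omega
      exact mul_le_mul_of_nonneg_left this (by omega)
    rw [Finset.mem_Ico]
    have e1 : (r : ℤ) + m * (j + 1) = r + m * j + (m : ℕ) := by ring
    constructor
    · by_contra hc
      have hj2 : j ≤ -2 := by omega
      have hmj : (m : ℤ) * j ≤ m * (-2) := mul_le_mul_of_nonneg_left hj2 (by omega)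
      have := left p (bfun p s) hL m (r + m * j) (by
        have : (r : ℤ) < m := by exact_mod_cast hr
        linarith)
      rw [← e1] at this
      have h5 : D j = -(p * m) := by
        simp only [hD]; rw [this]; push_cast; ring
      rw [h5] at hj
      linarith [hj.1]
    · by_contra hc
      have hj2 : (n : ℤ) ≤ j := by omega
      have hj0 : (0 : ℤ) ≤ j := by omega
      have hmj : (1 : ℤ) * j ≤ m * j := mul_le_mul_of_nonneg_right (by omega) hj0
      have := right p (bfun p s) n hR m (r + m * j) (by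
        have : (0 : ℤ) ≤ r := by omega
        linarith)
      rw [← e1] at this
      have h5 : D j = p * m := by
        simp only [hD]; rw [this]; push_cast; ring
      rw [h5] at hj
      linarith [hj.2]
  have hcard : Multiset.card (sml p m s r) =
      ∑ x ∈ Finset.Ioo (-(p : ℤ)) (p : ℤ), {j : ℤ | D j = x}.ncard := by
    unfold sml
    rw [Multiset.card_sum]
    refine Finset.sum_congr rfl fun x _ => ?_
    simp [Multiset.card_nsmul, hD]
  rw [hcard]
  have h6 : ∀ x ∈ Finset.Ioo (-(p : ℤ)) (p : ℤ),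
      {j : ℤ | D j = x}.ncard = ((Finset.Ico (-1 : ℤ) (n : ℤ)).filter fun j => D j = x).card := by
    intro x hx
    rw [← Set.ncard_coe_finset]
    congr 1
    ext j
    simp only [Finset.coe_filter]
    change D j = x ↔ (j ∈ Finset.Ico (-1 : ℤ) (n : ℤ) ∧ D j = x)
    constructor
    · intro hj
      exact ⟨hmem j (by rw [hj]; exact hx), hj⟩
    · intro hj; exact hj.2
  rw [Finset.sum_congr rfl h6, Finset.sum_card_fiberwise_eq_card_filter]
  refine (Finset.card_filter_le _ _).trans ?_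
  rw [Int.card_Ico]
  omega

end Pool.Agent.Lib.MPba1bba.LR
end

section
/-!
# MP_ba1bba_al, LR: CRP, facts on `c_t(x)`
-/
open scoped ENNReal

namespace Pool.Agent.Lib.MPba1bba.LR

open Pool.Agent.Lib.MPba1bba Pool.Agent.Lib.MPba1bba.AS Vec

namespace CRPM

theorem gs_succ (n : ℕ) (x : ℝ) : gs (n + 1) x = gs n x + x ^ (n + 1) := by
  unfold gs
  rw [Finset.sum_range_succ]

theorem gs_zero (x : ℝ) : gs 0 x = 0 := by
  unfold gs
  simp

theorem gs_one (x : ℝ) : gs 1 x = x := by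
  unfold gs
  simp

theorem gs_nonneg (n : ℕ) {x : ℝ} (hx : 0 ≤ x) : 0 ≤ gs n x := by
  unfold gs
  exact Finset.sum_nonneg fun i _ => pow_nonneg hx _

theorem gs_mono (n : ℕ) {x y : ℝ} (hx : 0 ≤ x) (hxy : x ≤ y) : gs n x ≤ gs n y := by
  unfold gs
  exact Finset.sum_le_sum fun i _ => pow_le_pow_left₀ hx hxy _

theorem gs_cont (n : ℕ) : Continuous (gs n) := by
  unfold gs
  fun_prop

theorem gs_half (n : ℕ) : gs n (1 / 2) = 1 - (1 / 2) ^ n := by
  induction n with
  | zero => rw [gs_zero]; norm_num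
  | succ n ih =>
    rw [gs_succ, ih, pow_succ]
    ring

theorem gs_lt_one (n : ℕ) {x : ℝ} (hx : 0 ≤ x) (hx2 : x ≤ 1 / 2) : gs n x < 1 := by
  have h1 := gs_mono n hx hx2
  rw [gs_half] at h1
  have h2 : (0 : ℝ) < (1 / 2) ^ n := by positivity
  linarith

/-- the sum over the letters, real version -/
theorem sum_letters {p t : ℕ} (hp : 2 ≤ p) (ht : t ≤ p - 1) (x : ℝ) :
    (∑ i ∈ Finset.Ioo 0 p, if i ≤ t then x ^ i else x ^ (p - i)) = cr p t x := by
  have h1 : Finset.Ioo 0 p = (Finset.range (p - 1)).image (fun i => i + 1) := by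
    ext i
    simp only [Finset.mem_Ioo, Finset.mem_image, Finset.mem_range]
    constructor
    · rintro ⟨h1, h2⟩
      exact ⟨i - 1, by omega, by omega⟩
    · rintro ⟨j, h1, h2⟩
      omega
  rw [h1, Finset.sum_image (fun a _ b _ h => by simpa using h)]
  have h2 : p - 1 = t + (p - 1 - t) := by omega
  rw [h2, Finset.sum_range_add]
  unfold cr
  congr 1
  · unfold gs
    refine Finset.sum_congr rfl fun i hi => ?_
    rw [Finset.mem_range] at hi
    rw [if_pos (by omega)]
  · have h3 : gs (p - 1 - t) x = ∑ i ∈ Finset.range (p - 1 - t), x ^ (p - 1 - t - 1 - i + 1) := by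
      unfold gs
      exact (Finset.sum_range_reflect (fun i => x ^ (i + 1)) (p - 1 - t)).symm
    rw [h3]
    refine Finset.sum_congr rfl fun i hi => ?_
    rw [Finset.mem_range] at hi
    rw [if_neg (by omega)]
    congr 1
    omega

end CRPM

open CRPM in
theorem specCRP : SpecCRP := by
  intro p hp
  refine ⟨?_, ?_, ?_, ?_, ?_, ?_, ?_, ?_⟩
  · intro t x ht
    unfold cr
    have : p - 1 - (p - 1 - t) = t := by omega
    rw [this, add_comm]
  · intro t x ht
    unfold cr
    have h1 : p - 1 - t = (p - 1 - (t + 1)) + 1 := by omega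
    rw [gs_succ t, h1, gs_succ (p - 1 - (t + 1))]
    ring
  · intro t x y hx hxy
    unfold cr
    exact ⟨add_nonneg (gs_nonneg _ hx) (gs_nonneg _ hx),
      add_le_add (gs_mono _ hx hxy) (gs_mono _ hx hxy)⟩
  · intro t
    unfold cr
    exact (gs_cont _).add (gs_cont _)
  · intro t x hx hx2
    have h1 := gs_lt_one t hx hx2
    have h2 := gs_lt_one (p - 1 - t) hx hx2
    have h3 : cr p t x < 2 := by
      unfold cr
      linarith
    have h4 : 0 ≤ cr p t x := by
      unfold cr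
      exact add_nonneg (gs_nonneg _ hx) (gs_nonneg _ hx)
    have h5 : x * cr p t x ≤ 1 / 2 * cr p t x := mul_le_mul_of_nonneg_right hx2 h4
    linarith
  · intro t x ht hx hx1
    refine ⟨?_, ?_⟩
    · rw [← sum_letters hp ht x]
      unfold ce
      rw [ENNReal.ofReal_sum_of_nonneg]
      · refine Finset.sum_congr rfl fun i _ => ?_
        split_ifs
        · rw [ENNReal.ofReal_pow hx]
        · rw [ENNReal.ofReal_pow hx]
      · intro i _
        split_ifs <;> positivity
    · unfold A1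
      have h1 : x ^ p < 1 := pow_lt_one₀ hx hx1 (by omega)
      have h2 : 0 < 1 - x ^ p := by linarith
      have h3 : ∀ k : ℕ, ENNReal.ofReal x ^ (p * (k + 1)) =
          ENNReal.ofReal (x ^ p) * ENNReal.ofReal (x ^ p) ^ k := by
        intro k
        rw [ENNReal.ofReal_pow hx, ← pow_mul, ← pow_add]
        congr 1
        ring
      simp only [h3]
      rw [ENNReal.tsum_mul_left, ENNReal.tsum_geometric, ENNReal.ofReal_div_of_pos h2,
        ENNReal.ofReal_sub _ (by positivity), ENNReal.ofReal_one, div_eq_mul_inv]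
  · unfold cr
    rw [gs_zero, gs_half]
    have : p - 1 - 0 + 1 = p := by omega
    rw [← this, pow_succ]
    simp only [Nat.sub_zero, Nat.add_sub_cancel]
    ring
  · intro x
    unfold cr
    constructor
    · rw [gs_zero]
      show 0 + gs 1 x = x
      rw [gs_one, zero_add]
    · show gs 1 x + gs 0 x = x
      rw [gs_one, gs_zero, add_zero]

end Pool.Agent.Lib.MPba1bba.LR
end

section
/-! # MP_ba1bba_al, LR: module CST (helper84) -/
open scoped ENNReal

namespace Pool.Agent.Lib.MPba1bba.LR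

open Pool.Agent.Lib.MPba1bba Pool.Agent.Lib.MPba1bba.AS

namespace CSTAux

lemma wmin_append (p : ℕ) (u v : List ℕ) : wmin p (u ++ v) = wmin p u + wmin p v := by
  simp [wmin]

lemma sP (a : ℤ) (l : List ℤ) :
    sumPos ((a :: l : List ℤ) : Multiset ℤ) = a.toNat + sumPos (l : Multiset ℤ) := by
  rw [← Multiset.cons_coe]; simp [sumPos]

lemma sN (a : ℤ) (l : List ℤ) :
    sumNeg ((a :: l : List ℤ) : Multiset ℤ) = (-a).toNat + sumNeg (l : Multiset ℤ) := by
  rw [← Multiset.cons_coe]; simp [sumNeg]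

lemma wC (p a : ℕ) (l : List ℕ) : wmin p (a :: l) = min a (p - a) + wmin p l := by
  simp [wmin]

lemma pos (p : ℕ) (u : List ℕ) (hu : ∀ i ∈ u, 0 < i ∧ i < p) :
    wmin p u + sumPos ((u.map fun i : ℕ => (2 * (i : ℤ) - p) : List ℤ) : Multiset ℤ) = u.sum := by
  induction u with
  | nil => simp [wmin, sumPos]
  | cons a u ih =>
    have h1 := ih fun i hi => hu i (List.mem_cons_of_mem _ hi)
    have h2 := hu a List.mem_cons_self
    rw [List.map_cons, sP, wC, List.sum_cons]
    have h3 : min a (p - a) + (2 * (a : ℤ) - p).toNat = a := by omega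
    omega

lemma neg (p : ℕ) (u : List ℕ) (hu : ∀ i ∈ u, 0 < i ∧ i < p) :
    wmin p u + sumNeg ((u.map fun i : ℕ => (2 * (i : ℤ) - p) : List ℤ) : Multiset ℤ) =
      (u.map fun i => p - i).sum := by
  induction u with
  | nil => simp [wmin, sumNeg]
  | cons a u ih =>
    have h1 := ih fun i hi => hu i (List.mem_cons_of_mem _ hi)
    have h2 := hu a List.mem_cons_self
    rw [List.map_cons, sN, wC, List.map_cons, List.sum_cons]
    have h3 : min a (p - a) + (-(2 * (a : ℤ) - p)).toNat = p - a := by omega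
    omega

end CSTAux

open CSTAux in
theorem specCST (hS : SpecSRT) : SpecCST := by
  intro p w hw hi k hk
  have h1 := hS p (w.map fun i : ℕ => (2 * (i : ℤ) - p)) (by
    rw [List.pairwise_map]
    exact hw.imp fun {a b} hab => by
      have : (a : ℤ) ≤ b := by exact_mod_cast hab
      linarith) (by
    intro x hx
    obtain ⟨i, hiw, rfl⟩ := List.mem_map.1 hx
    have := hi i hiw
    constructor <;> omega) (k : ℤ)
  have e1 : ((k : ℤ)).toNat = k := by omega
  have e2 : (-(k : ℤ)).toNat + ((k : ℤ) - (w.map fun i : ℕ => (2 * (i : ℤ) - p)).length).toNat = 0 := by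
    rw [List.length_map]; omega
  rw [e1, e2, ← List.map_take, ← List.map_drop] at h1
  have h2 := pos p (w.take k) fun i hi' => hi i (List.mem_of_mem_take hi')
  have h3 := neg p (w.drop k) fun i hi' => hi i (List.mem_of_mem_drop hi')
  have h4 : wmin p w = wmin p (w.take k) + wmin p (w.drop k) := by
    rw [← wmin_append, List.take_append_drop]
  unfold wst
  rw [h1, h4]
  omega

end Pool.Agent.Lib.MPba1bba.LR
end

section
/-!
# MP_ba1bba_al, LR: the two forms of the equation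
-/
namespace Pool.Agent.Lib.MPba1bba.LR

open Pool.Agent.Lib.MPba1bba

theorem specEQP (hCRP : SpecCRP) : SpecEQP := by
  have main : ∀ (p : ℕ) (y : ℝ), 2 ≤ p → 0 < y → y < 1 / 2 → (eqF p y = 2 ↔ y * Mr p y y = 1) := by
    intro p y hp hy0 hy1
    obtain ⟨-, -, -, -, hc5, -⟩ := hCRP p hp
    have hd : ∀ t, 0 < 1 - y * cr p t y := fun t => by linarith [hc5 t y hy0.le hy1.le]
    set a := y ^ p with ha
    have ha1 : a < 1 := pow_lt_one₀ hy0.le (by linarith) (by omega)
    have h1a : 0 < 1 - a := by linarith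
    set S := ∑ t ∈ Finset.range (p - 1), y ^ (p - t) / ((1 - y * cr p t y) * (1 - y * cr p (t + 1) y)) with hS
    have hS2 : y * ∑ t ∈ Finset.range (p - 1), y ^ (p - 1 - t) * ur p t y y * ur p (t + 1) y y = S := by
      rw [hS, Finset.mul_sum]
      refine Finset.sum_congr rfl fun t ht => ?_
      have ht := Finset.mem_range.1 ht
      have h4 : y ^ (p - t) = y * y ^ (p - 1 - t) := by
        rw [← pow_succ']
        congr 1
        omega
      rw [h4]
      unfold ur
      have h1 := (hd t).ne'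
      have h2 := (hd (t + 1)).ne'
      rw [div_eq_mul_inv (y * y ^ (p - 1 - t)), mul_inv, one_div, one_div]
      ring
    have hF : eqF p y = (1 + y) * ((1 + a) * ur p 0 y y + (1 - a) * S) := by
      unfold eqF ur
      rw [← ha, ← hS]
      ring
    have h0 : ur p 0 y y * (1 - y * cr p 0 y) = 1 := one_div_mul_cancel (hd 0).ne'
    have hM : (1 - a) * (y * Mr p y y) = (1 + a) * ((1 + y) * ur p 0 y y - 1) + (1 - a) * (1 + y) * S := by
      unfold Mr
      rw [← ha]
      have e : (1 - a) * (y * ((1 + a) / (1 - a) * (1 + cr p 0 y) * ur p 0 y y + (1 + y) *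
          ∑ t ∈ Finset.range (p - 1), y ^ (p - 1 - t) * ur p t y y * ur p (t + 1) y y)) =
          ((1 + a) / (1 - a) * (1 - a)) * (y * (1 + cr p 0 y) * ur p 0 y y) + (1 - a) * (1 + y) *
          (y * ∑ t ∈ Finset.range (p - 1), y ^ (p - 1 - t) * ur p t y y * ur p (t + 1) y y) := by ring
      rw [e, hS2, div_mul_cancel₀ _ h1a.ne']
      linear_combination (-(1 + a)) * h0
    have key : eqF p y - 2 = (1 - a) * (y * Mr p y y - 1) := by
      rw [hF]
      linear_combination -hM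
    constructor
    · intro h
      rw [h, sub_self] at key
      have := (mul_eq_zero.1 key.symm).resolve_left h1a.ne'
      linarith
    · intro h
      rw [h, sub_self, mul_zero] at key
      linarith
  refine ⟨main, fun y hy0 hy1 h => ?_⟩
  obtain ⟨-, -, -, -, -, -, -, hc8⟩ := hCRP 2 le_rfl
  have hy2 : 0 < 1 - y ^ 2 := by nlinarith
  have h1 : eqF 2 y = (1 + 2 * y ^ 2) / (1 - y) := by
    unfold eqF
    rw [show (2 - 1 : ℕ) = 1 from rfl, Finset.sum_range_one, zero_add, (hc8 y).1, (hc8 y).2]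
    have h2 : 1 - y * y ≠ 0 := by nlinarith
    have h3 : (1 - y) ≠ 0 := by linarith
    have h4 : 1 - y ^ 2 ≠ 0 := hy2.ne'
    have h5 : 1 + y ≠ 0 := by linarith
    have e1 : 1 - y * y = (1 - y) * (1 + y) := by ring
    have e2 : 1 - y ^ 2 = (1 - y) * (1 + y) := by ring
    simp only [Nat.sub_zero]
    rw [e1, e2]
    field_simp
    ring
  rw [h1, div_eq_iff (by linarith)] at h
  have h2 : 2 * y ^ 2 + 2 * y = 1 := by linarith
  have hs : (√3) ^ 2 = 3 := Real.sq_sqrt (by norm_num)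
  have hs0 : 0 ≤ √3 := Real.sqrt_nonneg 3
  have h3 : y * (1 + √3) = 1 := by
    have h4 : (2 * y + 1) ^ 2 = (√3) ^ 2 := by rw [hs]; linarith
    have h5 : 2 * y + 1 = √3 := by
      have := abs_eq_abs.2 (sq_eq_sq_iff_eq_or_eq_neg.1 h4)
      rwa [abs_of_nonneg (by linarith), abs_of_nonneg hs0] at this
    rw [← h5]
    linarith
  rw [eq_comm, eq_div_iff hy0.ne']
  linarith

end Pool.Agent.Lib.MPba1bba.LR
end

section
/-!
# MP_ba1bba_al, LR: existence and uniqueness of `x_p`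
-/
namespace Pool.Agent.Lib.MPba1bba.LR

open Pool.Agent.Lib.MPba1bba

theorem specEXU (hCRP : SpecCRP) : SpecEXU := by
  intro p hp
  obtain ⟨-, -, hc3, hcc, hc5, -, hc7, -⟩ := hCRP p hp
  set φ : ℝ → ℝ := fun x => x * Mr p x x with hφ
  have hd : ∀ t x, 0 ≤ x → x ≤ 1 / 2 → 0 < 1 - x * cr p t x := fun t x h0 h1 => by linarith [hc5 t x h0 h1]
  have hxp : ∀ x : ℝ, 0 ≤ x → x ≤ 1 / 2 → x ^ p < 1 := fun x h0 h1 =>
    pow_lt_one₀ h0 (by linarith) (by omega)
  -- monotonicity of the pieces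
  have hu : ∀ t x y, 0 ≤ x → x ≤ y → y ≤ 1 / 2 → 0 < ur p t x x ∧ ur p t x x ≤ ur p t y y := by
    intro t x y h0 hxy h1
    refine ⟨one_div_pos.2 (hd t x h0 (hxy.trans h1)), ?_⟩
    unfold ur
    apply one_div_le_one_div_of_le (hd t y (h0.trans hxy) h1)
    have := mul_le_mul hxy (hc3 t x y h0 hxy).2 (hc3 t x y h0 hxy).1 (h0.trans hxy)
    linarith
  have hθ : ∀ x y : ℝ, 0 ≤ x → x ≤ y → y ≤ 1 / 2 →
      0 < (1 + x ^ p) / (1 - x ^ p) ∧ (1 + x ^ p) / (1 - x ^ p) ≤ (1 + y ^ p) / (1 - y ^ p) := by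
    intro x y h0 hxy h1
    have a1 := hxp x h0 (hxy.trans h1)
    have a2 := hxp y (h0.trans hxy) h1
    have a3 : x ^ p ≤ y ^ p := pow_le_pow_left₀ h0 hxy p
    have a4 : 0 ≤ x ^ p := pow_nonneg h0 p
    refine ⟨div_pos (by linarith) (by linarith), ?_⟩
    exact div_le_div₀ (by linarith) (by linarith) (by linarith) (by linarith)
  have hmono : ∀ x y : ℝ, 0 ≤ x → x < y → y ≤ 1 / 2 → φ x < φ y := by
    intro x y h0 hxy h1
    have hy0 : 0 < y := lt_of_le_of_lt h0 hxy
    obtain ⟨t1, t2⟩ := hθ x y h0 hxy.le h1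
    obtain ⟨u1, u2⟩ := hu 0 x y h0 hxy.le h1
    obtain ⟨c1, c2⟩ := hc3 0 x y h0 hxy.le
    have hA : x * ((1 + x ^ p) / (1 - x ^ p) * (1 + cr p 0 x) * ur p 0 x x) <
        y * ((1 + y ^ p) / (1 - y ^ p) * (1 + cr p 0 y) * ur p 0 y y) := by
      have b1 : 0 < (1 + x ^ p) / (1 - x ^ p) * (1 + cr p 0 x) * ur p 0 x x :=
        mul_pos (mul_pos t1 (by linarith)) u1
      have b2 : (1 + x ^ p) / (1 - x ^ p) * (1 + cr p 0 x) * ur p 0 x x ≤
          (1 + y ^ p) / (1 - y ^ p) * (1 + cr p 0 y) * ur p 0 y y :=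
        mul_le_mul (mul_le_mul t2 (by linarith) (by linarith) (t1.le.trans t2)) u2 u1.le
          (mul_nonneg (t1.le.trans t2) (by linarith))
      calc x * ((1 + x ^ p) / (1 - x ^ p) * (1 + cr p 0 x) * ur p 0 x x)
          < y * ((1 + x ^ p) / (1 - x ^ p) * (1 + cr p 0 x) * ur p 0 x x) := mul_lt_mul_of_pos_right hxy b1
        _ ≤ _ := mul_le_mul_of_nonneg_left b2 hy0.le
    have hS : ∑ t ∈ Finset.range (p - 1), x ^ (p - 1 - t) * ur p t x x * ur p (t + 1) x x ≤
        ∑ t ∈ Finset.range (p - 1), y ^ (p - 1 - t) * ur p t y y * ur p (t + 1) y y := by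
      refine Finset.sum_le_sum fun t _ => ?_
      obtain ⟨v1, v2⟩ := hu t x y h0 hxy.le h1
      obtain ⟨w1, w2⟩ := hu (t + 1) x y h0 hxy.le h1
      exact mul_le_mul (mul_le_mul (pow_le_pow_left₀ h0 hxy.le _) v2 v1.le (pow_nonneg hy0.le _)) w2 w1.le
        (mul_nonneg (pow_nonneg hy0.le _) (v1.le.trans v2))
    have hS0 : 0 ≤ ∑ t ∈ Finset.range (p - 1), x ^ (p - 1 - t) * ur p t x x * ur p (t + 1) x x :=
      Finset.sum_nonneg fun t _ => by
        obtain ⟨v1, -⟩ := hu t x y h0 hxy.le h1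
        obtain ⟨w1, -⟩ := hu (t + 1) x y h0 hxy.le h1
        exact mul_nonneg (mul_nonneg (pow_nonneg h0 _) v1.le) w1.le
    have hB : x * ((1 + x) * ∑ t ∈ Finset.range (p - 1), x ^ (p - 1 - t) * ur p t x x * ur p (t + 1) x x) ≤
        y * ((1 + y) * ∑ t ∈ Finset.range (p - 1), y ^ (p - 1 - t) * ur p t y y * ur p (t + 1) y y) :=
      mul_le_mul hxy.le (mul_le_mul (by linarith) hS hS0 (by linarith)) (mul_nonneg (by linarith) hS0) hy0.le
    simp only [hφ, Mr]
    rw [mul_add, mul_add]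
    linarith
  -- continuity
  have hcont : ContinuousOn φ (Set.Icc 0 (1 / 2)) := by
    intro x hx
    apply ContinuousAt.continuousWithinAt
    have hcu : ∀ t, ContinuousAt (fun x : ℝ => ur p t x x) x := fun t => by
      unfold ur
      have h1 : ContinuousAt (fun x : ℝ => 1 - x * cr p t x) x := by
        have := hcc t
        fun_prop
      exact continuousAt_const.div h1 (hd t x hx.1 hx.2).ne'
    have h1 : ContinuousAt (fun x : ℝ => (1 + x ^ p) / (1 - x ^ p)) x :=
      ContinuousAt.div (by fun_prop) (by fun_prop) (by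
        have := hxp x hx.1 hx.2
        linarith)
    have h2 : ContinuousAt (fun x : ℝ => 1 + cr p 0 x) x := by
      have := hcc 0
      fun_prop
    have h3 : ContinuousAt (fun x : ℝ => ∑ t ∈ Finset.range (p - 1),
        x ^ (p - 1 - t) * ur p t x x * ur p (t + 1) x x) x := by
      refine tendsto_finsetSum _ fun t _ => ?_
      have a3 : ContinuousAt (fun x : ℝ => x ^ (p - 1 - t)) x := by fun_prop
      exact (a3.mul (hcu t)).mul (hcu (t + 1))
    have h4 : ContinuousAt (fun x : ℝ => 1 + x) x := by fun_prop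
    have h5 : ContinuousAt (fun x : ℝ => x) x := continuousAt_id
    exact h5.mul (((h1.mul h2).mul (hcu 0)).add (h4.mul h3))
  have hφ0 : φ 0 = 0 := by simp [hφ]
  have hφ1 : 1 < φ (1 / 2) := by
    set a : ℝ := (1 / 2) ^ p with ha
    have ha0 : 0 < a := by positivity
    have ha1 : a < 1 := hxp _ (by norm_num) le_rfl
    have hS0 : 0 ≤ ∑ t ∈ Finset.range (p - 1), (1 / 2 : ℝ) ^ (p - 1 - t) * ur p t (1 / 2) (1 / 2) *
        ur p (t + 1) (1 / 2) (1 / 2) :=
      Finset.sum_nonneg fun t _ => by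
        obtain ⟨v1, -⟩ := hu t (1 / 2) (1 / 2) (by norm_num) le_rfl le_rfl
        obtain ⟨w1, -⟩ := hu (t + 1) (1 / 2) (1 / 2) (by norm_num) le_rfl le_rfl
        exact mul_nonneg (mul_nonneg (by positivity) v1.le) w1.le
    have hMr : φ (1 / 2) = 1 / 2 * ((1 + a) / (1 - a) * (1 + cr p 0 (1 / 2)) * ur p 0 (1 / 2) (1 / 2)) +
        1 / 2 * ((1 + 1 / 2) * ∑ t ∈ Finset.range (p - 1), (1 / 2 : ℝ) ^ (p - 1 - t) *
          ur p t (1 / 2) (1 / 2) * ur p (t + 1) (1 / 2) (1 / 2)) := by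
      simp only [hφ, Mr]
      rw [← ha, ← mul_add]
    have hfirst : 1 / 2 * ((1 + a) / (1 - a) * (1 + cr p 0 (1 / 2)) * ur p 0 (1 / 2) (1 / 2)) =
        2 * (1 + a) / (1 + 2 * a) := by
      unfold ur
      rw [hc7]
      have h1 : (1 : ℝ) - a ≠ 0 := by linarith
      have h2 : (1 : ℝ) + 2 * a ≠ 0 := by linarith
      have h3 : 1 - 1 / 2 * (1 - 2 * a) = (1 + 2 * a) / 2 := by ring
      rw [h3]
      field_simp
      ring
    rw [hMr, hfirst]
    have h4 : 1 < 2 * (1 + a) / (1 + 2 * a) := by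
      rw [one_lt_div (by linarith)]
      linarith
    have h5 : 0 ≤ (1 : ℝ) / 2 * ((1 + 1 / 2) * ∑ t ∈ Finset.range (p - 1), (1 / 2 : ℝ) ^ (p - 1 - t) *
          ur p t (1 / 2) (1 / 2) * ur p (t + 1) (1 / 2) (1 / 2)) :=
      mul_nonneg (by norm_num) (mul_nonneg (by norm_num) hS0)
    linarith
  obtain ⟨x, ⟨hx0, hx1⟩, hx⟩ := intermediate_value_Icc (by norm_num : (0 : ℝ) ≤ 1 / 2) hcont
    (show (1 : ℝ) ∈ Set.Icc (φ 0) (φ (1 / 2)) from ⟨by rw [hφ0]; norm_num, hφ1.le⟩)
  have hx0' : 0 < x := by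
    rcases hx0.lt_or_eq with h | h
    · exact h
    · rw [← h, hφ0] at hx
      norm_num at hx
  have hx1' : x < 1 / 2 := by
    rcases hx1.lt_or_eq with h | h
    · exact h
    · rw [h] at hx
      linarith
  refine ⟨x, hx0', hx1', hx, fun y hy0 hy1 hy => ?_⟩
  rcases lt_trichotomy y x with h | h | h
  · have := hmono y x hy0.le h hx1
    have e1 : φ y = 1 := hy
    rw [e1, hx] at this
    exact absurd this (lt_irrefl _)
  · exact h
  · have := hmono x y hx0 h hy1.le
    have e1 : φ y = 1 := hy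
    rw [e1, hx] at this
    exact absurd this (lt_irrefl _)

end Pool.Agent.Lib.MPba1bba.LR
end

section
/-! # MP_ba1bba_al, limit of the growth rates: module FON -/
open scoped ENNReal

namespace Pool.Agent.Lib.MPba1bba.LR

open Pool.Agent.Lib.MPba1bba Pool.Agent.Lib.MPba1bba.AS Vec

namespace FONAux

theorem sum_le {ι : Type*} (Q : Finset ι) (φ : ι → ℤ)
    (hφ : Set.InjOn φ Q) (f : ℤ → ℝ≥0∞) : ∑ q ∈ Q, f (φ q) ≤ ∑' k : ℤ, f k := by
  classical
  rw [← Finset.sum_image (s := Q) (g := φ) (f := f) (fun a ha b hb h => hφ ha hb h)]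
  exact ENNReal.sum_le_tsum _

theorem sum_add_le {ι : Type*} (Q : Finset ι) (φ : ι → ℤ)
    (hφ : Set.InjOn φ Q) (f : ℤ → ℝ≥0∞) (x : ℤ) (hx : ∀ q ∈ Q, φ q ≠ x) :
    ∑ q ∈ Q, f (φ q) + f x ≤ ∑' k : ℤ, f k := by
  classical
  rw [← Finset.sum_image (s := Q) (g := φ) (f := f) (fun a ha b hb h => hφ ha hb h), add_comm,
    ← Finset.sum_insert (f := f) (a := x)]
  · exact ENNReal.sum_le_tsum _
  · intro h
    obtain ⟨q, hq, hqx⟩ := Finset.mem_image.1 h
    exact hx q hq hqx

theorem eq_of_class (m r r' : ℕ) (hr : r < m) (hr' : r' < m) (a b : ℤ)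
    (h : (r : ℤ) + m * a = r' + m * b) : r = r' ∧ a = b := by
  have hm : (0 : ℤ) < m := by
    have : 0 < m := by omega
    exact_mod_cast this
  have h1 : ((r : ℤ) + m * a) % m = r := by
    rw [Int.add_mul_emod_self_left]
    exact Int.emod_eq_of_lt (by positivity) (by exact_mod_cast hr)
  have h2 : ((r' : ℤ) + m * b) % m = r' := by
    rw [Int.add_mul_emod_self_left]
    exact Int.emod_eq_of_lt (by positivity) (by exact_mod_cast hr')
  have h3 : (r : ℤ) = r' := by rw [← h1, ← h2, h]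
  refine ⟨by exact_mod_cast h3, ?_⟩
  rw [h3] at h
  have h4 : (m : ℤ) * a = m * b := by linarith
  exact mul_left_cancel₀ hm.ne' h4

end FONAux

open FONAux in
theorem specFON (hWIN : SpecWIN) (hSMC : SpecSMC) (hBFN : SpecBFN) : SpecFON := by
  classical
  intro p m z hp hm
  have main : ∀ s, bs p s → ∃ y : ℕ → ℤ,
      (∀ r k : ℕ, k ≤ Multiset.card (sml p m s r) →
        bfun p s (r + m * (y r + k)) = cmin p m s r + bfun p (sml p m s r) (k : ℤ)) ∧
      Ld p m z (NF p z) s =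
        ∑ q ∈ (Finset.range m).sigma (fun r => Finset.range (Multiset.card (sml p m s r) + 1)),
          (fun k : ℤ => z ^ bfun p s k) ((q.1 : ℤ) + m * (y q.1 + (q.2 : ℤ))) ∧
      Set.InjOn (fun q : Σ _ : ℕ, ℕ => (q.1 : ℤ) + m * (y q.1 + (q.2 : ℤ)))
        ((Finset.range m).sigma
          (fun r => Finset.range (Multiset.card (sml p m s r) + 1)) : Finset (Σ _ : ℕ, ℕ)) := by
    intro s hs
    choose y hy using hWIN p m hp hm s hs
    refine ⟨y, hy, ?_, ?_⟩
    · unfold Ld NF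
      rw [Finset.sum_sigma]
      refine Finset.sum_congr rfl fun r _ => ?_
      rw [Finset.mul_sum]
      refine Finset.sum_congr rfl fun k hk => ?_
      have hk' : k ≤ Multiset.card (sml p m s r) := by
        have := Finset.mem_range.1 hk
        omega
      simp only
      rw [hy r k hk', pow_add]
    · rintro ⟨r, k⟩ h1 ⟨r', k'⟩ h2 h
      have h1' := Finset.mem_sigma.1 (Finset.mem_coe.1 h1)
      have h2' := Finset.mem_sigma.1 (Finset.mem_coe.1 h2)
      have hr : r < m := Finset.mem_range.1 h1'.1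
      have hr' : r' < m := Finset.mem_range.1 h2'.1
      obtain ⟨h3, h4⟩ := eq_of_class m r r' hr hr' _ _ h
      subst h3
      have h5 : k = k' := by
        have : (k : ℤ) = k' := by
          have h6 : y r + (k : ℤ) = y r + (k' : ℤ) := h4
          linarith
        exact_mod_cast this
      subst h5
      rfl
  refine ⟨?_, ?_⟩
  · intro s hs
    obtain ⟨y, -, h1, h2⟩ := main s hs
    rw [h1]
    unfold LF
    exact sum_le _ _ h2 (fun k : ℤ => z ^ bfun p s k)
  · have hs0 : bs p 0 := by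
      intro x hx
      simp at hx
    obtain ⟨y, hy, h1, h2⟩ := main 0 hs0
    have hb0 := (hBFN p).2.2.1
    have hz : z ^ (p * m) = (fun k : ℤ => z ^ bfun p 0 k) (m : ℤ) := by
      simp only
      rw [hb0]
      simp
    rw [h1, hz]
    unfold LF
    refine sum_add_le _ _ h2 (fun k : ℤ => z ^ bfun p 0 k) (m : ℤ) ?_
    rintro ⟨r, k⟩ hq h
    have hq' := Finset.mem_sigma.1 hq
    have hr : r < m := Finset.mem_range.1 hq'.1
    have hk := Finset.mem_range.1 hq'.2
    simp only at hk h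
    have h3 : (r : ℤ) + m * (y r + (k : ℤ)) = (0 : ℕ) + m * 1 := by
      rw [h]
      simp
    obtain ⟨h4, h5⟩ := eq_of_class m r 0 hr (by omega) _ _ h3
    subst h4
    obtain ⟨-, -, -, -, -, ⟨hc, hs⟩, -⟩ := hSMC p m (by omega) hm
    rw [hs] at hk
    have hk0 : k = 0 := by simpa using hk
    subst hk0
    have h6 := hy 0 0 (Nat.zero_le _)
    rw [hc, hs, hb0, hb0] at h6
    have h7 : y 0 + ((0 : ℕ) : ℤ) = 1 := h5
    rw [h7] at h6
    have h8 : p * m = 0 := by
      have : ((0 : ℕ) : ℤ) + m * 1 = (m : ℤ) := by simp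
      rw [this] at h6
      simpa using h6
    have : 0 < p * m := Nat.mul_pos (by omega) (by omega)
    omega

end Pool.Agent.Lib.MPba1bba.LR
end

section
/-! # MP_ba1bba_al, limit of the growth rates: module FTW -/
open scoped ENNReal

namespace Pool.Agent.Lib.MPba1bba.LR

open Pool.Agent.Lib.MPba1bba Pool.Agent.Lib.MPba1bba.AS Vec

namespace FTWAux

theorem bfun_nil (hPRF : SpecPRF) (p : ℕ) (hp : 1 ≤ p) : bfun p 0 0 = 0 := by
  obtain ⟨⟨k, hk, hb⟩, -⟩ := hPRF p hp 0
  have : k = 0 := by simpa using hk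
  subst this
  simpa using hb

theorem sum_image_le {ι : Type*} [DecidableEq ι] (Q : Finset ι) (φ : ι → ℤ)
    (hφ : Set.InjOn φ Q) (f : ℤ → ℝ≥0∞) : ∑ q ∈ Q, f (φ q) ≤ ∑' k : ℤ, f k := by
  classical
  rw [← Finset.sum_image (s := Q) (g := φ) (f := f) (fun a ha b hb h => hφ ha hb h)]
  exact ENNReal.sum_le_tsum _

end FTWAux

open FTWAux in
theorem specFTW (hPRF : SpecPRF) (hSPL : SpecSPL) : SpecFTW := by
  intro p z hp hz
  have hp1 : 1 ≤ p := by omega
  refine ⟨?_, ?_, ?_, ?_, ?_⟩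
  · intro s t hs ht
    obtain ⟨-, hspl⟩ := hSPL p s t
    have h := hspl hs ht
    choose! i j hi hj hij hb using h
    unfold NF
    rw [Finset.sum_mul_sum, ← Finset.sum_product', Multiset.card_add]
    calc ∑ k ∈ Finset.range (Multiset.card s + Multiset.card t + 1), z ^ bfun p (s + t) (k : ℤ)
        ≤ ∑ k ∈ Finset.range (Multiset.card s + Multiset.card t + 1),
          (fun x : ℕ × ℕ => z ^ bfun p s (x.1 : ℤ) * z ^ bfun p t (x.2 : ℤ)) (i k, j k) := by
          refine Finset.sum_le_sum fun k hk => ?_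
          have hk' : k ≤ Multiset.card s + Multiset.card t := by
            have := Finset.mem_range.1 hk
            omega
          simp only
          rw [← pow_add]
          exact pow_le_pow_right_of_le_one' hz (hb k hk')
      _ = ∑ x ∈ (Finset.range (Multiset.card s + Multiset.card t + 1)).image
            (fun k => (i k, j k)),
            (fun x : ℕ × ℕ => z ^ bfun p s (x.1 : ℤ) * z ^ bfun p t (x.2 : ℤ)) x := by
          rw [Finset.sum_image]
          intro a ha b hb' hab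
          have ha' : a ≤ Multiset.card s + Multiset.card t := by
            have := Finset.mem_range.1 (Finset.mem_coe.1 ha)
            omega
          have hb'' : b ≤ Multiset.card s + Multiset.card t := by
            have := Finset.mem_range.1 (Finset.mem_coe.1 hb')
            omega
          have h1 := hij a ha'
          have h2 := hij b hb''
          have h3 : i a = i b := congrArg Prod.fst hab
          have h4 : j a = j b := congrArg Prod.snd hab
          omega
      _ ≤ _ := by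
          refine Finset.sum_le_sum_of_subset ?_
          intro x hx
          obtain ⟨k, hk, rfl⟩ := Finset.mem_image.1 hx
          have hk' : k ≤ Multiset.card s + Multiset.card t := by
            have := Finset.mem_range.1 hk
            omega
          rw [Finset.mem_product]
          refine ⟨Finset.mem_range.2 ?_, Finset.mem_range.2 ?_⟩
          · have := hi k hk'
            simp only
            omega
          · have := hj k hk'
            simp only
            omega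
  · intro s t
    obtain ⟨hspl, -⟩ := hSPL p s t
    have key : ∀ k : ℤ, z ^ bfun p (s + t) k ≤
        ∑ j ∈ Finset.range (Multiset.card t + 1),
          z ^ bfun p t (j : ℤ) * z ^ bfun p s (k - (j : ℤ)) := by
      intro k
      obtain ⟨j, hj, hb⟩ := hspl k
      calc z ^ bfun p (s + t) k ≤ z ^ (bfun p t (j : ℤ) + bfun p s (k - (j : ℤ))) :=
            pow_le_pow_right_of_le_one' hz (by omega)
        _ = z ^ bfun p t (j : ℤ) * z ^ bfun p s (k - (j : ℤ)) := pow_add _ _ _
        _ ≤ _ := Finset.single_le_sum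
            (f := fun j : ℕ => z ^ bfun p t (j : ℤ) * z ^ bfun p s (k - (j : ℤ)))
            (fun _ _ => bot_le) (Finset.mem_range.2 (by omega))
    unfold LF NF
    calc ∑' k : ℤ, z ^ bfun p (s + t) k
        ≤ ∑' k : ℤ, ∑ j ∈ Finset.range (Multiset.card t + 1),
          z ^ bfun p t (j : ℤ) * z ^ bfun p s (k - (j : ℤ)) := ENNReal.tsum_le_tsum key
      _ = ∑ j ∈ Finset.range (Multiset.card t + 1), ∑' k : ℤ,
          z ^ bfun p t (j : ℤ) * z ^ bfun p s (k - (j : ℤ)) :=
          Summable.tsum_finsetSum (fun _ _ => ENNReal.summable)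
      _ = ∑ j ∈ Finset.range (Multiset.card t + 1),
          z ^ bfun p t (j : ℤ) * ∑' k : ℤ, z ^ bfun p s k := by
          refine Finset.sum_congr rfl fun j _ => ?_
          rw [ENNReal.tsum_mul_left]
          congr 1
          exact (Equiv.subRight (j : ℤ)).tsum_eq (fun k => z ^ bfun p s k)
      _ = _ := by rw [Finset.sum_mul]
  · unfold NF
    simp [bfun_nil hPRF p hp1]
  · intro s
    obtain ⟨⟨k, hk, hb⟩, -⟩ := hPRF p hp1 s
    unfold NF
    calc (1 : ℝ≥0∞) = z ^ bfun p s (k : ℤ) := by rw [hb, pow_zero]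
      _ ≤ _ := Finset.single_le_sum (f := fun k : ℕ => z ^ bfun p s (k : ℤ))
          (fun _ _ => bot_le) (Finset.mem_range.2 (by omega))
  · intro s
    unfold NF LF
    exact sum_image_le (Finset.range (Multiset.card s + 1)) (fun k : ℕ => (k : ℤ))
      (fun a _ b _ h => by
        have h' : ((a : ℕ) : ℤ) = ((b : ℕ) : ℤ) := h
        exact_mod_cast h') (fun k => z ^ bfun p s k)

end Pool.Agent.Lib.MPba1bba.LR
end

section
/-!
# MP_ba1bba_al, LR: final assembly
-/
open scoped ENNReal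

namespace Pool.Agent.Lib.MPba1bba.LR

open Pool.Agent.Lib.MPba1bba Pool.Agent.Lib.MPba1bba.AS Vec

theorem specLFI (hAS : MainAS) (hUVX : SpecUVX) (hPSR : SpecPSR) (hBVL : SpecBVL) (hEXU : SpecEXU)
    (hEQP : SpecEQP) : SpecLFI := by
  intro p hp
  obtain ⟨x, hx0, hx1, hxM, huni⟩ := hEXU p hp
  obtain ⟨C, κ, hC, hκ0, hκ1, hB⟩ := hBVL p x hp hx0 hx1 hxM
  refine ⟨x, hx0, hx1, (hEQP.1 p x hp hx0 hx1).2 hxM,
    fun y hy0 hy1 hy => huni y hy0 hy1 ((hEQP.1 p y hp hy0 hy1).1 hy), ?_,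
    C / x ^ 2, κ, hκ0, hκ1, fun m hm => ?_⟩
  · intro h2
    subst h2
    exact hEQP.2 x hx0 hx1 ((hEQP.1 2 x hp hx0 hx1).2 hxM)
  obtain ⟨Q, E, H, V, hsys, hveq, -, hb, z₀, r, C', C'', K, hz0, hz1, hzr, -, hsum, -, -, -, hlim⟩ :=
    hAS p m hp hm
  obtain ⟨U, hU, -⟩ := hUVX p m (1 + E) (serR Q E)
  have d : Dat p m Q E H V U := ⟨hp, hm, hsys, hveq, hU⟩
  obtain ⟨-, -, -, ⟨-, b1, -⟩, -⟩ := hPSR p m Q E H V U d
  obtain ⟨hs, hlow, hupp⟩ := hB m Q E H V U d
  set b : ℕ → ℝ := fun n => ((PowerSeries.coeff n (cf0 V) : ℤ) : ℝ) with hbdef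
  have hb0 : ∀ n, 0 ≤ b n := fun n => by
    show (0 : ℝ) ≤ ((PowerSeries.coeff n (cf0 V) : ℤ) : ℝ)
    exact_mod_cast hb n
  have hb1 : 1 ≤ b 1 := by
    show (1 : ℝ) ≤ ((PowerSeries.coeff 1 (cf0 V) : ℤ) : ℝ)
    exact_mod_cast b1
  have hzs : Summable fun n => b n * z₀ ^ n := hsum.summable
  have hz1' : ∑' n, b n * z₀ ^ n = 1 := hsum.tsum_eq
  -- `x < z₀`
  have hxz : x < z₀ := by
    by_contra hcon
    push Not at hcon
    have : ∑' n, b n * z₀ ^ n ≤ ∑' n, b n * x ^ n :=
      hzs.tsum_le_tsum (fun n => mul_le_mul_of_nonneg_left (pow_le_pow_left₀ hz0.le hcon n) (hb0 n)) hs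
    rw [hz1'] at this
    exact absurd (this.trans_lt hupp) (lt_irrefl _)
  -- `z₀ - x ≤ 1 - B(x)`
  have hdiff : z₀ - x ≤ 1 - ∑' n, b n * x ^ n := by
    have h1 : (1 : ℝ) - ∑' n, b n * x ^ n = ∑' n, (b n * z₀ ^ n - b n * x ^ n) := by
      rw [hzs.tsum_sub hs, hz1']
    rw [h1]
    have hsd : Summable fun n => b n * z₀ ^ n - b n * x ^ n := hzs.sub hs
    have hnn : ∀ n, 0 ≤ b n * z₀ ^ n - b n * x ^ n := fun n =>
      sub_nonneg.2 (mul_le_mul_of_nonneg_left (pow_le_pow_left₀ hx0.le hxz.le n) (hb0 n))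
    have h2 := hsd.le_tsum 1 (fun n _ => hnn n)
    have h3 : z₀ - x ≤ b 1 * z₀ ^ 1 - b 1 * x ^ 1 := by
      rw [pow_one, pow_one, ← mul_sub]
      nlinarith [sub_pos.2 hxz]
    exact h3.trans h2
  have hd2 : z₀ - x ≤ C * κ ^ m := by linarith
  refine ⟨1 / z₀, hlim, ?_, one_div_lt_one_div_of_lt hx0 hxz⟩
  have h4 : 1 / x - 1 / z₀ = (z₀ - x) / (x * z₀) := by
    field_simp
  have h5 : (z₀ - x) / (x * z₀) ≤ (z₀ - x) / x ^ 2 := by
    apply div_le_div_of_nonneg_left (sub_nonneg.2 hxz.le) (by positivity)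
    nlinarith
  have h6 : (z₀ - x) / x ^ 2 ≤ C / x ^ 2 * κ ^ m := by
    rw [div_mul_eq_mul_div]
    exact div_le_div_of_nonneg_right hd2 (by positivity)
  linarith

end Pool.Agent.Lib.MPba1bba.LR
end

section
/-!
# MP_ba1bba_al, LR/LNF: the pairing of the powers with `L`
-/
open scoped ENNReal

namespace Pool.Agent.Lib.MPba1bba.LR

open Pool.Agent.Lib.MPba1bba Pool.Agent.Lib.MPba1bba.AS Vec

namespace LNFAux

theorem ce_zero (p : ℕ) (z : ℝ≥0∞) : ∑ i ∈ Finset.Ioo 0 p, z ^ (p - i) = ce p 0 z := by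
  unfold ce
  refine Finset.sum_congr rfl fun i hi => ?_
  rw [Finset.mem_Ioo] at hi
  rw [if_neg (by omega)]

theorem sum_refl (p : ℕ) (z : ℝ≥0∞) : ∑ i ∈ Finset.Ioo 0 p, z ^ i = ce p 0 z := by
  rw [← ce_zero]
  refine Finset.sum_bij' (fun i _ => p - i) (fun i _ => p - i) ?_ ?_ ?_ ?_ ?_ <;>
    intro i hi <;> rw [Finset.mem_Ioo] at hi
  · rw [Finset.mem_Ioo]; omega
  · rw [Finset.mem_Ioo]; omega
  · omega
  · omega
  · congr 1; omega

end LNFAux

open LNFAux in
/-- **Module LNF.** -/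
theorem specLNF (hWRL : SpecWRL) (hSWF : SpecSWF) : SpecLNF := by
  intro p z n hp
  obtain ⟨h1, h2, h3, h4, h5⟩ := hSWF p z n
  rw [h1, h2 _ _ fun w _ hw => hWRL p z w hp hw, (h3 _ _ 0).1, (h3 _ _ 0).1,
    (h3 (fun w => (w.map fun i => z ^ i).prod + (w.map fun i => z ^ (p - i)).prod)
      (fun _ => 0) (A1 p z)).2, (h3 _ _ 0).1, h4, h4, h5, sum_refl, ce_zero]
  simp only [one_mul]
  ring

end Pool.Agent.Lib.MPba1bba.LR
end

section
/-! # MP_ba1bba_al, LR: module LOE, the lower bounds (helper83) -/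
set_option autoImplicit false

open scoped ENNReal

namespace Pool.Agent.Lib.MPba1bba.LR

open Pool.Agent.Lib.MPba1bba Pool.Agent.Lib.MPba1bba.AS Vec

namespace LOEAux

theorem Lv_co (p m : ℕ) (z : ℝ≥0∞) (x : Vec) : (Lv p m z x).co 0 = pr x (GF p m z) := by
  unfold Lv pr GF
  refine tsum_congr fun s => ?_
  rw [Finset.mul_sum]
  refine Finset.sum_congr rfl fun r _ => ?_
  by_cases h : sml p m s r = 0
  · rw [if_pos h, if_pos h]
  · rw [if_neg h, if_neg h, mul_zero]

theorem evs_co (z : ℝ≥0∞) (V : Ser) : evs z (cf0 V) = (ev z V).co 0 := by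
  unfold evs cf0 ev
  simp only [PowerSeries.coeff_mk]

theorem smul_one_le {e : ℝ≥0∞} {x : Vec} (h : e ≤ x.co 0) : e • (1 : Vec) ≤ x := by
  intro s
  rw [smul_co, one_co]
  by_cases hs : s = 0
  · rw [if_pos hs, mul_one, hs]
    exact h
  · rw [if_neg hs, mul_zero]
    exact bot_le

end LOEAux

open LOEAux PTXC in
theorem specLOE (hEVA : SpecEVA) (hEVL : SpecEVL) (hPSR : SpecPSR) (hEQZ : SpecEQZ)
    (hEQT : SpecEQT) (hORD : SpecORD) (hORE : SpecORE) (hFTW : SpecFTW) (hPRM : SpecPRM)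
    (hUPE : SpecUPE) : SpecLOE := by
  intro p m Q E H V U hD z l e' δ hl hlz hsup hδ
  have hp := hD.hp
  have hzl : z ≤ l * z := by
    calc z = 1 * z := (one_mul z).symm
      _ ≤ l * z := mul_le_mul' hl le_rfl
  have hz1 : z < 1 := lt_of_le_of_lt hzl hlz
  obtain ⟨⟨nn1, -, ev1⟩, eva2, eva3, -, -, -⟩ := hEVA
  obtain ⟨-, -, -, -, evl5, -, -, -, -, evl10, evl11⟩ := hEVL p m
  obtain ⟨⟨-, -, nnE, -, -, -, nnR, -, -, -⟩, ⟨-, -, bsE, -, bsV, -, bsR⟩, -, -, -⟩ :=
    hPSR p m Q E H V U hD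
  obtain ⟨eqz1, -, -, -, -, eqz6, -⟩ := hEQZ p m Q E H V U hD z
  obtain ⟨-, -, -, eqt4, -, -, -⟩ := hEQT p m Q E H V U hD z
  obtain ⟨-, -, -, eqt4', -, -, -⟩ := hEQT p m Q E H V U hD (l * z)
  obtain ⟨ordE, ordR, ordF⟩ := hORD p m Q E H V U hD
  obtain ⟨-, -, ftw3, ftw4, ftw5⟩ := hFTW p (l * z) hp hlz.le
  obtain ⟨-, prm2', prm3', -⟩ := hPRM p (l * z) hp hlz.le
  obtain ⟨-, -, -, prm4⟩ := hPRM p z hp hz1.le
  have hup : pr (ev (l * z) E) (NF p (l * z)) ≤ e' := hUPE p m Q E H V U hD (l * z) e' hlz hsup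
  set e : ℝ≥0∞ := (ev z E).co 0 with he
  set R := ev z (serR Q E) with hR
  have bR : Bd p R := (evl11 z _ bsR).1
  have bE : Bd p (ev z E) := (evl11 z _ bsE).1
  have bE' : Bd p (ev (l * z) E) := (evl11 (l * z) _ bsE).1
  have nn1E : Nn (1 + E) := (eva2 1 E nn1 nnE).1
  have hF : ∀ y : ℝ≥0∞, ev y ((1 + E) * serR Q E) = (1 + ev y E) * ev y (serR Q E) := by
    intro y
    rw [(eva3 y (1 + E) (serR Q E) nn1E nnR).2.1, (eva3 y 1 E nn1 nnE).1]
    rw [(ev1 y 0).1]
  have bF : Bd p ((1 + ev z E) * R) := (evl10 _ _ (evl10 _ _ (Bd_one p) bE).2 bR).1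
  -- the pairing of `R` with `L` at `z` and at `l z`
  have hRL : MM p z e ≤ pr R (LF p z) := by
    rw [eqt4]
    exact prm4 (ev z E) e (smul_one_le le_rfl)
  have hRL' : pr (ev (l * z) (serR Q E)) (LF p (l * z)) ≤ MM p (l * z) e' := by
    rw [eqt4']
    exact prm3' (ev (l * z) E) e' bE' hup
  have hms : ∀ x : Vec, ms x ≤ pr x (LF p (l * z)) := fun x =>
    pr_mono (fun _ => le_rfl) fun s => (ftw4 s).trans (ftw5 s)
  have hcmp : ∀ x : Vec, Bd p x → pr x (LF p z) ≤
      pr x (GF p m z) + δ * pr x (fun s => l ^ Multiset.card s) := by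
    intro x hx
    calc pr x (LF p z) ≤ pr x (fun s => GF p m z s + δ * l ^ Multiset.card s) := pr_mono_bd hx hδ
      _ = _ := by rw [pr_add', pr_smul']
  constructor
  · have h1 : pr ((1 + ev z E) * R) (fun s => l ^ Multiset.card s) ≤
        (1 + e') * MM p (l * z) e' := by
      have h2 := hORE ((1 + E) * serR Q E) z l hl ordF
      rw [hF z] at h2
      refine h2.trans ((hms _).trans ?_)
      rw [hF (l * z)]
      refine (prm2' _ _).trans (mul_le_mul' ?_ hRL')
      rw [pr_add, pr_one, ftw3]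
      exact add_le_add le_rfl hup
    have h3 : e + z ^ 2 = z ^ 2 * pr ((1 + ev z E) * R) (GF p m z) := by
      have h4 := congrArg (fun v : Vec => v.co 0) eqz1
      simp only [add_co, smul_co] at h4
      rw [Lv_co] at h4
      have h5 : (1 : Vec).co 0 = 1 := by rw [one_co, if_pos rfl]
      rw [h5, mul_one] at h4
      exact h4
    have h6 : (1 + e) * pr R (LF p z) ≤ pr ((1 + ev z E) * R) (LF p z) := by
      have h7 : (1 + e) • R ≤ (1 + ev z E) * R := by
        have h8 : (1 + e) • (1 : Vec) ≤ 1 + ev z E := by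
          refine smul_one_le ?_
          rw [add_co, one_co, if_pos rfl]
        calc (1 + e) • R = ((1 + e) • (1 : Vec)) * R := by rw [smul_mul, one_mul]
          _ ≤ _ := mul_mono h8 le_rfl
      rw [← smul_pr]
      exact pr_mono h7 fun _ => le_rfl
    calc z ^ 2 * (1 + e) * MM p z e ≤ z ^ 2 * (1 + e) * pr R (LF p z) := mul_le_mul' le_rfl hRL
      _ = z ^ 2 * ((1 + e) * pr R (LF p z)) := by rw [mul_assoc]
      _ ≤ z ^ 2 * (pr ((1 + ev z E) * R) (GF p m z) +
            δ * ((1 + e') * MM p (l * z) e')) := by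
          refine mul_le_mul' le_rfl (h6.trans ((hcmp _ bF).trans ?_))
          exact add_le_add le_rfl (mul_le_mul' le_rfl h1)
      _ = e + z ^ 2 + z ^ 2 * (δ * ((1 + e') * MM p (l * z) e')) := by
          rw [mul_add, ← h3]
  · have h1 : pr R (fun s => l ^ Multiset.card s) ≤ MM p (l * z) e' :=
      (hORE (serR Q E) z l hl ordR).trans ((hms _).trans hRL')
    have h2 : z * pr R (GF p m z) ≤ evs z (cf0 V) := by
      rw [evs_co]
      have h4 := congrArg (fun v : Vec => v.co 0) eqz6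
      simp only [smul_co] at h4
      rw [Lv_co] at h4
      rw [h4]
      refine mul_le_mul' le_rfl (pr_mono ?_ fun _ => le_rfl)
      calc R = R * 1 := (mul_one R).symm
        _ ≤ R * (1 + PP (ev z V)) := mul_mono le_rfl fun s => by
            rw [add_co]
            exact le_self_add
    calc z * MM p z e ≤ z * pr R (LF p z) := mul_le_mul' le_rfl hRL
      _ ≤ z * (pr R (GF p m z) + δ * MM p (l * z) e') :=
          mul_le_mul' le_rfl ((hcmp _ bR).trans (add_le_add le_rfl (mul_le_mul' le_rfl h1)))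
      _ = z * pr R (GF p m z) + z * (δ * MM p (l * z) e') := mul_add _ _ _
      _ ≤ _ := add_le_add h2 le_rfl

end Pool.Agent.Lib.MPba1bba.LR
end

section
/-!
# MP_ba1bba_al, LR: the lower bound for `x M_x(e)`
-/
namespace Pool.Agent.Lib.MPba1bba.LR

open Pool.Agent.Lib.MPba1bba

theorem specLOW (hCRP : SpecCRP) (hTAN : SpecTAN) : SpecLOW := by
  intro p x hp hx0 hx1 hxM hP
  obtain ⟨-, -, -, -, hc5, -⟩ := hCRP p hp
  have hcr : ∀ t ≤ p - 1, x * cr p t x < 1 := fun t _ => hc5 t x hx0.le hx1.le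
  obtain ⟨-, -, hdM, -⟩ := hTAN p x 0 x hp hx0 (by linarith) le_rfl hx0.le hcr
  have h1P : 0 < 1 - dP p x x := by linarith
  refine ⟨x * dM p x x / (1 - dP p x x), by positivity, fun e ε he0 hex hε h => ?_⟩
  obtain ⟨-, h2, -, h4⟩ := hTAN p x e x hp hx0 (by linarith) he0 hex hcr
  have h5 : x ^ 2 * ((1 + x) * Mr p x x) = x * (1 + x) * (x * Mr p x x) := by ring
  have h6 : x ^ 2 * ((1 + x) * Mr p x x) = x * (1 + x) := by rw [h5, hxM, mul_one]
  have h7 : (1 - dP p x x) * (x - e) ≤ ε := by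
    have : x ^ 2 * ((1 + x) * Mr p x x - (1 + e) * Mr p x e) =
        x ^ 2 * ((1 + x) * Mr p x x) - x ^ 2 * (1 + e) * Mr p x e := by ring
    rw [this, h6] at h4
    nlinarith
  have h8 : x - e ≤ ε / (1 - dP p x x) := by
    rw [le_div_iff₀ h1P]
    linarith
  have h9 : x * (Mr p x x - Mr p x e) ≤ x * (dM p x x * (x - e)) := mul_le_mul_of_nonneg_left h2 hx0.le
  have h10 : x * (dM p x x * (x - e)) ≤ x * (dM p x x * (ε / (1 - dP p x x))) :=
    mul_le_mul_of_nonneg_left (mul_le_mul_of_nonneg_left h8 hdM) hx0.le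
  have h11 : x * (dM p x x * (ε / (1 - dP p x x))) = x * dM p x x / (1 - dP p x x) * ε := by ring
  have h12 : x * (Mr p x x - Mr p x e) = 1 - x * Mr p x e := by rw [mul_sub, hxM]
  linarith

end Pool.Agent.Lib.MPba1bba.LR
end

section
/-!
# MP_ba1bba_al, LR/MMF: the function `M` in closed form
-/
open scoped ENNReal

namespace Pool.Agent.Lib.MPba1bba.LR

open Pool.Agent.Lib.MPba1bba Pool.Agent.Lib.MPba1bba.AS Vec

namespace MMFAux

theorem cauchy (f g : ℕ → ℝ≥0∞) :
    ∑' n : ℕ, ∑ l ∈ Finset.range (n + 1), f l * g (n - l) = (∑' n, f n) * ∑' n, g n := by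
  have h1 : ∀ n : ℕ, ∑ l ∈ Finset.range (n + 1), f l * g (n - l) =
      ∑' x : Finset.HasAntidiagonal.antidiagonal n, f (x : ℕ × ℕ).1 * g (x : ℕ × ℕ).2 := by
    intro n
    rw [Finset.tsum_subtype (Finset.HasAntidiagonal.antidiagonal n) (fun x : ℕ × ℕ => f x.1 * g x.2),
      Finset.Nat.sum_antidiagonal_eq_sum_range_succ (fun i j => f i * g j) n]
  rw [tsum_congr h1,
    ← ENNReal.tsum_sigma (fun (n : ℕ) (x : Finset.HasAntidiagonal.antidiagonal n) =>
      f (x : ℕ × ℕ).1 * g (x : ℕ × ℕ).2)]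
  have h2 := Equiv.tsum_eq Finset.HasAntidiagonal.sigmaAntidiagonalEquivProd
    (fun x : ℕ × ℕ => f x.1 * g x.2)
  have h3 : ∑' x : ℕ × ℕ, f x.1 * g x.2 = (∑' n, f n) * ∑' n, g n := by
    rw [ENNReal.tsum_prod (f := fun i j => f i * g j), ← ENNReal.tsum_mul_right]
    exact tsum_congr fun i => ENNReal.tsum_mul_left
  rw [← h3, ← h2]
  rfl

theorem geo2 (e a b : ℝ≥0∞) :
    ∑' n : ℕ, e ^ n * ∑ l ∈ Finset.range (n + 1), a ^ l * b ^ (n + 1 - 1 - l) =
      (1 - e * b)⁻¹ * (1 - e * a)⁻¹ := by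
  rw [mul_comm (1 - e * b)⁻¹, ← ENNReal.tsum_geometric, ← ENNReal.tsum_geometric,
    ← cauchy (fun n => (e * a) ^ n) (fun n => (e * b) ^ n)]
  refine tsum_congr fun n => ?_
  rw [Finset.mul_sum]
  refine Finset.sum_congr rfl fun l hl => ?_
  rw [Finset.mem_range] at hl
  have e1 : n + 1 - 1 - l = n - l := by omega
  rw [e1]
  conv_lhs => rw [show n = l + (n - l) by omega, pow_add]
  rw [show l + (n - l) - l = n - l by omega, mul_pow, mul_pow]
  ring

theorem geo1 (e a b : ℝ≥0∞) :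
    ∑' n : ℕ, e ^ n * ∑ l ∈ Finset.range n, a ^ l * b ^ (n - 1 - l) =
      e * ((1 - e * b)⁻¹ * (1 - e * a)⁻¹) := by
  rw [← geo2, tsum_eq_zero_add' ENNReal.summable, Finset.range_zero, Finset.sum_empty, mul_zero,
    zero_add, ← ENNReal.tsum_mul_left]
  refine tsum_congr fun n => ?_
  rw [pow_succ]
  ring

theorem mm_eq (p : ℕ) (z e : ℝ≥0∞) :
    MM p z e = ∑' n : ℕ, (e ^ n * pr (ev z (serY p) ^ n) (LF p z) +
      e ^ n * pr (ev z (serY p) ^ (n + 1)) (LF p z)) := by
  rw [MM, pr_mul_geo]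
  refine tsum_congr fun n => ?_
  have : (1 + ev z (serY p)) * (e • ev z (serY p)) ^ n =
      e ^ n • (ev z (serY p) ^ n + ev z (serY p) ^ (n + 1)) := by
    rw [smul_pow, mul_smul_comm, add_mul, one_mul, pow_succ' _ n]
  rw [this, smul_pr, pr_add, mul_add]

end MMFAux

open MMFAux in
theorem specMMF (hLNF : SpecLNF) : SpecMMF := by
  intro p z e hp
  have hs : ∀ F : ℕ → ℕ → ℝ≥0∞,
      ∑' n : ℕ, e ^ n * ∑ t ∈ Finset.Ioo 0 p, z ^ (p - t) * F t n =
        ∑ t ∈ Finset.Ioo 0 p, z ^ (p - t) * ∑' n : ℕ, e ^ n * F t n := by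
    intro F
    have : ∀ n : ℕ, e ^ n * ∑ t ∈ Finset.Ioo 0 p, z ^ (p - t) * F t n =
        ∑ t ∈ Finset.Ioo 0 p, z ^ (p - t) * (e ^ n * F t n) := by
      intro n
      rw [Finset.mul_sum]
      exact Finset.sum_congr rfl fun t _ => by ring
    rw [tsum_congr this, Summable.tsum_finsetSum (fun _ _ => ENNReal.summable)]
    exact Finset.sum_congr rfl fun t _ => ENNReal.tsum_mul_left
  have h1 : ∑' n : ℕ, e ^ n * pr (ev z (serY p) ^ n) (LF p z) =
      (1 + 2 * A1 p z) * (1 - e * ce p 0 z)⁻¹ +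
        ∑ t ∈ Finset.Ioo 0 p, z ^ (p - t) *
          (e * ((1 - e * ce p (t - 1) z)⁻¹ * (1 - e * ce p t z)⁻¹)) := by
    simp only [hLNF p z _ hp, mul_add]
    rw [ENNReal.tsum_add, hs]
    congr 1
    · rw [← ENNReal.tsum_geometric, ← ENNReal.tsum_mul_left]
      refine tsum_congr fun n => ?_
      rw [mul_pow]
      ring
    · exact Finset.sum_congr rfl fun t _ => by rw [geo1]
  have h2 : ∑' n : ℕ, e ^ n * pr (ev z (serY p) ^ (n + 1)) (LF p z) =
      (1 + 2 * A1 p z) * ce p 0 z * (1 - e * ce p 0 z)⁻¹ +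
        ∑ t ∈ Finset.Ioo 0 p, z ^ (p - t) *
          ((1 - e * ce p (t - 1) z)⁻¹ * (1 - e * ce p t z)⁻¹) := by
    simp only [hLNF p z _ hp, mul_add]
    rw [ENNReal.tsum_add, hs (fun t n => ∑ l ∈ Finset.range (n + 1),
      ce p t z ^ l * ce p (t - 1) z ^ (n + 1 - 1 - l))]
    congr 1
    · rw [← ENNReal.tsum_geometric, ← ENNReal.tsum_mul_left]
      refine tsum_congr fun n => ?_
      rw [mul_pow]
      ring
    · exact Finset.sum_congr rfl fun t _ => by rw [geo2]
  rw [mm_eq, ENNReal.tsum_add, h1, h2, Finset.mul_sum]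
  have h3 : ∑ t ∈ Finset.Ioo 0 p, (1 + e) *
      (z ^ (p - t) * (1 - e * ce p (t - 1) z)⁻¹ * (1 - e * ce p t z)⁻¹) =
      ∑ t ∈ Finset.Ioo 0 p, z ^ (p - t) *
          (e * ((1 - e * ce p (t - 1) z)⁻¹ * (1 - e * ce p t z)⁻¹)) +
        ∑ t ∈ Finset.Ioo 0 p, z ^ (p - t) *
          ((1 - e * ce p (t - 1) z)⁻¹ * (1 - e * ce p t z)⁻¹) := by
    rw [← Finset.sum_add_distrib]
    exact Finset.sum_congr rfl fun t _ => by ring
  rw [h3]
  ring

end Pool.Agent.Lib.MPba1bba.LR
end

section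
/-!
# MP_ba1bba_al, LR/MRE: the formula for `M` in real numbers
-/
open scoped ENNReal

namespace Pool.Agent.Lib.MPba1bba.LR

open Pool.Agent.Lib.MPba1bba Pool.Agent.Lib.MPba1bba.AS Vec

namespace MREAux

theorem inv_eq {e c : ℝ} (he : 0 ≤ e) (hc : 0 ≤ c) (h : e * c < 1) :
    (1 - ENNReal.ofReal e * ENNReal.ofReal c)⁻¹ = ENNReal.ofReal (1 / (1 - e * c)) := by
  have h1 : (1 : ℝ≥0∞) - ENNReal.ofReal (e * c) = ENNReal.ofReal (1 - e * c) := by
    rw [ENNReal.ofReal_sub 1 (mul_nonneg he hc), ENNReal.ofReal_one]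
  rw [← ENNReal.ofReal_mul he, h1, ← ENNReal.ofReal_inv_of_pos (by linarith), one_div]

theorem sum_shift (p : ℕ) (f : ℕ → ℝ≥0∞) :
    ∑ t ∈ Finset.Ioo 0 p, f t = ∑ t ∈ Finset.range (p - 1), f (t + 1) := by
  refine Finset.sum_nbij' (fun t => t - 1) (fun t => t + 1) ?_ ?_ ?_ ?_ ?_
  · intro a ha
    simp only [Finset.mem_Ioo, Finset.mem_range] at *
    omega
  · intro a ha
    simp only [Finset.mem_Ioo, Finset.mem_range] at *
    omega
  · intro a ha
    simp only [Finset.mem_Ioo] at ha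
    omega
  · intro a ha
    simp
  · intro a ha
    simp only [Finset.mem_Ioo] at ha
    congr 1
    omega

end MREAux

theorem specMRE (hMMF : SpecMMF) (hCRP : SpecCRP) : SpecMRE := by
  intro p x e hp hx0 hx1 he hc
  obtain ⟨-, -, hC3, -, -, hC6, -, -⟩ := hCRP p hp
  have hcn : ∀ t, 0 ≤ cr p t x := fun t => (hC3 t x x hx0.le le_rfl).1
  have hxp : x ^ p < 1 := pow_lt_one₀ hx0.le hx1 (by omega)
  have hxp0 : 0 ≤ x ^ p := by positivity
  have hur : ∀ t ≤ p - 1, 0 ≤ ur p t x e := by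
    intro t ht
    have := hc t ht
    rw [ur]
    exact div_nonneg zero_le_one (by linarith)
  have hterm : ∀ t ∈ Finset.range (p - 1),
      0 ≤ x ^ (p - 1 - t) * ur p t x e * ur p (t + 1) x e := by
    intro t ht
    rw [Finset.mem_range] at ht
    exact mul_nonneg (mul_nonneg (by positivity) (hur t (by omega))) (hur (t + 1) (by omega))
  have hS0 : 0 ≤ ∑ t ∈ Finset.range (p - 1), x ^ (p - 1 - t) * ur p t x e * ur p (t + 1) x e :=
    Finset.sum_nonneg hterm
  have hA0 : 0 ≤ (1 + x ^ p) / (1 - x ^ p) := div_nonneg (by linarith) (by linarith)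
  have hc1 : 0 ≤ 1 + cr p 0 x := by
    have := hcn 0
    linarith
  have hAc : 0 ≤ (1 + x ^ p) / (1 - x ^ p) * (1 + cr p 0 x) := mul_nonneg hA0 hc1
  have hF0 : 0 ≤ (1 + x ^ p) / (1 - x ^ p) * (1 + cr p 0 x) * ur p 0 x e :=
    mul_nonneg hAc (hur 0 (by omega))
  have he1 : 0 ≤ 1 + e := by linarith
  refine ⟨?_, ?_⟩
  · rw [hMMF p _ _ hp]
    have hA : 1 + 2 * A1 p (ENNReal.ofReal x) = ENNReal.ofReal ((1 + x ^ p) / (1 - x ^ p)) := by
      rw [(hC6 0 x (by omega) hx0.le hx1).2]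
      have h1 : (1 + x ^ p) / (1 - x ^ p) = 1 + 2 * (x ^ p / (1 - x ^ p)) := by
        have h2 : 1 - x ^ p ≠ 0 := by
          intro h
          linarith
        rw [div_eq_iff h2, add_mul, mul_assoc, div_mul_cancel₀ _ h2]
        ring
      rw [h1, ENNReal.ofReal_add zero_le_one
        (mul_nonneg zero_le_two (div_nonneg hxp0 (by linarith))), ENNReal.ofReal_one,
        ENNReal.ofReal_mul zero_le_two, ENNReal.ofReal_ofNat]
    have hc0 : 1 + ce p 0 (ENNReal.ofReal x) = ENNReal.ofReal (1 + cr p 0 x) := by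
      rw [(hC6 0 x (by omega) hx0.le hx1).1, ENNReal.ofReal_add zero_le_one (hcn 0),
        ENNReal.ofReal_one]
    have hI : ∀ t ≤ p - 1, (1 - ENNReal.ofReal e * ce p t (ENNReal.ofReal x))⁻¹ =
        ENNReal.ofReal (ur p t x e) := by
      intro t ht
      rw [(hC6 t x ht hx0.le hx1).1, MREAux.inv_eq he (hcn t) (hc t ht), ur]
    have hE : 1 + ENNReal.ofReal e = ENNReal.ofReal (1 + e) := by
      rw [ENNReal.ofReal_add zero_le_one he, ENNReal.ofReal_one]
    have hSum : ∑ t ∈ Finset.Ioo 0 p, ENNReal.ofReal x ^ (p - t) *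
        (1 - ENNReal.ofReal e * ce p (t - 1) (ENNReal.ofReal x))⁻¹ *
        (1 - ENNReal.ofReal e * ce p t (ENNReal.ofReal x))⁻¹ =
        ENNReal.ofReal (∑ t ∈ Finset.range (p - 1),
          x ^ (p - 1 - t) * ur p t x e * ur p (t + 1) x e) := by
      rw [MREAux.sum_shift, ENNReal.ofReal_sum_of_nonneg hterm]
      apply Finset.sum_congr rfl
      intro t ht
      rw [Finset.mem_range] at ht
      have h1 : p - (t + 1) = p - 1 - t := by omega
      rw [Nat.add_sub_cancel, hI t (by omega), hI (t + 1) (by omega), h1,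
        ENNReal.ofReal_mul (mul_nonneg (by positivity) (hur t (by omega))),
        ENNReal.ofReal_mul (by positivity), ENNReal.ofReal_pow hx0.le]
    rw [hA, hc0, hI 0 (by omega), hE, hSum, Mr, ENNReal.ofReal_add hF0 (mul_nonneg he1 hS0),
      ENNReal.ofReal_mul hAc, ENNReal.ofReal_mul hA0, ENNReal.ofReal_mul he1]
  · exact add_nonneg hF0 (mul_nonneg he1 hS0)

end Pool.Agent.Lib.MPba1bba.LR
end

section
/-!
# MP_ba1bba_al, LR: the multiplier is less than one
-/
namespace Pool.Agent.Lib.MPba1bba.LR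

namespace MULM

/-- Telescoping with absolute values. -/
theorem tele (v : ℕ → ℝ) (a b : ℕ) (hab : a ≤ b) :
    |v b - v a| ≤ ∑ t ∈ Finset.Ico a b, |v (t + 1) - v t| := by
  induction b, hab using Nat.le_induction with
  | base => simp
  | succ b hab ih =>
    rw [Finset.sum_Ico_succ_top hab]
    calc |v (b + 1) - v a| = |(v (b + 1) - v b) + (v b - v a)| := by ring_nf
      _ ≤ |v (b + 1) - v b| + |v b - v a| := abs_add_le _ _
      _ ≤ _ := by linarith

/-- The combinatorial core. `n = p - 1` steps. -/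
theorem core (n : ℕ) (u g f : ℕ → ℝ) (θ a : ℝ) (hθ : 0 < θ) (ha0 : 0 < a) (ha1 : a < 1)
    (hθa : θ * (1 - a) = 1 + a)
    (hu : ∀ t ≤ n, 0 < u t) (hsym : u n = u 0)
    (hgf : ∀ t < n, g t - f t = u t - u (t + 1))
    (hle : ∀ t < n, θ * |g t - f t| ≤ g t + f t)
    (hg1 : ∑ t ∈ Finset.range n, g t = ∑ t ∈ Finset.range n, f t)
    (hg2 : ∑ t ∈ Finset.range n, g t * (u t + u (t + 1)) = ∑ t ∈ Finset.range n, f t * (u t + u (t + 1)))
    (hg0 : ∀ t < n, 0 ≤ g t) :
    θ * u 0 ^ 2 + ∑ t ∈ Finset.range n, g t * (u t + u (t + 1)) <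
      (1 - a) * (1 - a / 2) * (θ * u 0 + ∑ t ∈ Finset.range n, g t) ^ 2 := by
  obtain ⟨K, hK, hmax⟩ := Finset.exists_max_image (Finset.range (n + 1)) u ⟨0, by simp⟩
  rw [Finset.mem_range] at hK
  have hmax' : ∀ t ≤ n, u t ≤ u K := fun t ht => hmax t (Finset.mem_range.2 (by omega))
  set U := u K with hU
  set S1 := ∑ t ∈ Finset.range n, g t with hS1
  set S2 := ∑ t ∈ Finset.range n, g t * (u t + u (t + 1)) with hS2
  set v : ℕ → ℝ := fun t => (U - u t) ^ 2 with hv
  -- lower bound for `2 U S1 - S2`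
  have hA : 2 * (2 * U * S1 - S2) =
      ∑ t ∈ Finset.range n, (g t + f t) * ((U - u t) + (U - u (t + 1))) := by
    have e : ∀ t, (g t + f t) * ((U - u t) + (U - u (t + 1))) =
        2 * U * g t + 2 * U * f t - (g t * (u t + u (t + 1)) + f t * (u t + u (t + 1))) := fun t => by ring
    simp only [e]
    rw [Finset.sum_sub_distrib, Finset.sum_add_distrib, Finset.sum_add_distrib, ← Finset.mul_sum,
      ← Finset.mul_sum, ← hg1, ← hg2, ← hS1, ← hS2]
    ring
  have hB : ∑ t ∈ Finset.range n, θ * |v (t + 1) - v t| ≤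
      ∑ t ∈ Finset.range n, (g t + f t) * ((U - u t) + (U - u (t + 1))) := by
    refine Finset.sum_le_sum fun t ht => ?_
    rw [Finset.mem_range] at ht
    have h1 : 0 ≤ (U - u t) + (U - u (t + 1)) := by
      have := hmax' t (by omega)
      have := hmax' (t + 1) (by omega)
      linarith
    have h2 : v (t + 1) - v t = (g t - f t) * ((U - u t) + (U - u (t + 1))) := by
      rw [hgf t ht]
      simp only [hv]
      ring
    rw [h2, abs_mul, abs_of_nonneg h1, ← mul_assoc]
    exact mul_le_mul_of_nonneg_right (hle t ht) h1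
  have hC : 2 * v 0 ≤ ∑ t ∈ Finset.range n, |v (t + 1) - v t| := by
    have hKn : K ≤ n := by omega
    have h1 := tele v 0 K (Nat.zero_le _)
    have h2 := tele v K n hKn
    have h3 : ∑ t ∈ Finset.range n, |v (t + 1) - v t| =
        ∑ t ∈ Finset.Ico 0 K, |v (t + 1) - v t| + ∑ t ∈ Finset.Ico K n, |v (t + 1) - v t| := by
      rw [Finset.sum_Ico_consecutive _ (Nat.zero_le _) hKn, Nat.Ico_zero_eq_range]
    have h4 : v K = 0 := by simp [hv, hU]
    have h5 : v n = v 0 := by simp only [hv, hsym]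
    have h6 : 0 ≤ v 0 := sq_nonneg _
    rw [h4] at h1 h2
    rw [h5] at h2
    rw [h3]
    have h7 : |0 - v 0| = v 0 := by rw [zero_sub, abs_neg, abs_of_nonneg h6]
    have h8 : |v 0 - 0| = v 0 := by rw [sub_zero, abs_of_nonneg h6]
    rw [h7] at h1
    rw [h8] at h2
    linarith
  have hD : 2 * θ * (U - u 0) ^ 2 ≤ 2 * (2 * U * S1 - S2) := by
    rw [hA]
    refine le_trans ?_ hB
    rw [← Finset.mul_sum]
    have : v 0 = (U - u 0) ^ 2 := rfl
    rw [this] at hC
    nlinarith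
  have hu0 : 0 < u 0 := hu 0 (Nat.zero_le _)
  have hS1n : 0 ≤ S1 := Finset.sum_nonneg fun t ht => hg0 t (Finset.mem_range.1 ht)
  set A := θ * u 0 + S1 with hAdef
  have hA0 : 0 < A := by
    have := mul_pos hθ hu0
    linarith
  -- `B ≤ 2 U A - θ U² ≤ A²/θ`
  have h1 : θ * u 0 ^ 2 + S2 ≤ 2 * U * A - θ * U ^ 2 := by
    have : θ * (U - u 0) ^ 2 = θ * U ^ 2 - 2 * θ * U * u 0 + θ * u 0 ^ 2 := by ring
    have h3 : 2 * U * A = 2 * θ * U * u 0 + 2 * U * S1 := by rw [hAdef]; ring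
    linarith
  have h2 : θ * (2 * U * A - θ * U ^ 2) ≤ A ^ 2 := by nlinarith [sq_nonneg (A - θ * U)]
  have h3 : θ * (θ * u 0 ^ 2 + S2) ≤ A ^ 2 := le_trans (mul_le_mul_of_nonneg_left h1 hθ.le) h2
  have h4 : A ^ 2 < θ * ((1 - a) * (1 - a / 2) * A ^ 2) := by
    have : θ * ((1 - a) * (1 - a / 2) * A ^ 2) = (1 + a) * (1 - a / 2) * A ^ 2 := by
      rw [← hθa]; ring
    rw [this]
    have h5 : 1 < (1 + a) * (1 - a / 2) := by nlinarith
    nlinarith [pow_pos hA0 2]
  exact lt_of_mul_lt_mul_left (h3.trans_lt h4) hθ.le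

end MULM

open MULM in
theorem specMUL (hCRP : SpecCRP) : SpecMUL := by
  intro p x hp hx0 hx1 hM
  obtain ⟨hc1, hc2, hc3, -, hc5, -⟩ := hCRP p hp
  set a := x ^ p with ha
  have ha0 : 0 < a := pow_pos hx0 p
  have ha1 : a < 1 := pow_lt_one₀ hx0.le (by linarith) (by omega)
  set θ := (1 + a) / (1 - a) with hθ
  have h1a : 0 < 1 - a := by linarith
  have hθ0 : 0 < θ := by positivity
  have hθa : θ * (1 - a) = 1 + a := by rw [hθ]; field_simp
  set c : ℕ → ℝ := fun t => cr p t x with hc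
  set u : ℕ → ℝ := fun t => ur p t x x with hu
  have hd : ∀ t, 0 < 1 - x * c t := fun t => by
    have := hc5 t x hx0.le hx1.le
    simp only [hc]
    linarith
  have huc : ∀ t, u t * (1 - x * c t) = 1 := fun t => by
    simp only [hu, ur]
    exact one_div_mul_cancel (hd t).ne'
  have hu0 : ∀ t, 0 < u t := fun t => by
    simp only [hu, ur]
    exact one_div_pos.2 (hd t)
  set n := p - 1 with hn
  set g : ℕ → ℝ := fun t => x ^ (p - t) * (u t * u (t + 1)) with hg
  set f : ℕ → ℝ := fun t => x ^ (t + 2) * (u t * u (t + 1)) with hf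
  have hus : ∀ t ≤ n, u (n - t) = u t := fun t ht => by
    simp only [hu, ur]
    rw [hc1 t x ht]
  -- symmetry
  have hgs : ∀ t < n, g (n - 1 - t) = f t := fun t ht => by
    simp only [hg, hf]
    have e1 : n - 1 - t = n - (t + 1) := by omega
    have e2 : n - 1 - t + 1 = n - t := by omega
    rw [e2, e1, hus (t + 1) (by omega), hus t (by omega), mul_comm (u (t + 1))]
    congr 2
    omega
  have hsum1 : ∑ t ∈ Finset.range n, g t = ∑ t ∈ Finset.range n, f t := by
    rw [← Finset.sum_range_reflect]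
    exact Finset.sum_congr rfl fun t ht => hgs t (Finset.mem_range.1 ht)
  have hsum2 : ∑ t ∈ Finset.range n, g t * (u t + u (t + 1)) =
      ∑ t ∈ Finset.range n, f t * (u t + u (t + 1)) := by
    rw [← Finset.sum_range_reflect]
    refine Finset.sum_congr rfl fun t ht => ?_
    have ht := Finset.mem_range.1 ht
    rw [hgs t ht]
    have e1 : n - 1 - t = n - (t + 1) := by omega
    have e2 : n - 1 - t + 1 = n - t := by omega
    rw [e2, e1, hus (t + 1) (by omega), hus t (by omega), add_comm]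
  have hgf : ∀ t < n, g t - f t = u t - u (t + 1) := fun t ht => by
    have h1 := hc2 t x (by omega)
    have h2 := huc t
    have h3 := huc (t + 1)
    have h4 : x ^ (p - t) = x * x ^ (p - 1 - t) := by
      rw [← pow_succ']
      congr 1
      omega
    have h5 : x ^ (t + 2) = x * x ^ (t + 1) := by rw [← pow_succ']
    simp only [hg, hf]
    rw [h4, h5]
    have h6 : x * x ^ (p - 1 - t) * (u t * u (t + 1)) - x * x ^ (t + 1) * (u t * u (t + 1)) =
        x * (c t - c (t + 1)) * (u t * u (t + 1)) := by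
      simp only [hc]
      rw [h1]
      ring
    rw [h6]
    linear_combination (u t) * h3 - (u (t + 1)) * h2
  have hle : ∀ t < n, θ * |g t - f t| ≤ g t + f t := fun t ht => by
    have hπ : 0 < u t * u (t + 1) := mul_pos (hu0 t) (hu0 (t + 1))
    have e1 : g t - f t = (x ^ (p - t) - x ^ (t + 2)) * (u t * u (t + 1)) := by
      simp only [hg, hf]; ring
    have e2 : g t + f t = (x ^ (p - t) + x ^ (t + 2)) * (u t * u (t + 1)) := by
      simp only [hg, hf]; ring
    rw [e1, e2, abs_mul, abs_of_pos hπ, ← mul_assoc]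
    refine mul_le_mul_of_nonneg_right ?_ hπ.le
    rw [hθ, div_mul_eq_mul_div, div_le_iff₀ h1a]
    have key : ∀ i j : ℕ, i ≤ j → j ≤ i + p →
        (1 + a) * (x ^ i - x ^ j) ≤ (x ^ i + x ^ j) * (1 - a) := by
      intro i j hij hjp
      have h1 : x ^ i * a ≤ x ^ j := by
        rw [ha, ← pow_add]
        exact pow_le_pow_of_le_one hx0.le (by linarith) hjp
      nlinarith [pow_pos hx0 i, pow_pos hx0 j]
    rcases le_total (p - t) (t + 2) with h | h
    · have h1 : x ^ (t + 2) ≤ x ^ (p - t) := pow_le_pow_of_le_one hx0.le (by linarith) h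
      rw [abs_of_nonneg (by linarith)]
      exact key (p - t) (t + 2) h (by omega)
    · have h1 : x ^ (p - t) ≤ x ^ (t + 2) := pow_le_pow_of_le_one hx0.le (by linarith) h
      rw [abs_of_nonpos (by linarith)]
      have := key (t + 2) (p - t) h (by omega)
      linarith
  have hcore := core n u g f θ a hθ0 ha0 ha1 hθa (fun t _ => hu0 t) (by simpa using hus 0 (Nat.zero_le _))
    hgf hle hsum1 hsum2 (fun t _ => by simp only [hg]; positivity [hu0 t, hu0 (t + 1)])
  set S1 := ∑ t ∈ Finset.range n, g t with hS1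
  set S2 := ∑ t ∈ Finset.range n, g t * (u t + u (t + 1)) with hS2
  set A := θ * u 0 + S1 with hA
  set B := θ * u 0 ^ 2 + S2 with hB
  -- the sums in `Mr` and `dM`
  have hT1 : x * ∑ t ∈ Finset.range (p - 1), x ^ (p - 1 - t) * ur p t x x * ur p (t + 1) x x = S1 := by
    rw [hS1, Finset.mul_sum]
    refine Finset.sum_congr rfl fun t ht => ?_
    have ht := Finset.mem_range.1 ht
    have h4 : x ^ (p - t) = x * x ^ (p - 1 - t) := by
      rw [← pow_succ']
      congr 1
      omega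
    simp only [hg, hu]
    rw [h4]
    ring
  have hT2 : x ^ 2 * ∑ t ∈ Finset.range (p - 1), x ^ (p - 1 - t) * ur p t x x * ur p (t + 1) x x *
      (cr p t x * ur p t x x + cr p (t + 1) x * ur p (t + 1) x x) = S2 - 2 * S1 := by
    rw [hS2, hS1, Finset.mul_sum, Finset.mul_sum, ← Finset.sum_sub_distrib]
    refine Finset.sum_congr rfl fun t ht => ?_
    have ht := Finset.mem_range.1 ht
    have h4 : x ^ (p - t) = x * x ^ (p - 1 - t) := by
      rw [← pow_succ']
      congr 1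
      omega
    have h2 := huc t
    have h3 := huc (t + 1)
    simp only [hu, hc] at h2 h3
    simp only [hg, hu]
    rw [h4]
    linear_combination (-x * x ^ (p - 1 - t) * ur p t x x * ur p (t + 1) x x) * (h2 + h3)
  have h0 := huc 0
  -- the hypothesis
  have hM1 : (1 + x) * A = 1 + θ := by
    have e : x * Mr p x x = θ * ((1 + x) * u 0 - 1) + (1 + x) * S1 := by
      unfold Mr
      rw [← ha, ← hθ]
      have : x * (θ * (1 + cr p 0 x) * ur p 0 x x + (1 + x) *
          ∑ t ∈ Finset.range (p - 1), x ^ (p - 1 - t) * ur p t x x * ur p (t + 1) x x) =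
          x * (θ * (1 + cr p 0 x) * ur p 0 x x) + (1 + x) *
          (x * ∑ t ∈ Finset.range (p - 1), x ^ (p - 1 - t) * ur p t x x * ur p (t + 1) x x) := by ring
      rw [this, hT1]
      simp only [hu, hc] at h0 ⊢
      linear_combination (-θ) * h0
    rw [hM] at e
    rw [hA]
    linarith
  have hdP : dP p x x = (1 + x) ^ 2 * B - 2 - θ := by
    unfold dP dM
    rw [← ha, ← hθ]
    have e1 : x ^ 2 * (Mr p x x + (1 + x) * (θ * (1 + cr p 0 x) * cr p 0 x * ur p 0 x x ^ 2 +
        ∑ t ∈ Finset.range (p - 1), x ^ (p - 1 - t) * ur p t x x * ur p (t + 1) x x +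
        (1 + x) * ∑ t ∈ Finset.range (p - 1), x ^ (p - 1 - t) * ur p t x x * ur p (t + 1) x x *
          (cr p t x * ur p t x x + cr p (t + 1) x * ur p (t + 1) x x))) =
        x * (x * Mr p x x) + (1 + x) * (θ * (x * (1 + cr p 0 x) * ur p 0 x x) * (x * cr p 0 x * ur p 0 x x) +
        x * (x * ∑ t ∈ Finset.range (p - 1), x ^ (p - 1 - t) * ur p t x x * ur p (t + 1) x x) +
        (1 + x) * (x ^ 2 * ∑ t ∈ Finset.range (p - 1), x ^ (p - 1 - t) * ur p t x x * ur p (t + 1) x x *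
          (cr p t x * ur p t x x + cr p (t + 1) x * ur p (t + 1) x x))) := by ring
    rw [e1, hM, hT1, hT2]
    have e2 : x * cr p 0 x * ur p 0 x x = u 0 - 1 := by
      simp only [hu, hc] at h0 ⊢
      linear_combination (-1 : ℝ) * h0
    have e3 : x * (1 + cr p 0 x) * ur p 0 x x = (1 + x) * u 0 - 1 := by
      simp only [hu, hc] at h0 ⊢
      linear_combination (-1 : ℝ) * h0
    rw [e2, e3, hB]
    linear_combination (-(2 + x)) * hM1
  rw [hdP]
  have h5 : (1 + x) ^ 2 * B < (1 - a) * (1 - a / 2) * ((1 + x) * A) ^ 2 := by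
    have : (1 - a) * (1 - a / 2) * ((1 + x) * A) ^ 2 = (1 + x) ^ 2 * ((1 - a) * (1 - a / 2) * A ^ 2) := by ring
    rw [this]
    exact mul_lt_mul_of_pos_left hcore (by positivity)
  rw [hM1] at h5
  have h6 : (1 - a) * (1 - a / 2) * (1 + θ) ^ 2 = 3 + θ := by
    rw [hθ]
    field_simp
    ring
  linarith

end Pool.Agent.Lib.MPba1bba.LR
end

section
/-!
# MP_ba1bba_al, LR: the order bound after evaluation
-/
open scoped ENNReal

namespace Pool.Agent.Lib.MPba1bba.LR

open Pool.Agent.Lib.MPba1bba Pool.Agent.Lib.MPba1bba.AS Vec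

theorem specORE : SpecORE := by
  intro F z l hl hF
  unfold ms pr
  refine ENNReal.tsum_le_tsum fun s => ?_
  simp only [mul_one, ev]
  rw [← ENNReal.tsum_mul_right]
  refine ENNReal.tsum_le_tsum fun n => ?_
  by_cases h : (PowerSeries.coeff n F).coeff s = 0
  · rw [h]; simp
  · have h1 := hF n s h
    calc z ^ n * (((PowerSeries.coeff n F).coeff s).toNat : ℝ≥0∞) * l ^ Multiset.card s
        = l ^ Multiset.card s * z ^ n * (((PowerSeries.coeff n F).coeff s).toNat : ℝ≥0∞) := by ring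
      _ ≤ l ^ n * z ^ n * (((PowerSeries.coeff n F).coeff s).toNat : ℝ≥0∞) := by
          gcongr
      _ = _ := by rw [mul_pow]

end Pool.Agent.Lib.MPba1bba.LR
end

section
/-! # MP_ba1bba_al, LR: module PRF (helper85) -/
open scoped ENNReal

namespace Pool.Agent.Lib.MPba1bba.LR

open Pool.Agent.Lib.MPba1bba Pool.Agent.Lib.MPba1bba.AS

namespace PRFAux

lemma sP (a : ℤ) (l : List ℤ) :
    sumPos ((a :: l : List ℤ) : Multiset ℤ) = a.toNat + sumPos (l : Multiset ℤ) := by
  rw [← Multiset.cons_coe]; simp [sumPos]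

lemma sN (a : ℤ) (l : List ℤ) :
    sumNeg ((a :: l : List ℤ) : Multiset ℤ) = (-a).toNat + sumNeg (l : Multiset ℤ) := by
  rw [← Multiset.cons_coe]; simp [sumNeg]

lemma sPs (a : ℤ) (l : List ℤ) :
    sumPos ((l ++ [a] : List ℤ) : Multiset ℤ) = sumPos (l : Multiset ℤ) + a.toNat := by
  simp [sumPos]

section
variable (p : ℕ) (L : List ℤ) (hb : ∀ k : ℤ,
  bfun p (L : Multiset ℤ) k = sumPos ((L.take k.toNat : List ℤ) : Multiset ℤ) +
    sumNeg ((L.drop k.toNat : List ℤ) : Multiset ℤ) + p * ((-k).toNat + (k - L.length).toNat))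
include hb

lemma d1 (k : ℤ) (hk : k < 0) :
    bfun p (L : Multiset ℤ) k = bfun p (L : Multiset ℤ) (k + 1) + p := by
  rw [hb k, hb (k + 1)]
  have e1 : k.toNat = 0 := by omega
  have e2 : (k + 1).toNat = 0 := by omega
  have e3 : (-k).toNat + (k - L.length).toNat = ((-(k + 1)).toNat + (k + 1 - L.length).toNat) + 1 := by
    omega
  rw [e1, e2, e3]
  ring

lemma d2 (k : ℤ) (hk : (L.length : ℤ) ≤ k) :
    bfun p (L : Multiset ℤ) (k + 1) = bfun p (L : Multiset ℤ) k + p := by
  rw [hb k, hb (k + 1)]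
  have e1 : L.length ≤ k.toNat := by omega
  have e2 : L.length ≤ (k + 1).toNat := by omega
  have e3 : (-(k + 1)).toNat + (k + 1 - L.length).toNat = ((-k).toNat + (k - L.length).toNat) + 1 := by
    omega
  rw [List.take_of_length_le e1, List.take_of_length_le e2, List.drop_of_length_le e1,
    List.drop_of_length_le e2, e3]
  ring

lemma d3 (i : ℕ) (hi : i < L.length) :
    (bfun p (L : Multiset ℤ) ((i : ℤ) + 1) : ℤ) - bfun p (L : Multiset ℤ) (i : ℤ) = L[i] := by
  rw [hb (i : ℤ), hb ((i : ℤ) + 1)]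
  have e1 : ((i : ℤ)).toNat = i := by omega
  have e2 : ((i : ℤ) + 1).toNat = i + 1 := by omega
  have e3 : (-(i : ℤ)).toNat + ((i : ℤ) - L.length).toNat = 0 := by omega
  have e4 : (-((i : ℤ) + 1)).toNat + ((i : ℤ) + 1 - L.length).toNat = 0 := by omega
  rw [e1, e2, e3, e4, List.take_succ_eq_append_getElem hi, sPs, List.drop_eq_getElem_cons hi, sN]
  push_cast
  have := Int.toNat_sub_toNat_neg L[i]
  omega

end

end PRFAux

open PRFAux in
theorem specPRF (hBFN : SpecBFN) (hSRT : SpecSRT) : SpecPRF := by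
  intro p _ s
  obtain ⟨hB1, hB2, -⟩ := hBFN p
  refine ⟨?_, ?_, ?_⟩
  · refine ⟨Multiset.card (s.filter fun x => x < 0), Multiset.card_le_card (Multiset.filter_le _ _), ?_⟩
    have h := hB2 s (Multiset.card (s.filter fun x => x < 0) : ℤ) (s.filter fun x => x < 0)
      (s.filter fun x => ¬ x < 0) (Multiset.filter_add_not _ _)
    have h1 : sumPos (s.filter fun x => x < 0) = 0 := by
      unfold sumPos
      rw [Multiset.sum_eq_zero_iff]
      intro y hy
      obtain ⟨x, hx, rfl⟩ := Multiset.mem_map.1 hy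
      have := (Multiset.mem_filter.1 hx).2
      omega
    have h2 : sumNeg (s.filter fun x => ¬ x < 0) = 0 := by
      unfold sumNeg
      rw [Multiset.sum_eq_zero_iff]
      intro y hy
      obtain ⟨x, hx, rfl⟩ := Multiset.mem_map.1 hy
      have := (Multiset.mem_filter.1 hx).2
      omega
    rw [h1, h2] at h
    simpa using h
  · intro k
    obtain ⟨A, B, hAB, h⟩ := hB1 s k
    refine ⟨Multiset.card A, ?_, ?_⟩
    · rw [← hAB, Multiset.card_add]; omega
    · rw [h]; omega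
  · intro hs
    obtain ⟨L, hL, hLs⟩ : ∃ L : List ℤ, L.Pairwise (· ≤ ·) ∧ (L : Multiset ℤ) = s :=
      ⟨s.sort (· ≤ ·), Multiset.pairwise_sort _ _, Multiset.sort_eq _ _⟩
    subst hLs
    have hmem : ∀ x ∈ L, -(p : ℤ) < x ∧ x < p := fun x hx => hs x (Multiset.mem_coe.2 hx)
    have hb := hSRT p L hL hmem
    have hc : Multiset.card (L : Multiset ℤ) = L.length := Multiset.coe_card L
    rw [hc]
    have D1 := d1 p L hb
    have D2 := d2 p L hb
    have D3 := d3 p L hb
    refine ⟨D1, D2, ?_, ?_⟩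
    · intro k hk0 hk1
      obtain ⟨i, rfl⟩ : ∃ i : ℕ, k = (i : ℤ) := ⟨k.toNat, by omega⟩
      have hi : i < L.length := by omega
      rw [D3 i hi, abs_lt]
      exact hmem _ (List.getElem_mem hi)
    · intro k
      rcases lt_or_ge k (-1) with h | h
      · have h1 := D1 k (by omega)
        have h2 := D1 (k + 1) (by omega)
        rw [show k + 1 + 1 = k + 2 by ring] at h2
        omega
      rcases eq_or_lt_of_le h with h | h
      · subst h
        have h1 := D1 (-1) (by omega)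
        norm_num at h1 ⊢
        rcases Nat.eq_zero_or_pos L.length with h0 | h0
        · have h2 := D2 0 (by omega)
          norm_num at h2
          omega
        · have h2 := D3 0 h0
          have h3 := (hmem _ (List.getElem_mem h0)).1
          norm_num at h2
          omega
      obtain ⟨i, rfl⟩ : ∃ i : ℕ, k = (i : ℤ) := ⟨k.toNat, by omega⟩
      rcases lt_or_ge i L.length with h0 | h0
      · have h1 := D3 i h0
        rcases lt_or_ge (i + 1) L.length with h2 | h2
        · have h3 := D3 (i + 1) h2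
          push_cast at h3
          rw [show (i : ℤ) + 1 + 1 = i + 2 by ring] at h3
          rw [h1, h3]
          exact List.pairwise_iff_getElem.1 hL i (i + 1) h0 h2 (by omega)
        · have h3 := D2 ((i : ℤ) + 1) (by omega)
          rw [show (i : ℤ) + 1 + 1 = i + 2 by ring] at h3
          have h4 := (hmem _ (List.getElem_mem h0)).2
          omega
      · have h1 := D2 (i : ℤ) (by omega)
        have h2 := D2 ((i : ℤ) + 1) (by omega)
        rw [show (i : ℤ) + 1 + 1 = i + 2 by ring] at h2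
        omega

end Pool.Agent.Lib.MPba1bba.LR
end

section
/-! # MP_ba1bba_al, LR: module PRM (helper84) -/
set_option autoImplicit false

open scoped ENNReal

namespace Pool.Agent.Lib.MPba1bba.LR

open Pool.Agent.Lib.MPba1bba Pool.Agent.Lib.MPba1bba.AS Vec

namespace PRMAux

lemma prod_le (x y : Vec) (f g h : Fn)
    (H : ∀ s t, x.co s ≠ 0 → y.co t ≠ 0 → h (s + t) ≤ f s * g t) :
    pr (x * y) h ≤ pr x f * pr y g := by
  rw [pr_mul]
  have e : pr x f * pr y g = ∑' s : Multiset ℤ, ∑' t : Multiset ℤ, x.co s * f s * (y.co t * g t) := by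
    unfold pr
    rw [← ENNReal.tsum_mul_right]
    exact tsum_congr fun s => (ENNReal.tsum_mul_left).symm
  rw [e]
  refine ENNReal.tsum_le_tsum fun s => ENNReal.tsum_le_tsum fun t => ?_
  by_cases hx : x.co s = 0
  · rw [hx]; simp
  by_cases hy : y.co t = 0
  · rw [hy]; simp
  calc x.co s * y.co t * h (s + t) ≤ x.co s * y.co t * (f s * g t) :=
        mul_le_mul' le_rfl (H s t hx hy)
    _ = x.co s * f s * (y.co t * g t) := by ring

end PRMAux

open PRMAux PTXC in
theorem specPRM (hFTW : SpecFTW) (hEVL : SpecEVL) : SpecPRM := by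
  intro p z hp hz
  obtain ⟨hN, hL, hN0, -, -⟩ := hFTW p z hp hz
  have hmul : ∀ x y : Vec, Bd p x → Bd p y → Bd p (x * y) := fun x y hx hy =>
    ((hEVL p 2).2.2.2.2.2.2.2.2.2.1 x y hx hy).1
  have h1 : ∀ x y, Bd p x → Bd p y → pr (x * y) (NF p z) ≤ pr x (NF p z) * pr y (NF p z) :=
    fun x y hx hy => prod_le x y _ _ _ fun s t hs ht => hN s t (hx s hs) (hy t ht)
  have h2 : ∀ x y, pr (x * y) (LF p z) ≤ pr x (NF p z) * pr y (LF p z) :=
    fun x y => prod_le x y _ _ _ fun s t _ _ => by rw [add_comm s t]; exact hL t s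
  refine ⟨h1, h2, ?_, ?_⟩
  · intro x e hx hxe
    have hpow : ∀ n : ℕ, pr (x ^ n) (NF p z) ≤ e ^ n := by
      intro n
      induction n with
      | zero => rw [pow_zero, pow_zero, pr_one, hN0]
      | succ n ih =>
        rw [pow_succ, pow_succ]
        exact (h1 _ _ (Bd_pow hmul hx n) hx).trans (mul_le_mul' ih hxe)
    unfold MM
    rw [pr_mul_geo, pr_mul_geo]
    refine ENNReal.tsum_le_tsum fun n => ?_
    have e1 : (1 + ev z (serY p)) * (ev z (serY p) * x) ^ n =
        x ^ n * ((1 + ev z (serY p)) * ev z (serY p) ^ n) := by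
      rw [mul_pow]; ring
    have e2 : (1 + ev z (serY p)) * (e • ev z (serY p)) ^ n =
        e ^ n • ((1 + ev z (serY p)) * ev z (serY p) ^ n) := by
      rw [smul_pow, mul_smul_comm]
    rw [e1, e2, smul_pr]
    exact (h2 _ _).trans (mul_le_mul' (hpow n) le_rfl)
  · intro x e hx
    unfold MM
    refine pr_mono (mul_mono le_rfl (geo_mono ?_)) fun _ => le_rfl
    have e1 : e • ev z (serY p) = ev z (serY p) * (e • (1 : Vec)) := by
      rw [mul_smul_comm, mul_one]
    rw [e1]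
    exact mul_mono le_rfl hx

end Pool.Agent.Lib.MPba1bba.LR
end

section
/-! # MP_ba1bba_al, LR: module SPL (helper20) -/
open scoped ENNReal

namespace Pool.Agent.Lib.MPba1bba.LR

open Pool.Agent.Lib.MPba1bba Pool.Agent.Lib.MPba1bba.AS

namespace SPLAux

lemma sP (A B : Multiset ℤ) : sumPos (A + B) = sumPos A + sumPos B := by simp [sumPos]

lemma sN (A B : Multiset ℤ) : sumNeg (A + B) = sumNeg A + sumNeg B := by simp [sumNeg]

lemma split {A B s t : Multiset ℤ} (h : A + B = s + t) : ∃ A₁ A₂ B₁ B₂ : Multiset ℤ,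
    A₁ + B₁ = s ∧ A₂ + B₂ = t ∧ A₁ + A₂ = A ∧ B₁ + B₂ = B := by
  refine ⟨A ∩ s, A - s, s - A, B - (s - A), ?_, ?_, ?_, ?_⟩ <;>
  · ext x
    have hx := congrArg (Multiset.count x) h
    simp only [Multiset.count_add] at hx
    simp only [Multiset.count_add, Multiset.count_inter, Multiset.count_sub]
    omega

/-- The two pieces of a decomposition. -/
lemma pieces (hB : SpecBFN) (p : ℕ) {A B s t : Multiset ℤ} (h : A + B = s + t) (k : ℤ) :
    ∃ i j : ℕ, i ≤ Multiset.card s ∧ j ≤ Multiset.card t ∧ i + j = Multiset.card A ∧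
      bfun p s (k - j) + bfun p t j ≤ sumPos A + sumNeg B + p * (k - (A.card : ℤ)).natAbs ∧
      bfun p s i + bfun p t j ≤ sumPos A + sumNeg B := by
  obtain ⟨-, hB2, -⟩ := hB p
  obtain ⟨A₁, A₂, B₁, B₂, h1, h2, h3, h4⟩ := split h
  have hcA : Multiset.card A₁ + Multiset.card A₂ = Multiset.card A := by
    rw [← h3, Multiset.card_add]
  have e1 := hB2 t (Multiset.card A₂ : ℤ) A₂ B₂ h2
  have e2 := hB2 s (k - (Multiset.card A₂ : ℤ)) A₁ B₁ h1
  have e3 := hB2 s (Multiset.card A₁ : ℤ) A₁ B₁ h1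
  have e4 : k - (Multiset.card A₂ : ℤ) - (Multiset.card A₁ : ℤ) = k - (Multiset.card A : ℤ) := by
    rw [← hcA]; push_cast; ring
  rw [e4] at e2
  rw [sub_self, Int.natAbs_zero, mul_zero, add_zero] at e1 e3
  have e5 : sumPos A = sumPos A₁ + sumPos A₂ := by rw [← h3, sP]
  have e6 : sumNeg B = sumNeg B₁ + sumNeg B₂ := by rw [← h4, sN]
  refine ⟨Multiset.card A₁, Multiset.card A₂, ?_, ?_, hcA, ?_, ?_⟩
  · rw [← h1, Multiset.card_add]; omega
  · rw [← h2, Multiset.card_add]; omega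
  · rw [e5, e6]; omega
  · rw [e5, e6]; omega

end SPLAux

open SPLAux

theorem specSPL (hBFN : SpecBFN) (hSRT : SpecSRT) : SpecSPL := by
  intro p s t
  refine ⟨fun k => ?_, fun hs ht k hk => ?_⟩
  · obtain ⟨A, B, hAB, e⟩ := (hBFN p).1 (s + t) k
    obtain ⟨i, j, -, hj, -, h1, -⟩ := pieces hBFN p hAB k
    exact ⟨j, hj, by rw [e]; exact h1⟩
  · set L : List ℤ := (s + t).sort (· ≤ ·) with hL
    have hLs : (L : Multiset ℤ) = s + t := Multiset.sort_eq _ _
    have hlen : L.length = Multiset.card s + Multiset.card t := by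
      rw [← Multiset.card_add, ← hLs, Multiset.coe_card]
    have hbd : ∀ x ∈ L, -(p : ℤ) < x ∧ x < p := by
      intro x hx
      have hx' : x ∈ s + t := by rw [← hLs]; exact Multiset.mem_coe.2 hx
      rcases Multiset.mem_add.1 hx' with h | h
      · exact hs x h
      · exact ht x h
    have hb := hSRT p L (Multiset.pairwise_sort _ _) hbd (k : ℤ)
    rw [hLs, Int.toNat_natCast] at hb
    have hz : (-(k : ℤ)).toNat + ((k : ℤ) - (L.length : ℤ)).toNat = 0 := by omega
    rw [hz, mul_zero, add_zero] at hb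
    have hAB : ((L.take k : List ℤ) : Multiset ℤ) + ((L.drop k : List ℤ) : Multiset ℤ) = s + t := by
      rw [Multiset.coe_add, List.take_append_drop, hLs]
    obtain ⟨i, j, hi, hj, hij, -, h2⟩ := pieces hBFN p hAB (k : ℤ)
    rw [Multiset.coe_card, List.length_take] at hij
    refine ⟨i, j, hi, hj, by omega, ?_⟩
    rw [hb]
    exact h2

end Pool.Agent.Lib.MPba1bba.LR
end

section
/-!
# MP_ba1bba_al, LR : SUP, the strict inequality at a slightly larger point
-/
open scoped ENNReal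
open Filter Topology

namespace Pool.Agent.Lib.MPba1bba.LR

open Pool.Agent.Lib.MPba1bba Pool.Agent.Lib.MPba1bba.AS Vec

namespace SUPAux

theorem tendsto_ur_e {p t : ℕ} {x e : ℝ} (h : e * cr p t x < 1) :
    Tendsto (fun e => ur p t x e) (𝓝 e) (𝓝 (ur p t x e)) := by
  unfold ur
  refine tendsto_const_nhds.div (tendsto_const_nhds.sub (tendsto_id.mul_const _)) ?_
  linarith

theorem tendsto_ur_z {p t : ℕ} (hc : Continuous (cr p t)) {x e : ℝ} (h : e * cr p t x < 1) :
    Tendsto (fun z => ur p t z e) (𝓝 x) (𝓝 (ur p t x e)) := by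
  unfold ur
  refine tendsto_const_nhds.div (tendsto_const_nhds.sub ((hc.tendsto x).const_mul e)) ?_
  linarith

theorem tendsto_Mr_e {p : ℕ} {x e : ℝ} (h : ∀ t ≤ p - 1, e * cr p t x < 1) :
    Tendsto (fun e => Mr p x e) (𝓝 e) (𝓝 (Mr p x e)) := by
  unfold Mr
  refine ((tendsto_ur_e (h 0 (Nat.zero_le _))).const_mul _).add
    ((tendsto_id.const_add 1).mul (tendsto_finsetSum _ fun t ht => ?_))
  have ht' := Finset.mem_range.1 ht
  exact ((tendsto_ur_e (h t (by omega))).const_mul _).mul (tendsto_ur_e (h (t + 1) (by omega)))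

theorem tendsto_dM_e {p : ℕ} {x e : ℝ} (h : ∀ t ≤ p - 1, e * cr p t x < 1) :
    Tendsto (fun e => dM p x e) (𝓝 e) (𝓝 (dM p x e)) := by
  unfold dM
  refine ((((tendsto_ur_e (h 0 (Nat.zero_le _))).pow 2).const_mul _).add
    (tendsto_finsetSum _ fun t ht => ?_)).add
    ((tendsto_id.const_add 1).mul (tendsto_finsetSum _ fun t ht => ?_))
  · have ht' := Finset.mem_range.1 ht
    exact ((tendsto_ur_e (h t (by omega))).const_mul _).mul (tendsto_ur_e (h (t + 1) (by omega)))
  · have ht' := Finset.mem_range.1 ht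
    have h1 := tendsto_ur_e (h t (by omega))
    have h2 := tendsto_ur_e (h (t + 1) (by omega))
    exact ((h1.const_mul _).mul h2).mul ((h1.const_mul _).add (h2.const_mul _))

theorem tendsto_dP_e {p : ℕ} {x e : ℝ} (h : ∀ t ≤ p - 1, e * cr p t x < 1) :
    Tendsto (fun e => dP p x e) (𝓝 e) (𝓝 (dP p x e)) := by
  unfold dP
  exact ((tendsto_Mr_e h).add ((tendsto_id.const_add 1).mul (tendsto_dM_e h))).const_mul _

theorem tendsto_Mr_z {p : ℕ} (hc : ∀ t, Continuous (cr p t)) {x e : ℝ}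
    (hx : x ^ p < 1) (h : ∀ t ≤ p - 1, e * cr p t x < 1) :
    Tendsto (fun z => Mr p z e) (𝓝 x) (𝓝 (Mr p x e)) := by
  unfold Mr
  have hpow : ∀ n : ℕ, Tendsto (fun z : ℝ => z ^ n) (𝓝 x) (𝓝 (x ^ n)) := fun n =>
    (continuous_pow n).tendsto x
  refine (((((hpow p).const_add 1).div ((hpow p).const_sub 1) ?_).mul
    (((hc 0).tendsto x).const_add 1)).mul (tendsto_ur_z (hc 0) (h 0 (Nat.zero_le _)))).add
    (Tendsto.const_mul _ (tendsto_finsetSum _ fun t ht => ?_))
  · linarith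
  · have ht' := Finset.mem_range.1 ht
    exact ((hpow _).mul (tendsto_ur_z (hc t) (h t (by omega)))).mul
      (tendsto_ur_z (hc (t + 1)) (h (t + 1) (by omega)))

end SUPAux

open SUPAux

theorem specSUP (hC : SpecCRP) (hT : SpecTAN) : SpecSUP := by
  intro p x hp hx0 hx hM hP
  obtain ⟨-, -, -, hcont, hlt, -, -, -⟩ := hC p hp
  have hx1 : x < 1 := by linarith
  have h0 : ∀ t ≤ p - 1, x * cr p t x < 1 := fun t _ => hlt t x hx0.le hx.le
  have hev1 : ∀ᶠ e in 𝓝 x, dP p x e < 1 := (tendsto_dP_e h0).eventually_lt_const hP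
  have hev2 : ∀ᶠ e in 𝓝 x, ∀ t ∈ Finset.range p, e * cr p t x < 1 := by
    rw [Filter.eventually_all_finset]
    intro t ht
    have ht' := Finset.mem_range.1 ht
    exact (tendsto_id.mul_const (cr p t x)).eventually_lt_const (h0 t (by omega))
  have hev3 : ∀ᶠ e in 𝓝[>] x, e ∈ Set.Ioo x 1 := Ioo_mem_nhdsGT hx1
  obtain ⟨e', ⟨he1, he2⟩, he3, he4⟩ :=
    (((hev1.and hev2).filter_mono nhdsWithin_le_nhds).and hev3).exists
  have he2' : ∀ t ≤ p - 1, e' * cr p t x < 1 := fun t ht =>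
    he2 t (Finset.mem_range.2 (by omega))
  obtain ⟨-, -, -, hdP⟩ := hT p x x e' hp hx0 hx1 hx0.le he3.le he2'
  have h1 : dP p x e' * (e' - x) < 1 * (e' - x) :=
    mul_lt_mul_of_pos_right he1 (by linarith)
  have h2 : x ^ 2 * (1 + e') * Mr p x e' < e' + x ^ 2 := by
    have h3 : x ^ 2 * ((1 + x) * Mr p x x) = x * (1 + x) := by
      linear_combination x * (1 + x) * hM
    nlinarith [hdP, h1, h3]
  have hxp : x ^ p < 1 := pow_lt_one₀ hx0.le hx1 (by omega)
  have hz1 : ∀ᶠ z in 𝓝 x, z ^ 2 * (1 + e') * Mr p z e' - (e' + z ^ 2) < 0 := by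
    have hpow : Tendsto (fun z : ℝ => z ^ 2) (𝓝 x) (𝓝 (x ^ 2)) := (continuous_pow 2).tendsto x
    refine ((((hpow.mul_const (1 + e')).mul (tendsto_Mr_z hcont hxp he2')).sub
      (hpow.const_add e'))).eventually_lt_const ?_
    linarith
  have hz2 : ∀ᶠ z in 𝓝 x, ∀ t ∈ Finset.range p, e' * cr p t z < 1 := by
    rw [Filter.eventually_all_finset]
    intro t ht
    have ht' := Finset.mem_range.1 ht
    exact (((hcont t).tendsto x).const_mul e').eventually_lt_const (he2' t (by omega))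
  have hz3 : ∀ᶠ z in 𝓝[>] x, z ∈ Set.Ioo x (1 / 2) := Ioo_mem_nhdsGT hx
  obtain ⟨z', ⟨hz1', hz2'⟩, hz3', hz4'⟩ :=
    (((hz1.and hz2).filter_mono nhdsWithin_le_nhds).and hz3).exists
  exact ⟨z', e', hz3', hz4', he3, fun t ht => hz2' t (Finset.mem_range.2 (by omega)),
    by linarith⟩

end Pool.Agent.Lib.MPba1bba.LR
end
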