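import Pool.Agent.Lib.MP_ba1bba_al.LR.Spec
import Pool.Agent.Lib.MP_ba1bba_al.AS.PTV

section
/-!
# MP_ba1bba_al, LR: SWF, sums over words
-/
open scoped ENNReal

namespace Pool.Agent.Lib.MPba1bba.LR

open Pool.Agent.Lib.MPba1bba Pool.Agent.Lib.MPba1bba.AS Vec

namespace SWFM

/-- the monomial -/
noncomputable def mn (k : ℕ) (s : Multiset ℤ) : Ser :=
  PowerSeries.monomial k (AddMonoidAlgebra.single s (1 : ℤ))

open Classical in
theorem mn_coeff (k : ℕ) (s : Multiset ℤ) (n : ℕ) (t : Multiset ℤ) :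
    (PowerSeries.coeff n (mn k s)).coeff t = if n = k ∧ s = t then 1 else 0 := by
  unfold mn
  rw [PowerSeries.coeff_monomial]
  by_cases h : n = k
  · rw [if_pos h]
    by_cases h2 : s = t
    · subst h2
      simp [h]
    · have h3 : ¬ (n = k ∧ s = t) := fun h4 => h2 h4.2
      rw [if_neg h3]
      simp [h2]
  · rw [if_neg h, if_neg (fun h4 => h h4.1)]
    rfl

theorem nn_mn (k : ℕ) (s : Multiset ℤ) : Nn (mn k s) := by
  classical
  intro n t
  rw [mn_coeff]
  split_ifs <;> norm_num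

theorem pr_ev_mn (z : ℝ≥0∞) (k : ℕ) (s : Multiset ℤ) (f : Fn) :
    pr (ev z (mn k s)) f = z ^ k * f s := by
  classical
  unfold pr
  rw [tsum_eq_single s]
  · congr 1
    unfold ev
    simp only
    rw [tsum_eq_single k]
    · rw [mn_coeff, if_pos ⟨rfl, rfl⟩]
      simp
    · intro n hn
      rw [mn_coeff, if_neg (fun h => hn h.1)]
      simp
  · intro t ht
    have : (ev z (mn k s)).co t = 0 := by
      unfold ev
      simp only
      rw [ENNReal.tsum_eq_zero]
      intro n
      rw [mn_coeff, if_neg (fun h => ht h.2.symm)]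
      simp
    rw [this, zero_mul]

theorem ev_sum (hE : SpecEVA) (z : ℝ≥0∞) (S : Finset ℕ) (g : ℕ → Ser) (hg : ∀ i, Nn (g i)) :
    Nn (∑ i ∈ S, g i) ∧ ∀ f : Fn, pr (ev z (∑ i ∈ S, g i)) f = ∑ i ∈ S, pr (ev z (g i)) f := by
  classical
  obtain ⟨⟨-, h0, h1⟩, h2, h3, -⟩ := hE
  induction S using Finset.induction_on with
  | empty =>
    refine ⟨by simpa using h0, fun f => ?_⟩
    rw [Finset.sum_empty, Finset.sum_empty, (h1 z 0).2.2, pr_zero]
  | insert a S ha ih =>
    rw [Finset.sum_insert ha]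
    refine ⟨(h2 _ _ (hg a) ih.1).1, fun f => ?_⟩
    rw [(h3 z _ _ (hg a) ih.1).1, pr_add, ih.2 f, Finset.sum_insert ha]

theorem pr_serY (p : ℕ) (z : ℝ≥0∞) (f : Fn) :
    pr (ev z (serY p)) f =
      ∑ i ∈ Finset.Ioo 0 p, z ^ min i (p - i) * f ({2 * (i : ℤ) - p} : Multiset ℤ) := by
  have h := (ev_sum specEVA z (Finset.Ioo 0 p)
    (fun i => mn (min i (p - i)) ({2 * (i : ℤ) - p} : Multiset ℤ)) (fun i => nn_mn _ _)).2 f
  have h2 : serY p = ∑ i ∈ Finset.Ioo 0 p, mn (min i (p - i)) ({2 * (i : ℤ) - p} : Multiset ℤ) := rfl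
  rw [h2, h]
  exact Finset.sum_congr rfl fun i _ => pr_ev_mn _ _ _ _

theorem SW_succ (p n : ℕ) (F : List ℕ → ℝ≥0∞) :
    SW p (n + 1) F = ∑ i ∈ Finset.Ioo 0 p, SW p n (fun w => F (i :: w)) := rfl

theorem wmin_cons (p i : ℕ) (w : List ℕ) : wmin p (i :: w) = min i (p - i) + wmin p w := by
  unfold wmin
  simp

theorem wst_cons (p i : ℕ) (w : List ℕ) :
    wst p (i :: w) = ({2 * (i : ℤ) - p} : Multiset ℤ) + wst p w := by
  unfold wst
  rw [List.map_cons, ← Multiset.cons_coe, Multiset.singleton_add]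

theorem sw_congr (p n : ℕ) (F F' : List ℕ → ℝ≥0∞)
    (h : ∀ w, w.length = n → (∀ i ∈ w, 0 < i ∧ i < p) → F w = F' w) : SW p n F = SW p n F' := by
  induction n generalizing F F' with
  | zero => exact h [] rfl (fun i hi => absurd hi (List.not_mem_nil))
  | succ n ih =>
    rw [SW_succ, SW_succ]
    refine Finset.sum_congr rfl fun i hi => ih _ _ fun w hw hw2 => h _ (by simp [hw]) ?_
    intro j hj
    rcases List.mem_cons.1 hj with rfl | hj
    · exact Finset.mem_Ioo.1 hi
    · exact hw2 j hj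

theorem sw_add (p n : ℕ) (F F' : List ℕ → ℝ≥0∞) :
    SW p n (fun w => F w + F' w) = SW p n F + SW p n F' := by
  induction n generalizing F F' with
  | zero => rfl
  | succ n ih =>
    rw [SW_succ, SW_succ, SW_succ, ← Finset.sum_add_distrib]
    exact Finset.sum_congr rfl fun i _ => ih _ _

theorem sw_mul (p n : ℕ) (F : List ℕ → ℝ≥0∞) (c : ℝ≥0∞) :
    SW p n (fun w => F w * c) = SW p n F * c := by
  induction n generalizing F with
  | zero => rfl
  | succ n ih =>
    rw [SW_succ, SW_succ, Finset.sum_mul]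
    exact Finset.sum_congr rfl fun i _ => ih _

theorem sw_mul_left (p n : ℕ) (F : List ℕ → ℝ≥0∞) (c : ℝ≥0∞) :
    SW p n (fun w => c * F w) = c * SW p n F := by
  rw [mul_comm, ← sw_mul]
  congr 1
  funext w
  rw [mul_comm]

theorem sw_prod (p n : ℕ) (g : ℕ → ℝ≥0∞) :
    SW p n (fun w => (w.map g).prod) = (∑ i ∈ Finset.Ioo 0 p, g i) ^ n := by
  induction n with
  | zero => simp [SW]
  | succ n ih =>
    rw [SW_succ, pow_succ', Finset.sum_mul]
    refine Finset.sum_congr rfl fun i _ => ?_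
    rw [← ih, ← sw_mul_left]
    congr 1

theorem sw_pow (p : ℕ) (z : ℝ≥0∞) (n : ℕ) (f : Fn) :
    pr (ev z (serY p) ^ n) f = SW p n (fun w => z ^ wmin p w * f (wst p w)) := by
  induction n generalizing f with
  | zero =>
    rw [pow_zero, pr_one]
    simp [SW, wmin, wst]
  | succ n ih =>
    rw [pow_succ', pr_mul', pr_serY, SW_succ]
    refine Finset.sum_congr rfl fun i _ => ?_
    rw [ih, ← sw_mul_left]
    congr 1
    funext w
    rw [wmin_cons, wst_cons, pow_add]
    ring

theorem ce_pred {p i : ℕ} (hi : 0 < i) (z : ℝ≥0∞) :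
    (∑ j ∈ Finset.Ioo 0 p, if j < i then z ^ j else z ^ (p - j)) = ce p (i - 1) z := by
  unfold ce
  refine Finset.sum_congr rfl fun j _ => ?_
  by_cases h : j < i
  · rw [if_pos h, if_pos (by omega)]
  · rw [if_neg h, if_neg (by omega)]

theorem sum_step (a b : ℝ≥0∞) (n : ℕ) :
    ∑ l ∈ Finset.range (n + 1), a ^ l * b ^ (n + 1 - 1 - l) =
      b ^ n + a * ∑ l ∈ Finset.range n, a ^ l * b ^ (n - 1 - l) := by
  rw [Finset.sum_range_succ', Finset.mul_sum, add_comm]
  congr 1
  · simp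
  · refine Finset.sum_congr rfl fun l hl => ?_
    rw [Finset.mem_range] at hl
    have : n + 1 - 1 - (l + 1) = n - 1 - l := by omega
    rw [this, pow_succ]
    ring

theorem sw_TT (p : ℕ) (z : ℝ≥0∞) (n : ℕ) (f : ℕ → ℝ≥0∞) :
    SW p n (fun w => TT p z w f) =
      ∑ t ∈ Finset.Ioo 0 p, f t * z ^ (p - t) *
        ∑ l ∈ Finset.range n, ce p t z ^ l * ce p (t - 1) z ^ (n - 1 - l) := by
  induction n generalizing f with
  | zero =>
    simp [SW, TT]
  | succ n ih =>
    rw [SW_succ]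
    have h1 : ∀ i ∈ Finset.Ioo 0 p, SW p n (fun w => TT p z (i :: w) f) =
        f i * z ^ (p - i) * ce p (i - 1) z ^ n +
          ∑ t ∈ Finset.Ioo 0 p, (if i ≤ t then z ^ i else z ^ (p - i)) * (f t * z ^ (p - t) *
            ∑ l ∈ Finset.range n, ce p t z ^ l * ce p (t - 1) z ^ (n - 1 - l)) := by
      intro i hi
      have h2 : (fun w => TT p z (i :: w) f) = fun w => (f i * z ^ (p - i) *
          (w.map fun j => if j < i then z ^ j else z ^ (p - j)).prod) +
          TT p z w (fun t => f t * (if i ≤ t then z ^ i else z ^ (p - i))) := by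
        funext w
        rfl
      rw [h2, sw_add, sw_mul_left, sw_prod, ce_pred (Finset.mem_Ioo.1 hi).1, ih]
      congr 1
      refine Finset.sum_congr rfl fun t _ => ?_
      ring
    rw [Finset.sum_congr rfl h1, Finset.sum_add_distrib, Finset.sum_comm,
      ← Finset.sum_add_distrib]
    refine Finset.sum_congr rfl fun t _ => ?_
    rw [← Finset.sum_mul]
    have h3 : (∑ i ∈ Finset.Ioo 0 p, if i ≤ t then z ^ i else z ^ (p - i)) = ce p t z := rfl
    rw [h3, sum_step]
    ring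

end SWFM

open SWFM in
theorem specSWF : SpecSWF := by
  intro p z n
  exact ⟨fun f => sw_pow p z n f, fun F F' h => sw_congr p n F F' h,
    fun F F' c => ⟨sw_add p n F F', sw_mul p n F c⟩, fun g => sw_prod p n g,
    fun f => sw_TT p z n f⟩

end Pool.Agent.Lib.MPba1bba.LR
end

section
/-!
# MP_ba1bba_al, LR: tangent inequalities
-/
namespace Pool.Agent.Lib.MPba1bba.LR

open Pool.Agent.Lib.MPba1bba

theorem specTAN (hCRP : SpecCRP) : SpecTAN := by
  intro p x e₁ e₂ hp hx0 hx1 he1 he12 hcr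
  obtain ⟨-, -, hc3, -⟩ := hCRP p hp
  have he2 : 0 ≤ e₂ := he1.trans he12
  have hc : ∀ t, 0 ≤ cr p t x := fun t => (hc3 t x x hx0.le le_rfl).1
  have hd2 : ∀ t ≤ p - 1, 0 < 1 - e₂ * cr p t x := fun t ht => by linarith [hcr t ht]
  have hd1 : ∀ t ≤ p - 1, 0 < 1 - e₁ * cr p t x := fun t ht => by
    have := mul_le_mul_of_nonneg_right he12 (hc t)
    linarith [hcr t ht]
  have hu2 : ∀ t ≤ p - 1, 0 < ur p t x e₂ := fun t ht => one_div_pos.2 (hd2 t ht)
  have hu1 : ∀ t ≤ p - 1, 0 < ur p t x e₁ := fun t ht => one_div_pos.2 (hd1 t ht)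
  have hle : ∀ t ≤ p - 1, ur p t x e₁ ≤ ur p t x e₂ := fun t ht => by
    unfold ur
    apply one_div_le_one_div_of_le (hd2 t ht)
    have := mul_le_mul_of_nonneg_right he12 (hc t)
    linarith
  have hdiff : ∀ t ≤ p - 1, ur p t x e₂ - ur p t x e₁ ≤ (e₂ - e₁) * (cr p t x * ur p t x e₂ ^ 2) := fun t ht => by
    have h1 : ur p t x e₂ - ur p t x e₁ = (e₂ - e₁) * cr p t x * ur p t x e₂ * ur p t x e₁ := by
      have k1 : ur p t x e₁ * (1 - e₁ * cr p t x) = 1 := one_div_mul_cancel (hd1 t ht).ne'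
      have k2 : ur p t x e₂ * (1 - e₂ * cr p t x) = 1 := one_div_mul_cancel (hd2 t ht).ne'
      linear_combination (-ur p t x e₂) * k1 + (ur p t x e₁) * k2
    rw [h1]
    have h2 : 0 ≤ (e₂ - e₁) * cr p t x * ur p t x e₂ :=
      mul_nonneg (mul_nonneg (sub_nonneg.2 he12) (hc t)) (hu2 t ht).le
    calc (e₂ - e₁) * cr p t x * ur p t x e₂ * ur p t x e₁
        ≤ (e₂ - e₁) * cr p t x * ur p t x e₂ * ur p t x e₂ := mul_le_mul_of_nonneg_left (hle t ht) h2
      _ = _ := by ring
  have ha1 : x ^ p < 1 := pow_lt_one₀ hx0.le hx1 (by omega)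
  have hθ : 0 ≤ (1 + x ^ p) / (1 - x ^ p) := by
    apply div_nonneg
    · positivity
    · linarith
  have h0 : (0 : ℕ) ≤ p - 1 := Nat.zero_le _
  set θ := (1 + x ^ p) / (1 - x ^ p) with hθd
  set S : ℝ → ℝ := fun e => ∑ t ∈ Finset.range (p - 1), x ^ (p - 1 - t) * ur p t x e * ur p (t + 1) x e with hS
  set S' := ∑ t ∈ Finset.range (p - 1), x ^ (p - 1 - t) * ur p t x e₂ * ur p (t + 1) x e₂ *
      (cr p t x * ur p t x e₂ + cr p (t + 1) x * ur p (t + 1) x e₂) with hS'
  have hM : ∀ e, Mr p x e = θ * (1 + cr p 0 x) * ur p 0 x e + (1 + e) * S e := fun e => rfl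
  have hdM : dM p x e₂ = θ * (1 + cr p 0 x) * cr p 0 x * ur p 0 x e₂ ^ 2 + S e₂ + (1 + e₂) * S' := rfl
  have hS1 : 0 ≤ S e₁ := Finset.sum_nonneg fun t ht => by
    have ht := Finset.mem_range.1 ht
    exact mul_nonneg (mul_nonneg (pow_nonneg hx0.le _) (hu1 t (by omega)).le) (hu1 (t + 1) (by omega)).le
  have hSle : S e₁ ≤ S e₂ := Finset.sum_le_sum fun t ht => by
    have ht := Finset.mem_range.1 ht
    exact mul_le_mul (mul_le_mul_of_nonneg_left (hle t (by omega)) (pow_nonneg hx0.le _)) (hle (t + 1) (by omega))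
      (hu1 (t + 1) (by omega)).le (mul_nonneg (pow_nonneg hx0.le _) (hu2 t (by omega)).le)
  have hS'0 : 0 ≤ S' := Finset.sum_nonneg fun t ht => by
    have ht := Finset.mem_range.1 ht
    have a1 := (hu2 t (by omega)).le
    have a2 := (hu2 (t + 1) (by omega)).le
    exact mul_nonneg (mul_nonneg (mul_nonneg (pow_nonneg hx0.le _) a1) a2)
      (add_nonneg (mul_nonneg (hc t) a1) (mul_nonneg (hc (t + 1)) a2))
  have hSd : S e₂ - S e₁ ≤ (e₂ - e₁) * S' := by
    rw [hS', Finset.mul_sum]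
    simp only [hS]
    rw [← Finset.sum_sub_distrib]
    refine Finset.sum_le_sum fun t ht => ?_
    have ht := Finset.mem_range.1 ht
    have a1 := hdiff t (by omega)
    have a2 := hdiff (t + 1) (by omega)
    have b1 := (hu2 t (by omega)).le
    have b2 := (hu2 (t + 1) (by omega)).le
    have c1 := hle t (by omega)
    have c0 := (hu1 t (by omega)).le
    have h1 : ur p t x e₂ * ur p (t + 1) x e₂ - ur p t x e₁ * ur p (t + 1) x e₁ ≤
        (e₂ - e₁) * (ur p t x e₂ * ur p (t + 1) x e₂ *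
          (cr p t x * ur p t x e₂ + cr p (t + 1) x * ur p (t + 1) x e₂)) := by
      have e1 : ur p t x e₂ * ur p (t + 1) x e₂ - ur p t x e₁ * ur p (t + 1) x e₁ =
          (ur p t x e₂ - ur p t x e₁) * ur p (t + 1) x e₂ +
            ur p t x e₁ * (ur p (t + 1) x e₂ - ur p (t + 1) x e₁) := by ring
      have d1 := mul_le_mul_of_nonneg_right a1 b2
      have d2 : ur p t x e₁ * (ur p (t + 1) x e₂ - ur p (t + 1) x e₁) ≤
          ur p t x e₂ * ((e₂ - e₁) * (cr p (t + 1) x * ur p (t + 1) x e₂ ^ 2)) :=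
        mul_le_mul c1 a2 (sub_nonneg.2 (hle (t + 1) (by omega))) b1
      rw [e1]
      calc _ ≤ _ := add_le_add d1 d2
        _ = _ := by ring
    have h2 := mul_le_mul_of_nonneg_left h1 (pow_nonneg hx0.le (p - 1 - t))
    calc _ = x ^ (p - 1 - t) * (ur p t x e₂ * ur p (t + 1) x e₂ - ur p t x e₁ * ur p (t + 1) x e₁) := by ring
      _ ≤ _ := h2
      _ = _ := by ring
  have hk : 0 ≤ θ * (1 + cr p 0 x) := mul_nonneg hθ (by linarith [hc 0])
  have hdd := hdiff 0 h0
  have hMd : Mr p x e₂ - Mr p x e₁ ≤ dM p x e₂ * (e₂ - e₁) := by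
    rw [hM, hM, hdM]
    have d1 := mul_le_mul_of_nonneg_left hdd hk
    have d2 : (1 + e₂) * S e₂ - (1 + e₁) * S e₁ ≤ (e₂ - e₁) * S e₂ + (1 + e₂) * ((e₂ - e₁) * S') := by
      have e1 : (1 + e₂) * S e₂ - (1 + e₁) * S e₁ = (e₂ - e₁) * S e₂ + (1 + e₁) * (S e₂ - S e₁) := by ring
      have e2 : (1 + e₁) * (S e₂ - S e₁) ≤ (1 + e₂) * (S e₂ - S e₁) :=
        mul_le_mul_of_nonneg_right (by linarith) (sub_nonneg.2 hSle)
      have e3 : (1 + e₂) * (S e₂ - S e₁) ≤ (1 + e₂) * ((e₂ - e₁) * S') :=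
        mul_le_mul_of_nonneg_left hSd (by linarith)
      linarith
    nlinarith
  have hMle : Mr p x e₁ ≤ Mr p x e₂ := by
    rw [hM, hM]
    have d1 := mul_le_mul_of_nonneg_left (hle 0 h0) hk
    have d2 : (1 + e₁) * S e₁ ≤ (1 + e₂) * S e₂ :=
      mul_le_mul (by linarith) hSle hS1 (by linarith)
    linarith
  have hdM0 : 0 ≤ dM p x e₂ := by
    rw [hdM]
    have := mul_nonneg (mul_nonneg hk (hc 0)) (pow_nonneg (hu2 0 h0).le 2)
    have h2 := hS1.trans hSle
    have h3 := mul_nonneg (show (0 : ℝ) ≤ 1 + e₂ by linarith) hS'0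
    linarith
  refine ⟨hMle, hMd, hdM0, ?_⟩
  unfold dP
  have h4 : (1 + e₂) * Mr p x e₂ - (1 + e₁) * Mr p x e₁ ≤ (Mr p x e₂ + (1 + e₂) * dM p x e₂) * (e₂ - e₁) := by
    have e1 : (1 + e₂) * Mr p x e₂ - (1 + e₁) * Mr p x e₁ =
        (e₂ - e₁) * Mr p x e₂ + (1 + e₁) * (Mr p x e₂ - Mr p x e₁) := by ring
    have e2 : (1 + e₁) * (Mr p x e₂ - Mr p x e₁) ≤ (1 + e₂) * (Mr p x e₂ - Mr p x e₁) :=
      mul_le_mul_of_nonneg_right (by linarith) (sub_nonneg.2 hMle)
    have e3 : (1 + e₂) * (Mr p x e₂ - Mr p x e₁) ≤ (1 + e₂) * (dM p x e₂ * (e₂ - e₁)) :=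
      mul_le_mul_of_nonneg_left hMd (by linarith)
    rw [e1]
    calc _ ≤ (e₂ - e₁) * Mr p x e₂ + (1 + e₂) * (dM p x e₂ * (e₂ - e₁)) := by linarith
      _ = _ := by ring
  have h5 := mul_le_mul_of_nonneg_left h4 (sq_nonneg x)
  calc _ ≤ _ := h5
    _ = _ := by ring

end Pool.Agent.Lib.MPba1bba.LR
end

section
/-!
# MP_ba1bba_al, limit of the growth rates: module TPM (`TT` is invariant under permutations)
-/
open scoped ENNReal

namespace Pool.Agent.Lib.MPba1bba.LR

open Pool.Agent.Lib.MPba1bba Pool.Agent.Lib.MPba1bba.AS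

/-- **TPM**. `TT` is invariant under permutations of the word. -/
theorem specTPM : SpecTPM := by
  intro p z w w' h
  induction h with
  | nil => intro f; rfl
  | cons x h ih =>
    intro f
    simp only [TT]
    rw [ih, (h.map _).prod_eq]
  | swap a b l =>
    intro f
    simp only [TT, List.map_cons, List.prod_cons]
    have hf : (fun t => f t * (if b ≤ t then z ^ b else z ^ (p - b)) *
        (if a ≤ t then z ^ a else z ^ (p - a))) =
        (fun t => f t * (if a ≤ t then z ^ a else z ^ (p - a)) *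
        (if b ≤ t then z ^ b else z ^ (p - b))) := by
      funext t; ring
    rw [hf]
    rcases lt_trichotomy a b with hab | hab | hab
    · rw [if_pos hab, if_neg (not_lt.2 hab.le), if_neg (not_le.2 hab), if_pos hab.le]
      ring
    · subst hab; rfl
    · rw [if_neg (not_lt.2 hab.le), if_pos hab, if_pos hab.le, if_neg (not_le.2 hab)]
      ring
  | trans _ _ ih1 ih2 => intro f; rw [ih1, ih2]

end Pool.Agent.Lib.MPba1bba.LR
end

section
/-!
# MP_ba1bba_al, LR : TSO, the function `TT` of a sorted word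
-/
open scoped ENNReal

namespace Pool.Agent.Lib.MPba1bba.LR

open Pool.Agent.Lib.MPba1bba Pool.Agent.Lib.MPba1bba.AS Vec

theorem specTSO : SpecTSO := by
  intro p z w
  induction w with
  | nil =>
    intro _ f
    simp [TT]
  | cons i w ih =>
    intro hw f
    obtain ⟨hi, hw'⟩ := List.pairwise_cons.1 hw
    have h1 : (w.map fun j => if j < i then z ^ j else z ^ (p - j)) =
        w.map fun j => z ^ (p - j) := by
      refine List.map_congr_left fun j hj => ?_
      rw [if_neg (not_lt.2 (hi j hj))]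
    rw [TT, ih hw', h1, List.length_cons, Finset.sum_range_succ', add_comm]
    congr 1
    · refine Finset.sum_congr rfl fun k hk => ?_
      have hk' : k < w.length := Finset.mem_range.1 hk
      have h2 : i ≤ w.getD k 0 := by
        rw [List.getD_eq_getElem _ _ hk']
        exact hi _ (List.getElem_mem hk')
      rw [if_pos h2, List.getD_cons_succ, List.take_succ_cons, List.drop_succ_cons, List.map_cons,
        List.prod_cons]
      ring
    · rw [List.getD_cons_zero, List.take_zero, List.drop_zero, List.map_nil, List.prod_nil,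
        List.map_cons, List.prod_cons]
      ring

end Pool.Agent.Lib.MPba1bba.LR
end

section
/-! # MP_ba1bba_al, LR: module UPE (helper84) -/
set_option autoImplicit false

open scoped ENNReal

namespace Pool.Agent.Lib.MPba1bba.LR

open Pool.Agent.Lib.MPba1bba Pool.Agent.Lib.MPba1bba.AS Vec

open PTXC in
theorem specUPE (hEVA : SpecEVA) (hEVL : SpecEVL) (hPSR : SpecPSR) (hEQT : SpecEQT)
    (hFON : SpecFON) (hFTW : SpecFTW) (hPRM : SpecPRM) : SpecUPE := by
  intro p m Q E H V U hD z e hz he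
  have hp := hD.hp
  have hm := hD.hm
  obtain ⟨-, -, hN0, -, -⟩ := hFTW p z hp hz.le
  obtain ⟨hP1, hP2, -, -, -⟩ := hPSR p m Q E H V U hD
  obtain ⟨hT1, -, hT3, -, -, -, -⟩ := hEQT p m Q E H V U hD z
  obtain ⟨hV1, hV2, hV3, hV4, hV5, hV6, hV7, hV8, hV9, hV10, hV11⟩ := hEVL p m
  obtain ⟨-, -, -, -, hA5, -⟩ := hEVA
  obtain ⟨hM1, hM2, hM3, -⟩ := hPRM p z hp hz.le
  have hF := (hFON p m z hp hm).1
  have hmul : ∀ x y : Vec, Bd p x → Bd p y → Bd p (x * y) := fun x y hx hy => (hV10 x y hx hy).1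
  have hadd : ∀ x y : Vec, Bd p x → Bd p y → Bd p (x + y) := fun x y hx hy => (hV10 x y hx hy).2
  have bY : Bd p (ev z (serY p)) := (hV11 z (serY p) hP2.1).1
  have bx : ∀ N, Bd p (evt z N E) := fun N => (hV11 z E hP2.2.2.1).2 N
  have hz2 : z ^ 2 ≠ ∞ := ENNReal.pow_ne_top hz.ne_top
  have hstep : ∀ N, 2 ≤ N → pr (evt z N E) (NF p z) ≤ e → pr (evt z (N + 1) E) (NF p z) ≤ e := by
    intro N hN hx
    set X := (1 + evt z N E) * ((1 + ev z (serY p)) * geo (ev z (serY p) * evt z N E)) with hX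
    have bX : Bd p X := by
      refine hmul _ _ (hadd _ _ (Bd_one p) (bx N)) (hmul _ _ (hadd _ _ (Bd_one p) bY) ?_)
      exact Bd_geo hmul (hmul _ _ bY (bx N))
    have h1 := pr_mono (hT3 N hN) (f := NF p z) (g := NF p z) fun _ => le_rfl
    rw [pr_add, smul_pr, pr_one, hN0, mul_one, smul_pr, hV5] at h1
    have h2 : pr X (Ld p m z (NF p z)) ≤ pr X (LF p z) := pr_mono_bd bX hF
    have h3 : pr X (LF p z) ≤ (1 + e) * MM p z e := by
      refine (hM2 _ _).trans (mul_le_mul' ?_ (hM3 _ e (bx N) hx))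
      rw [pr_add, pr_one, hN0]
      exact add_le_add le_rfl hx
    have h4 : pr (evt z (N + 1) E) (NF p z) + z ^ 2 ≤ e + z ^ 2 := by
      refine h1.trans (le_trans (mul_le_mul' le_rfl (h2.trans h3)) ?_)
      rw [← mul_assoc]
      exact he
    exact (ENNReal.add_le_add_iff_right hz2).1 h4
  have hmono : Monotone fun N => evt z N E := monotone_nat_of_le_succ fun N => ((hA5 z E).2.1 N).1
  have h2 : pr (evt z 2 E) (NF p z) ≤ e := by rw [hT1, pr_zero]; exact bot_le
  have hge : ∀ N, 2 ≤ N → pr (evt z N E) (NF p z) ≤ e := by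
    intro N hN
    induction N, hN using Nat.le_induction with
    | base => exact h2
    | succ N hN ih => exact hstep N hN ih
  rw [(hA5 z E).2.2]
  refine iSup_le fun N => ?_
  exact (pr_mono (hmono (le_max_left N 2)) fun _ => le_rfl).trans (hge _ (le_max_right N 2))

end Pool.Agent.Lib.MPba1bba.LR
end

section
/-!
# MP_ba1bba_al, LR: UPV, the upper bound for the first return series
-/
open scoped ENNReal

namespace Pool.Agent.Lib.MPba1bba.LR

open Pool.Agent.Lib.MPba1bba Pool.Agent.Lib.MPba1bba.AS Vec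

namespace UPVAux

theorem split (v : Vec) (f : Fn) : pr v f = v.co 0 * f 0 + pr (PP v) f := by
  have h : v = v.co 0 • (1 : Vec) + PP v := by
    ext s
    rw [add_co, smul_co, one_co, PP]
    by_cases hs : s = 0
    · subst hs
      simp
    · simp [hs]
  conv_lhs => rw [h]
  rw [pr_add, smul_pr, pr_one]

theorem PP_mono {v w : Vec} (h : v ≤ w) : PP v ≤ PP w := by
  intro s
  rw [PP, PP]
  dsimp only
  split_ifs
  · exact le_rfl
  · exact h s

theorem pr_ind (v : Vec) (c : ℝ≥0∞) : pr v (fun s => if s = 0 then c else 0) = v.co 0 * c := by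
  unfold pr
  rw [tsum_eq_single 0]
  · simp
  · intro s hs
    simp [hs]

theorem one_le_geo (x : Vec) : (1 : Vec) ≤ geo x := by
  intro s
  rw [geo_eq, add_co]
  exact le_self_add

theorem one_le_add (x : Vec) : (1 : Vec) ≤ 1 + x := fun s => by
  rw [add_co]
  exact le_self_add

theorem bd_one (p : ℕ) : Bd p 1 := by
  intro s hs
  rw [one_co] at hs
  have : s = 0 := by
    by_contra h
    rw [if_neg h] at hs
    exact hs rfl
  subst this
  intro x hx
  exact absurd hx (Multiset.notMem_zero x)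

theorem bd_PP {p : ℕ} {v : Vec} (h : Bd p v) : Bd p (PP v) := by
  intro s hs
  rw [PP] at hs
  dsimp only at hs
  by_cases h0 : s = 0
  · rw [if_pos h0] at hs
    exact absurd rfl hs
  · rw [if_neg h0] at hs
    exact h s hs

end UPVAux

open UPVAux in
theorem specUPV (hEVA : SpecEVA) (hEVL : SpecEVL) (hPSR : SpecPSR) (hEQT : SpecEQT)
    (hFON : SpecFON) (hFTW : SpecFTW) (hPRM : SpecPRM) : SpecUPV := by
  intro p m Q E H V U hD z e hz hE hM
  have hp := hD.hp
  have hm := hD.hm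
  obtain ⟨-, -, -, -, eva5, -⟩ := hEVA
  obtain ⟨-, -, -, -, evl5, -, -, -, -, evl10, evl11⟩ := hEVL p m
  obtain ⟨-, ⟨-, -, bsE, -, bsV, -, bsR⟩, -, -, -⟩ := hPSR p m Q E H V U hD
  obtain ⟨-, -, -, eqt4, -, eqt6, -⟩ := hEQT p m Q E H V U hD z
  obtain ⟨fon1, fon2⟩ := hFON p m z hp hm
  obtain ⟨-, -, ftw3, -, -⟩ := hFTW p z hp hz.le
  obtain ⟨-, prm2, prm3, -⟩ := hPRM p z hp hz.le
  set R := ev z (serR Q E) with hR
  set c : ℝ≥0∞ := z ^ (p * m) with hc
  -- the pairing of `R` with `L`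
  have hRL : pr R (LF p z) ≤ MM p z e := by
    rw [eqt4]
    exact prm3 (ev z E) e (evl11 z E bsE).1 hE
  have hR1 : (1 : Vec) ≤ R := by
    rw [eqt4]
    calc (1 : Vec) = 1 * 1 := (mul_one 1).symm
      _ ≤ _ := mul_mono (one_le_add _) (one_le_geo _)
  have hbR : Bd p R := (evl11 z _ bsR).1
  -- the main step
  have step : ∀ v : Vec, Bd p v →
      pr (R * (1 + PP v)) (Ld p m z (NF p z)) + c ≤ (1 + pr (PP v) (NF p z)) * MM p z e := by
    intro v hv
    have hX : Bd p (R * (1 + PP v)) :=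
      (evl10 _ _ hbR (evl10 _ _ (bd_one p) (bd_PP hv)).2).1
    have hX0 : 1 ≤ (R * (1 + PP v)).co 0 := by
      have h1 : (1 : Vec) * 1 ≤ R * (1 + PP v) := mul_mono hR1 (one_le_add _)
      have h2 := h1 0
      rw [one_mul, one_co, if_pos rfl] at h2
      exact h2
    calc pr (R * (1 + PP v)) (Ld p m z (NF p z)) + c
        ≤ pr (R * (1 + PP v)) (Ld p m z (NF p z)) + (R * (1 + PP v)).co 0 * c := by
          gcongr
          calc c = 1 * c := (one_mul c).symm
            _ ≤ _ := by gcongr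
      _ = pr (R * (1 + PP v)) (fun s => Ld p m z (NF p z) s + if s = 0 then c else 0) := by
          rw [pr_add', pr_ind]
      _ ≤ pr (R * (1 + PP v)) (LF p z) := by
          unfold pr
          refine ENNReal.tsum_le_tsum fun s => ?_
          by_cases h0 : (R * (1 + PP v)).co s = 0
          · rw [h0, zero_mul, zero_mul]
          · have hs := hX s h0
            refine mul_le_mul' le_rfl ?_
            show Ld p m z (NF p z) s + (if s = 0 then c else 0) ≤ LF p z s
            by_cases hs0 : s = 0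
            · subst hs0
              rw [if_pos rfl]
              exact fon2
            · rw [if_neg hs0, add_zero]
              exact fon1 s hs
      _ = pr ((1 + PP v) * R) (LF p z) := by rw [mul_comm]
      _ ≤ pr (1 + PP v) (NF p z) * pr R (LF p z) := prm2 _ _
      _ ≤ (1 + pr (PP v) (NF p z)) * MM p z e := by
          rw [pr_add, pr_one, ftw3]
          gcongr
  have hb : ∀ N, Bd p (evt z N V) := (evl11 z V bsV).2
  have ineq : ∀ N, pr (evt z (N + 1) V) (NF p z) + z ^ (1 + p * m) ≤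
      1 + pr (PP (evt z N V)) (NF p z) := by
    intro N
    have h1 : pr (evt z (N + 1) V) (NF p z) ≤
        z * pr (R * (1 + PP (evt z N V))) (Ld p m z (NF p z)) := by
      refine (pr_mono (eqt6 N) fun _ => le_rfl).trans (le_of_eq ?_)
      rw [smul_pr, evl5]
    have h2 : z ^ (1 + p * m) = z * c := by rw [pow_add, pow_one]
    rw [h2]
    calc pr (evt z (N + 1) V) (NF p z) + z * c
        ≤ z * pr (R * (1 + PP (evt z N V))) (Ld p m z (NF p z)) + z * c := by gcongr
      _ = z * (pr (R * (1 + PP (evt z N V))) (Ld p m z (NF p z)) + c) :=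
          (mul_add z _ _).symm
      _ ≤ z * ((1 + pr (PP (evt z N V)) (NF p z)) * MM p z e) :=
          mul_le_mul' le_rfl (step _ (hb N))
      _ = (z * MM p z e) * (1 + pr (PP (evt z N V)) (NF p z)) := by ring
      _ ≤ 1 * (1 + pr (PP (evt z N V)) (NF p z)) := by gcongr
      _ = _ := one_mul _
  have fin : ∀ N, pr (PP (evt z N V)) (NF p z) ≠ ∞ := by
    intro N
    induction N with
    | zero =>
      have h0 : PP (evt z 0 V) = 0 := by
        rw [(eva5 z V).1]
        ext s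
        simp [PP]
      rw [h0, pr_zero]
      exact ENNReal.zero_ne_top
    | succ N ih =>
      have h1 : pr (PP (evt z (N + 1) V)) (NF p z) ≤ 1 + pr (PP (evt z N V)) (NF p z) := by
        refine le_trans ?_ (ineq N)
        rw [split (evt z (N + 1) V)]
        exact le_add_right (le_add_left le_rfl)
      exact ne_top_of_le_ne_top (ENNReal.add_ne_top.2 ⟨ENNReal.one_ne_top, ih⟩) h1
  have main : ∀ N, (evt z N V).co 0 + z ^ (1 + p * m) ≤ 1 := by
    intro N
    have hmono := ((eva5 z V).2.1 N).1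
    have h1 := ineq N
    rw [split (evt z (N + 1) V), ftw3, mul_one] at h1
    have h2 : pr (PP (evt z N V)) (NF p z) ≤ pr (PP (evt z (N + 1) V)) (NF p z) :=
      pr_mono (PP_mono hmono) fun _ => le_rfl
    have h3 : (evt z (N + 1) V).co 0 + z ^ (1 + p * m) + pr (PP (evt z N V)) (NF p z) ≤
        1 + pr (PP (evt z N V)) (NF p z) := by
      refine le_trans ?_ h1
      calc (evt z (N + 1) V).co 0 + z ^ (1 + p * m) + pr (PP (evt z N V)) (NF p z)
          ≤ (evt z (N + 1) V).co 0 + z ^ (1 + p * m) + pr (PP (evt z (N + 1) V)) (NF p z) := by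
            gcongr
        _ = _ := by ring
    have h4 := (ENNReal.add_le_add_iff_right (fin N)).1 h3
    exact (add_le_add_left (hmono 0) _).trans h4
  have hz1 : z ^ (1 + p * m) ≤ 1 := pow_le_one₀ bot_le hz.le
  have hfin : z ^ (1 + p * m) ≠ ∞ := ne_top_of_le_ne_top ENNReal.one_ne_top hz1
  have h5 : evs z (cf0 V) ≤ 1 - z ^ (1 + p * m) := by
    unfold evs
    refine ENNReal.tsum_le_of_sum_range_le fun N => ?_
    refine ENNReal.le_sub_of_add_le_right hfin ?_
    have h6 := main N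
    have h7 : (evt z N V).co 0 = ∑ n ∈ Finset.range N,
        z ^ n * ((PowerSeries.coeff n (cf0 V)).toNat : ℝ≥0∞) := by
      unfold evt cf0
      simp only [PowerSeries.coeff_mk]
    rw [h7] at h6
    exact h6
  calc evs z (cf0 V) + z ^ (1 + p * m) ≤ 1 - z ^ (1 + p * m) + z ^ (1 + p * m) := by gcongr
    _ = 1 := tsub_add_cancel_of_le hz1

end Pool.Agent.Lib.MPba1bba.LR
end

section
/-!
# MP_ba1bba_al, limit of the growth rates: module WIN (the window of a class)
-/
namespace Pool.Agent.Lib.MPba1bba.LR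

open Pool.Agent.Lib.MPba1bba Pool.Agent.Lib.MPba1bba.AS

private theorem ic_att (f g : ℤ → ℕ) (k : ℤ) : ∃ j, ic f g k = f j + g (k - j) := by
  have h := Nat.sInf_mem (s := Set.range fun j : ℤ => f j + g (k - j)) ⟨_, 0, rfl⟩
  obtain ⟨j, hj⟩ := h
  exact ⟨j, hj.symm⟩

private theorem ic_le (f g : ℤ → ℕ) (k j : ℤ) : ic f g k ≤ f j + g (k - j) :=
  ciInf_le (OrderBot.bddBelow _) j

/-- **WIN**. The window of a class. -/
theorem specWIN (hSTR : SpecSTR) (hPRF : SpecPRF) (hSMC : SpecSMC) : SpecWIN := by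
  intro p m hp hm s hs r
  obtain ⟨y, hy⟩ := hSTR p m (by omega) (by omega) s hs r
  refine ⟨y, fun k hk => ?_⟩
  set t := sml p m s r with ht
  have hbt : bs p t := (hSMC p m hp hm).1 s r
  obtain ⟨hneg, hpos, hmid, -⟩ := (hPRF p (by omega) t).2.2 hbt
  set h : ℤ → ℕ := fun j => bfun p s (r + m * j) with hh
  set a : ℤ → ℕ := fun j => p * j.natAbs with ha
  have hg : ∀ i : ℤ, ic h a i = cmin p m s r + bfun p t (i - y) := hy
  obtain ⟨j, hj⟩ := ic_att h a (y + k)
  have e0 := hg (y + k)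
  have e0' : y + (k : ℤ) - y = (k : ℤ) := by ring
  rw [e0'] at e0
  rw [← e0, hj]
  rcases lt_trichotomy j (y + k) with hlt | heq | hgt
  · exfalso
    -- step down
    have h1 := ic_le h a (y + k - 1) j
    have e1 := hg (y + k - 1)
    have e1' : y + (k : ℤ) - 1 - y = (k : ℤ) - 1 := by ring
    rw [e1'] at e1
    have a1 : a (y + k - j) = a (y + k - 1 - j) + p := by
      simp only [ha]
      have : (y + (k : ℤ) - j).natAbs = (y + (k : ℤ) - 1 - j).natAbs + 1 := by omega
      rw [this]; ring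
    have key : bfun p t ((k : ℤ) - 1) + p ≤ bfun p t (k : ℤ) := by omega
    rcases Nat.eq_zero_or_pos k with h0 | h0
    · subst h0
      have := hneg (((0 : ℕ) : ℤ) - 1) (by norm_num)
      have e : ((0 : ℕ) : ℤ) - 1 + 1 = ((0 : ℕ) : ℤ) := by norm_num
      rw [e] at this
      omega
    · have := hmid ((k : ℤ) - 1) (by omega) (by omega)
      have e : (k : ℤ) - 1 + 1 = (k : ℤ) := by ring
      rw [e] at this
      rw [abs_lt] at this
      omega
  · rw [heq]
    simp only [ha, hh]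
    simp
  · exfalso
    have h1 := ic_le h a (y + k + 1) j
    have e1 := hg (y + k + 1)
    have e1' : y + (k : ℤ) + 1 - y = (k : ℤ) + 1 := by ring
    rw [e1'] at e1
    have a1 : a (y + k - j) = a (y + k + 1 - j) + p := by
      simp only [ha]
      have : (y + (k : ℤ) - j).natAbs = (y + (k : ℤ) + 1 - j).natAbs + 1 := by omega
      rw [this]; ring
    have key : bfun p t ((k : ℤ) + 1) + p ≤ bfun p t (k : ℤ) := by omega
    rcases Nat.lt_or_ge k (Multiset.card t) with h0 | h0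
    · have := hmid (k : ℤ) (by omega) (by omega)
      rw [abs_lt] at this
      omega
    · have := hpos (k : ℤ) (by omega)
      omega

end Pool.Agent.Lib.MPba1bba.LR
end

section
/-!
# MP_ba1bba_al, LR/WRL: the sum over all integers for a word
-/
open scoped ENNReal

namespace Pool.Agent.Lib.MPba1bba.LR

open Pool.Agent.Lib.MPba1bba Pool.Agent.Lib.MPba1bba.AS Vec

namespace WRLAux

theorem wmin_perm {p : ℕ} {w w' : List ℕ} (h : w.Perm w') : wmin p w = wmin p w' :=
  (h.map _).sum_eq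

theorem wst_perm {p : ℕ} {w w' : List ℕ} (h : w.Perm w') : wst p w = wst p w' :=
  Multiset.coe_eq_coe.mpr (h.map _)

theorem prod_perm {w w' : List ℕ} (h : w.Perm w') (g : ℕ → ℝ≥0∞) :
    (w.map g).prod = (w'.map g).prod := (h.map _).prod_eq

theorem pow_sum (z : ℝ≥0∞) (l : List ℕ) : z ^ l.sum = (l.map fun i => z ^ i).prod := by
  induction l with
  | nil => simp
  | cons a l ih => simp [pow_add, ih]

theorem pow_sum' (z : ℝ≥0∞) (l : List ℕ) (p : ℕ) :
    z ^ (l.map fun i => p - i).sum = (l.map fun i => z ^ (p - i)).prod := by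
  rw [pow_sum, List.map_map]; rfl

theorem bs_wst {p : ℕ} {w : List ℕ} (h : ∀ i ∈ w, 0 < i ∧ i < p) : bs p (wst p w) := by
  intro x hx
  rw [wst, Multiset.mem_coe, List.mem_map] at hx
  obtain ⟨i, hi, rfl⟩ := hx
  have := h i hi
  constructor <;> omega

theorem card_wst (p : ℕ) (w : List ℕ) : Multiset.card (wst p w) = w.length := by
  simp [wst]

theorem neg_side {p : ℕ} {s : Multiset ℤ}
    (h : ∀ k : ℤ, k < 0 → bfun p s k = bfun p s (k + 1) + p) (j : ℕ) :
    bfun p s (-(j : ℤ)) = bfun p s 0 + p * j := by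
  induction j with
  | zero => simp
  | succ j ih =>
    rw [h _ (by push_cast; omega)]
    have : (-((j + 1 : ℕ) : ℤ) + 1) = -(j : ℤ) := by push_cast; ring
    rw [this, ih]
    ring

theorem pos_side {p : ℕ} {s : Multiset ℤ} {n : ℕ}
    (h : ∀ k : ℤ, (n : ℤ) ≤ k → bfun p s (k + 1) = bfun p s k + p) (j : ℕ) :
    bfun p s ((n + j : ℕ) : ℤ) = bfun p s (n : ℤ) + p * j := by
  induction j with
  | zero => simp
  | succ j ih =>
    have : ((n + (j + 1) : ℕ) : ℤ) = ((n + j : ℕ) : ℤ) + 1 := by push_cast; ring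
    rw [this, h _ (by push_cast; omega), ih]
    ring

/-- The sum over the integers of a function which is geometric outside of `[0, n]`. -/
theorem split (g : ℤ → ℝ≥0∞) (n : ℕ) :
    ∑' k : ℤ, g k = (∑ k ∈ Finset.range n, g (k : ℤ)) + g (n : ℤ) +
      (∑' j : ℕ, g ((n + (j + 1) : ℕ) : ℤ) + ∑' j : ℕ, g (-((j : ℤ) + 1))) := by
  have h1 : ∑' k : ℤ, g k = ∑' j : ℕ, g (j : ℤ) + ∑' j : ℕ, g (-((j : ℤ) + 1)) :=
    tsum_of_nat_of_neg_add_one (f := g) ENNReal.summable ENNReal.summable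
  have h2 : ∑ i ∈ Finset.range (n + 1), g (i : ℤ) + ∑' j : ℕ, g ((j + (n + 1) : ℕ) : ℤ) =
      ∑' j : ℕ, g (j : ℤ) :=
    Summable.sum_add_tsum_nat_add' (f := fun j : ℕ => g (j : ℤ)) (k := n + 1) ENNReal.summable
  rw [h1, ← h2, Finset.sum_range_succ, add_assoc (_ + _)]
  congr 2
  refine tsum_congr fun j => ?_
  congr 2
  omega

theorem sorted (hPRF : SpecPRF) (hTSO : SpecTSO) (hCST : SpecCST) (p : ℕ) (z : ℝ≥0∞)
    (w : List ℕ) (hp : 2 ≤ p) (hs : w.Pairwise (· ≤ ·)) (hw : ∀ i ∈ w, 0 < i ∧ i < p) :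
    z ^ wmin p w * LF p z (wst p w) =
      (w.map fun i => z ^ i).prod + TT p z w (fun _ => 1) +
        ((w.map fun i => z ^ i).prod + (w.map fun i => z ^ (p - i)).prod) * A1 p z := by
  obtain ⟨-, -, h3⟩ := hPRF p (by omega) (wst p w)
  obtain ⟨hneg, hpos, -, -⟩ := h3 (bs_wst hw)
  rw [card_wst] at hpos
  have hc := hCST p w hs hw
  have e0 : z ^ (wmin p w + bfun p (wst p w) 0) = (w.map fun i => z ^ (p - i)).prod := by
    have := hc 0 (Nat.zero_le _)
    rw [Nat.cast_zero] at this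
    rw [this, List.take_zero, List.drop_zero, List.sum_nil, zero_add, pow_sum']
  have en : z ^ (wmin p w + bfun p (wst p w) (w.length : ℤ)) = (w.map fun i => z ^ i).prod := by
    rw [hc w.length le_rfl, List.take_length, List.drop_length, List.map_nil, List.sum_nil,
      add_zero, pow_sum]
  rw [LF, ← ENNReal.tsum_mul_left]
  have e1 : ∀ k : ℤ, z ^ wmin p w * z ^ bfun p (wst p w) k =
      z ^ (wmin p w + bfun p (wst p w) k) := fun k => (pow_add _ _ _).symm
  rw [tsum_congr e1, split (fun k => z ^ (wmin p w + bfun p (wst p w) k)) w.length, en,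
    hTSO p z w hs]
  have e2 : ∑ k ∈ Finset.range w.length, z ^ (wmin p w + bfun p (wst p w) (k : ℤ)) =
      ∑ k ∈ Finset.range w.length,
        1 * ((w.take k).map fun i => z ^ i).prod * ((w.drop k).map fun i => z ^ (p - i)).prod := by
    refine Finset.sum_congr rfl fun k hk => ?_
    rw [hc k (Finset.mem_range.mp hk).le, pow_add, pow_sum, pow_sum', one_mul]
  have e3 : ∑' j : ℕ, z ^ (wmin p w + bfun p (wst p w) ((w.length + (j + 1) : ℕ) : ℤ)) =
      (w.map fun i => z ^ i).prod * A1 p z := by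
    rw [A1, ← ENNReal.tsum_mul_left]
    refine tsum_congr fun j => ?_
    rw [pos_side hpos (j + 1), ← add_assoc, pow_add, en]
  have e4 : ∑' j : ℕ, z ^ (wmin p w + bfun p (wst p w) (-((j : ℤ) + 1))) =
      (w.map fun i => z ^ (p - i)).prod * A1 p z := by
    rw [A1, ← ENNReal.tsum_mul_left]
    refine tsum_congr fun j => ?_
    have : (-((j : ℤ) + 1)) = -((j + 1 : ℕ) : ℤ) := by push_cast; ring
    rw [this, neg_side hneg (j + 1), ← add_assoc, pow_add, e0]
  rw [e2, e3, e4, add_mul]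
  ring

end WRLAux

open WRLAux in
theorem specWRL (hPRF : SpecPRF) (hTPM : SpecTPM) (hTSO : SpecTSO) (hCST : SpecCST) :
    SpecWRL := by
  intro p z w hp hw
  have hperm : (w.mergeSort (fun a b => decide (a ≤ b))).Perm w := List.mergeSort_perm _ _
  have hsrt : (w.mergeSort (fun a b => decide (a ≤ b))).Pairwise (· ≤ ·) := by
    have := List.pairwise_mergeSort (le := fun a b : ℕ => decide (a ≤ b))
      (by intro a b c h1 h2; simp only [decide_eq_true_eq] at *; omega)
      (by intro a b; simp only [Bool.or_eq_true, decide_eq_true_eq]; omega) w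
    simpa using this
  have key := sorted hPRF hTSO hCST p z _ hp hsrt (fun i hi => hw i (hperm.mem_iff.mp hi))
  rwa [wmin_perm hperm, wst_perm hperm, prod_perm hperm, prod_perm hperm,
    hTPM p z _ _ hperm] at key

end Pool.Agent.Lib.MPba1bba.LR
end
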