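import Pool.Agent.Lib.MP_ba1bba_al.LR.Spec
import Pool.Agent.Lib.MP_ba1bba_al.AS.EVL
import Pool.Agent.Lib.MP_ba1bba_al.AS.Main
import Pool.Agent.Lib.MP_ba1bba_al.LR.SUP
import Pool.Agent.Lib.MP_ba1bba_al.LR.WRL

section
/-!
# ORD: the number of slopes is at most the degree
-/
open scoped ENNReal

namespace Pool.Agent.Lib.MPba1bba.LR

open Pool.Agent.Lib.MPba1bba Pool.Agent.Lib.MPba1bba.AS Vec

namespace ORDM

/-- up to the degree `N` (excluded) the coefficients are bounded states with `#s ≤ degree` -/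
def P (p N : ℕ) (F : Ser) : Prop := ∀ n < N, ∀ s : Multiset ℤ,
  (PowerSeries.coeff n F).coeff s ≠ 0 → bs p s ∧ Multiset.card s ≤ n

variable {p : ℕ}

theorem P.mono {N M : ℕ} {F : Ser} (h : P p N F) (hM : M ≤ N) : P p M F :=
  fun n hn s hs => h n (lt_of_lt_of_le hn hM) s hs

theorem P.add {N : ℕ} {F G : Ser} (hF : P p N F) (hG : P p N G) : P p N (F + G) := by
  intro n hn s hs
  rw [map_add, AddMonoidAlgebra.coeff_add, Finsupp.add_apply] at hs
  by_cases h : (PowerSeries.coeff n F).coeff s = 0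
  · rw [h, zero_add] at hs
    exact hG n hn s hs
  · exact hF n hn s h

theorem bs_add {s t : Multiset ℤ} (hs : bs p s) (ht : bs p t) : bs p (s + t) := by
  intro x hx
  rcases Multiset.mem_add.1 hx with h | h
  · exact hs x h
  · exact ht x h

theorem mul_coeff_ne {x y : SR} {s : Multiset ℤ} (h : (x * y).coeff s ≠ 0) :
    ∃ a b : Multiset ℤ, a + b = s ∧ x.coeff a ≠ 0 ∧ y.coeff b ≠ 0 := by
  classical
  rw [AddMonoidAlgebra.coeff_mul, Finsupp.sum] at h
  obtain ⟨a, ha, h1⟩ := Finset.exists_ne_zero_of_sum_ne_zero h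
  rw [Finsupp.sum] at h1
  obtain ⟨b, hb, h2⟩ := Finset.exists_ne_zero_of_sum_ne_zero h1
  by_cases h3 : a + b = s
  · exact ⟨a, b, h3, Finsupp.mem_support_iff.1 ha, Finsupp.mem_support_iff.1 hb⟩
  · exact absurd (if_neg h3) h2

theorem ser_mul_ne {F G : Ser} {n : ℕ} {s : Multiset ℤ}
    (h : (PowerSeries.coeff n (F * G)).coeff s ≠ 0) :
    ∃ i j : ℕ, i + j = n ∧ ∃ a b : Multiset ℤ, a + b = s ∧
      (PowerSeries.coeff i F).coeff a ≠ 0 ∧ (PowerSeries.coeff j G).coeff b ≠ 0 := by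
  rw [PowerSeries.coeff_mul, AddMonoidAlgebra.coeff_sum, Finsupp.finsetSum_apply] at h
  obtain ⟨ij, hij, h1⟩ := Finset.exists_ne_zero_of_sum_ne_zero h
  exact ⟨ij.1, ij.2, Finset.HasAntidiagonal.mem_antidiagonal.1 hij, mul_coeff_ne h1⟩

theorem P.mul {N : ℕ} {F G : Ser} (hF : P p N F) (hG : P p N G) : P p N (F * G) := by
  intro n hn s hs
  obtain ⟨i, j, hij, a, b, hab, ha, hb⟩ := ser_mul_ne hs
  obtain ⟨h1, h2⟩ := hF i (by omega) a ha
  obtain ⟨h3, h4⟩ := hG j (by omega) b hb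
  rw [← hab]
  refine ⟨bs_add h1 h3, ?_⟩
  rw [Multiset.card_add]
  omega

theorem P.one (N : ℕ) : P p N 1 := by
  classical
  intro n _ s hs
  rw [PowerSeries.coeff_one] at hs
  by_cases h : n = 0
  · rw [if_pos h, AddMonoidAlgebra.one_def, AddMonoidAlgebra.coeff_single,
      Finsupp.single_apply] at hs
    by_cases h2 : (0 : Multiset ℤ) = s
    · rw [← h2]
      exact ⟨fun x hx => absurd hx (Multiset.notMem_zero x), by simp⟩
    · exact absurd (if_neg h2) hs
  · rw [if_neg h] at hs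
    exact absurd rfl hs

theorem serY_ne {n : ℕ} {s : Multiset ℤ} (h : (PowerSeries.coeff n (serY p)).coeff s ≠ 0) :
    bs p s ∧ Multiset.card s ≤ n ∧ 1 ≤ n := by
  classical
  unfold serY at h
  rw [map_sum, AddMonoidAlgebra.coeff_sum, Finsupp.finsetSum_apply] at h
  obtain ⟨i, hi, h1⟩ := Finset.exists_ne_zero_of_sum_ne_zero h
  obtain ⟨hi0, hip⟩ := Finset.mem_Ioo.1 hi
  rw [PowerSeries.coeff_monomial] at h1
  by_cases h2 : n = min i (p - i)
  · rw [if_pos h2, AddMonoidAlgebra.coeff_single, Finsupp.single_apply] at h1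
    have hn : 1 ≤ n := by
      rw [h2]
      exact le_min hi0 (by omega)
    by_cases h3 : ({2 * (i : ℤ) - p} : Multiset ℤ) = s
    · rw [← h3]
      refine ⟨fun x hx => ?_, by rw [Multiset.card_singleton]; exact hn, hn⟩
      rw [Multiset.mem_singleton] at hx
      rw [hx]
      constructor <;> omega
    · exact absurd (if_neg h3) h1
  · rw [if_neg h2] at h1
    exact absurd rfl h1

theorem P.serY (N : ℕ) : P p N (serY p) := fun _ _ _ hs =>
  ⟨(serY_ne hs).1, (serY_ne hs).2.1⟩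

theorem P.serY_mul {N : ℕ} {F : Ser} (hF : P p N F) :
    P p (N + 1) (Pool.Agent.Lib.MPba1bba.serY p * F) := by
  intro n hn s hs
  obtain ⟨i, j, hij, a, b, hab, ha, hb⟩ := ser_mul_ne hs
  obtain ⟨h1, h2, h5⟩ := serY_ne ha
  obtain ⟨h3, h4⟩ := hF j (by omega) b hb
  rw [← hab]
  refine ⟨bs_add h1 h3, ?_⟩
  rw [Multiset.card_add]
  omega

theorem lam_ne (hCRD : SpecCRD) (hEVL : SpecEVL) {m : ℕ} (hp : 2 ≤ p) (hm : 2 ≤ m) {N : ℕ}
    {F : Ser} (hF : P p N F) {n : ℕ} (hn : n < N) {t : Multiset ℤ}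
    (h : (PowerSeries.coeff n (lam p m F)).coeff t ≠ 0) : bs p t ∧ Multiset.card t ≤ n + 1 := by
  classical
  refine ⟨(hEVL p m).2.2.1 F n t h, ?_⟩
  rw [EVLM.coeff_lam'] at h
  obtain ⟨ij, hij, h1⟩ := Finset.exists_ne_zero_of_sum_ne_zero h
  obtain ⟨s, hs, h2⟩ := Finset.exists_ne_zero_of_sum_ne_zero h1
  have hij' := Finset.HasAntidiagonal.mem_antidiagonal.1 hij
  obtain ⟨h3, h4⟩ := hF ij.1 (by omega) s (Finsupp.mem_support_iff.1 hs)
  have h5 : EVLM.Lc p m s ij.2 t ≠ 0 := by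
    intro h0
    rw [h0] at h2
    simp at h2
  unfold EVLM.Lc at h5
  obtain ⟨r, hr⟩ := Finset.card_ne_zero.1 h5
  obtain ⟨hr1, hr2, hr3⟩ := Finset.mem_filter.1 hr
  have h6 := hCRD p m hp hm s h3 r (Finset.mem_range.1 hr1)
  rw [hr3] at h6
  omega

theorem P.lamX (hCRD : SpecCRD) (hEVL : SpecEVL) {m : ℕ} (hp : 2 ≤ p) (hm : 2 ≤ m) {N : ℕ}
    {F : Ser} (hF : P p N F) : P p (N + 2) (PowerSeries.X ^ 2 * (lam p m F - 1)) := by
  intro n hn s hs
  rw [PowerSeries.coeff_X_pow_mul'] at hs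
  by_cases h2 : 2 ≤ n
  · rw [if_pos h2, map_sub, AddMonoidAlgebra.coeff_sub, Finsupp.sub_apply] at hs
    by_cases h3 : (PowerSeries.coeff (n - 2) (lam p m F)).coeff s = 0
    · rw [h3, zero_sub, neg_ne_zero] at hs
      obtain ⟨h4, h5⟩ := P.one (p := p) (n - 2 + 1) (n - 2) (by omega) s hs
      exact ⟨h4, by omega⟩
    · obtain ⟨h4, h5⟩ := lam_ne hCRD hEVL hp hm hF (n := n - 2) (by omega) h3
      exact ⟨h4, by omega⟩
  · rw [if_neg h2] at hs
    exact absurd rfl hs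

end ORDM

open ORDM in
theorem specORD (hCRD : SpecCRD) (_hPSR : SpecPSR) (hEVL : SpecEVL) : SpecORD := by
  intro p m Q E H V U hd
  have hp := hd.hp
  have hm := hd.hm
  obtain ⟨hQ, hE, -⟩ := hd.sys
  have key : ∀ N : ℕ, P p N E ∧ P p N Q := by
    intro N
    induction N with
    | zero => exact ⟨fun n hn => absurd hn (Nat.not_lt_zero n), fun n hn => absurd hn (Nat.not_lt_zero n)⟩
    | succ N ih =>
      obtain ⟨h1, h2⟩ := ih
      have h3 : P p N (1 + E + Q * (1 + E) ^ 2) := by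
        rw [pow_two]
        have h4 : P p N (1 + E) := (P.one N).add h1
        exact h4.add (h2.mul (h4.mul h4))
      have h5 := P.lamX hCRD hEVL hp hm h3
      rw [← hE] at h5
      have h6 : P p (N + 1) (serY p + serY p * (E * Q)) :=
        (P.serY (N + 1)).add (P.serY_mul (h1.mul h2))
      rw [← mul_assoc, ← hQ] at h6
      exact ⟨h5.mono (by omega), h6⟩
  have hPE : ∀ N, P p N E := fun N => (key N).1
  have hPR : ∀ N, P p N (serR Q E) := fun N =>
    (P.one N).add ((key N).2.mul ((P.one N).add (key N).1))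
  refine ⟨fun n s hs => (hPE (n + 1) n (by omega) s hs).2,
    fun n s hs => (hPR (n + 1) n (by omega) s hs).2, fun n s hs => ?_⟩
  exact ((((P.one (n + 1)).add (hPE (n + 1))).mul (hPR (n + 1))) n (by omega) s hs).2

end Pool.Agent.Lib.MPba1bba.LR
end

section
/-!
# MP_ba1bba_al: the limit of the growth rates of B(p, p m)
-/
namespace Pool.Agent.Lib.MPba1bba.LR

open Pool.Agent.Lib.MPba1bba Pool.Agent.Lib.MPba1bba.AS

theorem mainLR : MainLR := by
  have hBFN := specBFN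
  have hSRT := specSRT hBFN
  have hSTR := specSTR hSRT (specCVX hBFN hSRT)
  have hEVA := specEVA
  have hEVL := specEVL
  have hSMC := specSMC
  have hUVX := specUVX hEVA hEVL
  have hPSR := specPSR hEVL hUVX hSMC
  have hEQZ := specEQZ hEVA hEVL hPSR
  have hEQT := specEQT hEVL hPSR
  have hPRF := specPRF hBFN hSRT
  have hSPL := specSPL hBFN hSRT
  have hWIN := specWIN hSTR hPRF hSMC
  have hFON := specFON hWIN hSMC hBFN
  have hFTW := specFTW hPRF hSPL
  have hPRM := specPRM hFTW hEVL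
  have hUPE := specUPE hEVA hEVL hPSR hEQT hFON hFTW hPRM
  have hUPV := specUPV hEVA hEVL hPSR hEQT hFON hFTW hPRM
  have hBDC := specBDC hPRF
  have hBDA := specBDA hBDC hPRF
  have hCRD := specCRD hPRF
  have hORD := specORD hCRD hPSR hEVL
  have hORE := specORE
  have hLOE := specLOE hEVA hEVL hPSR hEQZ hEQT hORD hORE hFTW hPRM hUPE
  have hWRL := specWRL hPRF specTPM specTSO (specCST hSRT)
  have hLNF := specLNF hWRL specSWF
  have hMMF := specMMF hLNF
  have hCRP := specCRP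
  have hMRE := specMRE hMMF hCRP
  have hEXU := specEXU hCRP
  have hEQP := specEQP hCRP
  have hMUL := specMUL hCRP
  have hTAN := specTAN hCRP
  have hSUP := specSUP hCRP hTAN
  have hLOW := specLOW hCRP hTAN
  have hBVL := specBVL hUPE hUPV hBDA hLOE hFTW hCRP hMRE hMUL hTAN hSUP hLOW hPSR
  exact specLFI mainAS hUVX hPSR hBVL hEXU hEQP

end Pool.Agent.Lib.MPba1bba.LR
end
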