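import Pool.Agent.Lib.MP_ba1bba_al.AS.Spec
import Pool.Agent.Lib.MP_ba1bba_al.Spec

/-!
# MP_ba1bba_al: the limit of the growth rates of B(p, p m) as m tends to infinity: definitions

Section 1 is used in the statement of the main theorem, the rest only in its proof.
-/

open scoped ENNReal

namespace Pool.Agent.Lib.MPba1bba.LR

open Pool.Agent.Lib.MPba1bba Pool.Agent.Lib.MPba1bba.AS Vec

/-! ## 1. The statement -/

/-- `x + x² + ... + xⁿ`. -/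
noncomputable def gs (n : ℕ) (x : ℝ) : ℝ := ∑ i ∈ Finset.range n, x ^ (i + 1)

/-- `c_t(x) = (x + ... + x^t) + (x + ... + x^(p-1-t))`, for `0 ≤ t ≤ p - 1`. -/
noncomputable def cr (p t : ℕ) (x : ℝ) : ℝ := gs t x + gs (p - 1 - t) x

/-- `F_p(x) = (1 + x) [(1 + x^p)/(1 - x c_0)
+ (1 - x^p) ∑_{0 ≤ t < p-1} x^(p-t) / ((1 - x c_t) (1 - x c_{t+1}))]`. -/
noncomputable def eqF (p : ℕ) (x : ℝ) : ℝ :=
  (1 + x) * ((1 + x ^ p) / (1 - x * cr p 0 x) +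
    (1 - x ^ p) * ∑ t ∈ Finset.range (p - 1),
      x ^ (p - t) / ((1 - x * cr p t x) * (1 - x * cr p (t + 1) x)))

/-- The main theorem. For every `p ≥ 2` the equation `F_p(x) = 2` has exactly one solution `x` in
`(0, 1/2)` (`1/x = 1 + √3` for `p = 2`), and there are `C` and `κ < 1` such that for all `m ≥ 2` the
growth rate `ω` of `B(p, p m)` satisfies `1/x - C κ^m ≤ ω < 1/x`. -/
def MainLR : Prop :=
  ∀ p : ℕ, 2 ≤ p → ∃ x : ℝ, 0 < x ∧ x < 1 / 2 ∧ eqF p x = 2 ∧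
    (∀ y : ℝ, 0 < y → y < 1 / 2 → eqF p y = 2 → y = x) ∧
    (p = 2 → 1 / x = 1 + √3) ∧
    ∃ C κ : ℝ, 0 < κ ∧ κ < 1 ∧ ∀ m : ℕ, 2 ≤ m → ∃ ω : ℝ,
      Filter.Tendsto
        (fun n : ℕ => (∑ k ∈ Finset.range (n + 1), (sphere p (p * m) k : ℝ)) ^ (1 / (n : ℝ)))
        Filter.atTop (nhds ω) ∧
      1 / x - C * κ ^ m ≤ ω ∧ ω < 1 / x

/-! ## 2. Functions on states -/

/-- `N(s) = ∑_{k=0}^{#s} z^{b_s(k)}`. -/
noncomputable def NF (p : ℕ) (z : ℝ≥0∞) : Fn := fun s =>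
  ∑ k ∈ Finset.range (Multiset.card s + 1), z ^ bfun p s (k : ℤ)

/-- `L(s) = ∑_{k ∈ ℤ} z^{b_s(k)}`. -/
noncomputable def LF (p : ℕ) (z : ℝ≥0∞) : Fn := fun s => ∑' k : ℤ, z ^ bfun p s k

open Classical in
/-- The sum of `z^{cmin(s,r)}` over the classes `r` with `sml(s,r) = ∅`. -/
noncomputable def GF (p m : ℕ) (z : ℝ≥0∞) : Fn := fun s =>
  ∑ r ∈ Finset.range m, if sml p m s r = 0 then z ^ cmin p m s r else 0

/-- `M_z(e) = ⟨(1 + Y) ∑ eⁿ Yⁿ, L⟩`. -/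
noncomputable def MM (p : ℕ) (z e : ℝ≥0∞) : ℝ≥0∞ :=
  pr ((1 + ev z (serY p)) * geo (e • ev z (serY p))) (LF p z)

/-- The coefficient of `zⁿ [s]` vanishes unless `#s ≤ n`. -/
def OrdC (F : Ser) : Prop := ∀ (n : ℕ) (s : Multiset ℤ),
  (PowerSeries.coeff n F).coeff s ≠ 0 → Multiset.card s ≤ n

/-! ## 3. Words -/

/-- `∑ min(i, p - i)` over the letters of the word `w`. -/
def wmin (p : ℕ) (w : List ℕ) : ℕ := (w.map fun i => min i (p - i)).sum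

/-- The multiset of the slopes `2 i - p` of the letters. -/
def wst (p : ℕ) (w : List ℕ) : Multiset ℤ :=
  ((w.map fun i : ℕ => (2 * (i : ℤ) - p) : List ℤ) : Multiset ℤ)

/-- `T([]; f) = 0`,
`T(i :: w; f) = f(i) z^{p-i} ∏_{j ∈ w} (z^j if j < i, else z^{p-j}) + T(w; t ↦ f(t) (z^i if i ≤ t, else z^{p-i}))`. -/
noncomputable def TT (p : ℕ) (z : ℝ≥0∞) : List ℕ → (ℕ → ℝ≥0∞) → ℝ≥0∞
  | [], _ => 0
  | i :: w, f => f i * z ^ (p - i) * (w.map fun j => if j < i then z ^ j else z ^ (p - j)).prod +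
      TT p z w (fun t => f t * (if i ≤ t then z ^ i else z ^ (p - i)))

/-- The sum of `F` over all words of length `n` in the letters `0 < i < p`. -/
noncomputable def SW (p : ℕ) : ℕ → (List ℕ → ℝ≥0∞) → ℝ≥0∞
  | 0, F => F []
  | n + 1, F => ∑ i ∈ Finset.Ioo 0 p, SW p n (fun w => F (i :: w))

/-- `c_t(z) = ∑_{0<i<p} (z^i if i ≤ t, else z^{p-i})`. -/
noncomputable def ce (p t : ℕ) (z : ℝ≥0∞) : ℝ≥0∞ :=
  ∑ i ∈ Finset.Ioo 0 p, if i ≤ t then z ^ i else z ^ (p - i)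

/-- `∑_{k ≥ 1} z^{p k}`. -/
noncomputable def A1 (p : ℕ) (z : ℝ≥0∞) : ℝ≥0∞ := ∑' k : ℕ, z ^ (p * (k + 1))

/-! ## 4. Real functions -/

/-- `u_t = 1/(1 - e c_t(x))`. -/
noncomputable def ur (p t : ℕ) (x e : ℝ) : ℝ := 1 / (1 - e * cr p t x)

/-- `M_x(e)` for real `x`, `e`. -/
noncomputable def Mr (p : ℕ) (x e : ℝ) : ℝ :=
  (1 + x ^ p) / (1 - x ^ p) * (1 + cr p 0 x) * ur p 0 x e +
    (1 + e) * ∑ t ∈ Finset.range (p - 1), x ^ (p - 1 - t) * ur p t x e * ur p (t + 1) x e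

/-- The derivative of `M_x(e)` with respect to `e`. -/
noncomputable def dM (p : ℕ) (x e : ℝ) : ℝ :=
  (1 + x ^ p) / (1 - x ^ p) * (1 + cr p 0 x) * cr p 0 x * ur p 0 x e ^ 2 +
    ∑ t ∈ Finset.range (p - 1), x ^ (p - 1 - t) * ur p t x e * ur p (t + 1) x e +
    (1 + e) * ∑ t ∈ Finset.range (p - 1), x ^ (p - 1 - t) * ur p t x e * ur p (t + 1) x e *
      (cr p t x * ur p t x e + cr p (t + 1) x * ur p (t + 1) x e)

/-- The derivative of `x² ((1 + e) M_x(e) - 1)` with respect to `e`. -/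
noncomputable def dP (p : ℕ) (x e : ℝ) : ℝ := x ^ 2 * (Mr p x e + (1 + e) * dM p x e)

end Pool.Agent.Lib.MPba1bba.LR
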