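import Pool.Agent.Lib.MP_ba1bba_al.LR.Defs

/-!
# MP_ba1bba_al, limit of the growth rates: Specs of all modules (proofs in the docstrings)

In a module with hypotheses `SpecX` write `theorem specNAME (hX : SpecX) ... : SpecNAME`. `SpecBFN`,
`SpecSRT`, `SpecSTR`, `SpecSML` are in `MP_ba1bba_al/Spec.lean`, `SpecSMC`, `SpecEVA`, `SpecEVL`, `SpecUVX`,
`SpecPSR`, `SpecEQZ`, `SpecEQT`, `SpecNRM` in `MP_ba1bba_al/AS/Spec.lean`; they are all proved.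
`Vec` (commutative semiring, `pr` = pairing, `geo x = ∑ xⁿ`, `pr_mul'`, `pr_mul_geo`, `geo_eq`, `geo_mono`,
`pr_mono` ...) is in `AS/Vec.lean`. Notation: `n = #s`, `b = bfun p s`, `y = ev z (serY p)`, `R' = serR Q E`.
All statements of section I were checked by computer.
-/

open scoped ENNReal

namespace Pool.Agent.Lib.MPba1bba.LR

open Pool.Agent.Lib.MPba1bba Pool.Agent.Lib.MPba1bba.AS Vec

/-! ## I. Profiles -/

/-- **PRF** [150], from BFN, SRT. Facts on `b_s`. (1) `A` = the negative elements, `B` = the others: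
`sumPos A = 0`, `sumNeg B = 0`, `k = card A`. (2) `specBFN` (1): `j = card A` for optimal `A, B`. (3)-(6): write
`s` as a sorted list (`s.sort (· ≤ ·)`) and use `specSRT`: the increments `b(k+1) - b(k)` are `-p` for `k < 0`,
the `k`-th element of the sorted list for `0 ≤ k < n` (`sumPos` gets `x⁺`, `sumNeg` loses `x⁻`), and `p` for
`k ≥ n`; so they increase. -/
def SpecPRF : Prop := ∀ p : ℕ, 1 ≤ p → ∀ s : Multiset ℤ,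
  (∃ k : ℕ, k ≤ Multiset.card s ∧ bfun p s (k : ℤ) = 0) ∧
  (∀ k : ℤ, ∃ j : ℕ, j ≤ Multiset.card s ∧ p * (k - (j : ℤ)).natAbs ≤ bfun p s k) ∧
  (bs p s →
    (∀ k : ℤ, k < 0 → bfun p s k = bfun p s (k + 1) + p) ∧
    (∀ k : ℤ, (Multiset.card s : ℤ) ≤ k → bfun p s (k + 1) = bfun p s k + p) ∧
    (∀ k : ℤ, 0 ≤ k → k < (Multiset.card s : ℤ) → |(bfun p s (k + 1) : ℤ) - bfun p s k| < p) ∧
    (∀ k : ℤ, (bfun p s (k + 1) : ℤ) - bfun p s k ≤ bfun p s (k + 2) - bfun p s (k + 1)))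

/-- **SPL** [120], from BFN, SRT. Splitting. (1) Take optimal `A + B = s + t` (`specBFN` (1)); put `A₁ = A ∩ s`,
`A₂ = A - s`, `B₁ = s - A`, `B₂ = B - (s - A)`: `A₁ + B₁ = s`, `A₂ + B₂ = t`, `A₁ + A₂ = A`, `B₁ + B₂ = B`
(counting, `omega`). Let `j = card A₂`: `b_t(j) ≤ sumPos A₂ + sumNeg B₂`,
`b_s(k - j) ≤ sumPos A₁ + sumNeg B₁ + p |k - card A|`. (2) If all slopes are bounded and `0 ≤ k ≤ card (s+t)` then by
`specSRT` `b_{s+t}(k) = sumPos A + sumNeg B` with `card A = k` (`A` = the `k` smallest slopes); split it in the same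
way, `i = card A₁`, `j = card A₂`. -/
def SpecSPL : Prop := ∀ p : ℕ, ∀ s t : Multiset ℤ,
  (∀ k : ℤ, ∃ j : ℕ, j ≤ Multiset.card t ∧
    bfun p s (k - (j : ℤ)) + bfun p t (j : ℤ) ≤ bfun p (s + t) k) ∧
  (bs p s → bs p t → ∀ k : ℕ, k ≤ Multiset.card s + Multiset.card t →
    ∃ i j : ℕ, i ≤ Multiset.card s ∧ j ≤ Multiset.card t ∧ i + j = k ∧
      bfun p s (i : ℤ) + bfun p t (j : ℤ) ≤ bfun p (s + t) (k : ℤ))

/-- **WIN** [100], from STR, PRF, SMC. The window. Let `h j = b_s(r + m j)`, `t = sml(s,r)` (bounded, SMC (1)),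
`N = #t`, `g = ic h (p|.|)`. By `specSTR` `g(k) = cmin + b_t(k - y)`. `g ≤ h` and `g(k) = h(j) + p |k - j|` for some `j`
(attained: it is an infimum of natural numbers). Claim `g(y + k) = h(y + k)` for `0 ≤ k ≤ N`: otherwise `j ≠ y + k`.
If `j > y + k` then `g(y+k+1) ≤ g(y+k) - p`, i.e. `b_t(k+1) ≤ b_t(k) - p`; but for `0 ≤ k < N` the increment is `> -p`,
and for `k = N` it is `p` (PRF). If `j < y + k` then `b_t(k-1) ≤ b_t(k) - p`; for `0 < k ≤ N` the increment from `k-1`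
to `k` is `< p`, for `k = 0` it is `-p`. -/
def SpecWIN : Prop := ∀ p m : ℕ, 2 ≤ p → 2 ≤ m → ∀ s, bs p s → ∀ r : ℕ, ∃ y : ℤ, ∀ k : ℕ,
  k ≤ Multiset.card (sml p m s r) →
    bfun p s (r + m * (y + k)) = cmin p m s r + bfun p (sml p m s r) (k : ℤ)

/-- **FON** [120], from WIN, SMC, BFN. By WIN `z^{cmin(s,r)} N(sml(s,r)) = ∑_{k ≤ #sml} z^{b_s(r + m (y_r + k))}`, and the
integers `r + m (y_r + k)`, `r < m`, `k ≤ #sml(s,r)` are distinct; so the sum over all `r` is at most `L(s)`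
(a finite partial sum; e.g. `∑_r ∑_{j : ℤ} z^{b_s(r + m j)} = L(s)` by the bijection `Fin m × ℤ ≃ ℤ`
[`Int.divModEquiv`] and for every `r` a finite set of `j`). For `s = ∅`: `sml(∅,0) = ∅`, `cmin(∅,0) = 0` (SMC (6)), the
class `0` contributes only the term `b_∅(m y_0) = 0`, i.e. `y_0 = 0`; the integer `m` has `b_∅(m) = p m` and is not
used. -/
def SpecFON : Prop := ∀ (p m : ℕ) (z : ℝ≥0∞), 2 ≤ p → 2 ≤ m →
  (∀ s, bs p s → Ld p m z (NF p z) s ≤ LF p z s) ∧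
  Ld p m z (NF p z) 0 + z ^ (p * m) ≤ LF p z 0

/-- **FTW** [100], from PRF, SPL. (1) by SPL (2): for `k ≤ #s + #t` choose `(i,j)` with `i + j = k`
(so different `k` give different pairs) and `z^{b_{s+t}(k)} ≤ z^{b_s(i)} z^{b_t(j)}` (`z ≤ 1`). (2) by SPL (1):
`z^{b_{s+t}(k)} ≤ ∑_{j ≤ #t} z^{b_s(k-j)} z^{b_t(j)}`; sum over `k ∈ ℤ` (shift). (3) `b_∅(0) = 0`. (4) PRF (1).
(5) partial sum. -/
def SpecFTW : Prop := ∀ (p : ℕ) (z : ℝ≥0∞), 2 ≤ p → z ≤ 1 →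
  (∀ s t, bs p s → bs p t → NF p z (s + t) ≤ NF p z s * NF p z t) ∧
  (∀ s t, LF p z (s + t) ≤ NF p z t * LF p z s) ∧
  NF p z 0 = 1 ∧ (∀ s, 1 ≤ NF p z s) ∧ (∀ s, NF p z s ≤ LF p z s)

/-- **PRM** [120], from FTW, EVL, PSR (only: `Bd p (ev z (serY p))`; or directly from the definition of `serY`).
(1), (2): `pr_mul'` (or `pr_mul`) and FTW termwise (in (1) only bounded `s`, `t` contribute). (3) by `pr_mul_geo` the
left side is `∑_n ⟨(1+y)(y x)ⁿ, L⟩`, `(y x)ⁿ = yⁿ xⁿ`, and by (2) the term is `≤ ⟨xⁿ, N⟩ ⟨(1+y) yⁿ, L⟩`,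
`⟨xⁿ, N⟩ ≤ eⁿ` by (1) and induction (`⟨1, N⟩ = N(∅) = 1`); the right side is `∑_n eⁿ ⟨(1+y) yⁿ, L⟩`.
(4) `e • y = y * (e • 1) ≤ y * x`, `geo_mono`, `pr_mono`. -/
def SpecPRM : Prop := ∀ (p : ℕ) (z : ℝ≥0∞), 2 ≤ p → z ≤ 1 →
  (∀ x y, Bd p x → Bd p y → pr (x * y) (NF p z) ≤ pr x (NF p z) * pr y (NF p z)) ∧
  (∀ x y, pr (x * y) (LF p z) ≤ pr x (NF p z) * pr y (LF p z)) ∧
  (∀ x e, Bd p x → pr x (NF p z) ≤ e →
    pr ((1 + ev z (serY p)) * geo (ev z (serY p) * x)) (LF p z) ≤ MM p z e) ∧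
  (∀ (x : Vec) (e : ℝ≥0∞), e • (1 : Vec) ≤ x →
    MM p z e ≤ pr ((1 + ev z (serY p)) * geo (ev z (serY p) * x)) (LF p z))

/-! ## II. Upper bounds (all `m`) -/

/-- **UPE** [100], from EVA, EVL, PSR, EQT, FON, FTW, PRM. Let `x_N = evt z N E`. Claim `⟨x_N, N⟩ ≤ e` for all `N`;
then take the supremum (EVA (5)). `N ≤ 2`: `x_N ≤ x_2 = 0` (EQT (1)). `N ≥ 2`: pair EQT (3) with `N`:
`⟨x_{N+1}, N⟩ + z² ≤ z² ⟨(1+x_N)(1+y) geo(y x_N), Ld N⟩` (`⟨Lv x, f⟩ = ⟨x, Ld f⟩`, EVL) `≤ z² ⟨(1+x_N)(1+y)geo(y x_N), L⟩`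
(FON; the vector is supported on bounded states: EVL, PSR, and `geo` of a bounded vector is bounded) `≤
z² (1 + e) M_z(e)` (PRM (2) with `⟨1 + x_N, N⟩ ≤ 1 + e`, PRM (3)) `≤ e + z²`; cancel `z²` (finite). -/
def SpecUPE : Prop := ∀ (p m : ℕ) (Q E H V U : Ser), Dat p m Q E H V U →
  ∀ z e : ℝ≥0∞, z < 1 → z ^ 2 * (1 + e) * MM p z e ≤ e + z ^ 2 → pr (ev z E) (NF p z) ≤ e

/-- **UPV** [150], from EVA, EVL, PSR, EQT, FON, FTW, PRM. Let `v_N = evt z N V`, `R = ev z R'`, `R ≥ 1`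
(`R' = 1 + ...`). By EQT (5) paired with `N`, `⟨v_{N+1}, N⟩ ≤ z ⟨X, Ld N⟩`, `X = R (1 + PP v_N)`. `X` is bounded and has
component `≥ 1` at `∅`; by FON (both parts; split off the term `s = ∅`) `⟨X, Ld N⟩ + z^{pm} ≤ ⟨X, L⟩`, and by PRM (2)
`⟨X, L⟩ ≤ (1 + ⟨PP v_N, N⟩) ⟨R, L⟩`, `⟨R, L⟩ ≤ M_z(e)` (EQT (4), PRM (3)). So
`⟨v_{N+1}, N⟩ + z^{1+pm} ≤ z M_z(e) (1 + ⟨PP v_N, N⟩) ≤ 1 + ⟨PP v_N, N⟩`. By induction `⟨PP v_N, N⟩ < ∞` (`v_0 = 0`).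
`⟨v_{N+1}, N⟩ = v_{N+1,∅} + ⟨PP v_{N+1}, N⟩ ≥ v_{N+1,∅} + ⟨PP v_N, N⟩` (`v_N ≤ v_{N+1}`). Cancel:
`v_{N+1,∅} + z^{1+pm} ≤ 1`. Supremum over `N`: `evs z (cf0 V) = (ev z V).co 0` (the same sum). -/
def SpecUPV : Prop := ∀ (p m : ℕ) (Q E H V U : Ser), Dat p m Q E H V U →
  ∀ z e : ℝ≥0∞, z < 1 → pr (ev z E) (NF p z) ≤ e → z * MM p z e ≤ 1 →
    evs z (cf0 V) + z ^ (1 + p * m) ≤ 1

/-! ## III. Lower bounds -/

/-- **BDC** [150], from PRF. (a) For `k ≠ k'` in the same class mod `m`: `b(k) + b(k') ≥ p (m - n)`: by PRF (2)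
`b(k) ≥ p |k - j|`, `b(k') ≥ p |k' - j'|`, `0 ≤ j, j' ≤ n`, `|k - k'| ≥ m`. So (third claim)
`2 b(k') ≥ 2 p (m - n) - 2 b(k) > p (m - n + 1)`. (b) so all other elements of the class of `k` have a greater value
and `b(k) = cmin` (infimum over `r + m j`; `k = r + m (k / m)`). (c) `sml = 0`: show
`|b(k₁ + m) - b(k₁)| ≥ p` for all `k₁` of the class (then all the sets in the definition of `sml` are empty). If `k₁ = k`
or `k₁ + m = k` the absolute value is `≥ p (m - n) - 2 b(k) > p` by (a). If `k₁ + m < k`, the increment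
`b(k₁ + m) - b(k₁)` is at most `b(k) - b(k - m) < -p` (convexity: increments over steps of length `m` increase, PRF
(6)); if `k₁ > k` similarly. -/
def SpecBDC : Prop := ∀ p m : ℕ, 1 ≤ p → 1 ≤ m → ∀ s, bs p s → ∀ k : ℤ,
  2 * bfun p s k + p * (Multiset.card s + 1) < p * m →
    sml p m s (k % m).toNat = 0 ∧ bfun p s k = cmin p m s (k % m).toNat ∧
    ∀ k' : ℤ, k' ≠ k → k' % m = k % m → p * m ≤ 2 * bfun p s k' + p * (Multiset.card s + 1)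

/-- **BDA** [150], from BDC, PRF. Choose `y : ℝ≥0∞` with `y < 1`, `z ≤ y⁴`, `1 < y^p l` (continuity of powers at `1`;
e.g. work with a real number near `1`), and `κ = y^p`. Call `k` good if `2 b(k) + p (n+1) < p m`, else bad. The map
`k ↦ (k % m).toNat` is injective on the good `k` (BDC: two good ones in one class contradict each other), and
`z^{b(k)} = z^{cmin}`, `sml = 0` there: the good `k` contribute at most `G(s)`. For bad `k`, with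
`d(k) = (-k).toNat + (k - n).toNat`, one has `4 b(k) + p (n + 1) ≥ p m + 2 p d(k)`
(`2 b(k) + p (n+1) ≥ p m`, `b(k) ≥ p d(k)` by PRF (2)), so `z^{b(k)} κ^{n+1} ≤ κ^m y^{2 p d(k)}` and
`κ^{n+1} ∑_{bad} z^{b(k)} ≤ κ^m (n + 1 + C₀)`, `C₀ = 2 ∑_{i ≥ 1} y^{2 p i} < ∞` (or bound `∑_k y^{2 p d(k)}` by
`∑_{j ≤ n} ∑_k y^{2 p |k - j|}`). As `κ l > 1`, `n + 1 + C₀ ≤ K l⁻¹ (κ l)^{n+1}` for some `K` (Bernoulli). -/
def SpecBDA : Prop := ∀ p : ℕ, 2 ≤ p → ∀ z l : ℝ≥0∞, z < 1 → 1 < l →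
  ∃ K κ : ℝ≥0∞, K ≠ ∞ ∧ 0 < κ ∧ κ < 1 ∧ ∀ m : ℕ, 2 ≤ m → ∀ s, bs p s →
    LF p z s ≤ GF p m z s + K * κ ^ m * l ^ (Multiset.card s)

/-- **CRD** [60], from PRF. `card (sml p m s r)` is the number of `j` with `|b(r + m (j+1)) - b(r + m j)| < p` (disjoint
union over the values `x ∈ (-p,p)`); such `j` satisfy `-m < r + m j < n` (below `0` and above `n` the increments over
`m` steps are `∓ p m`), and `0 ≤ r < m`, so `-1 ≤ j` and `j < n` or `j = -1`: at most `n + 1` values. -/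
def SpecCRD : Prop := ∀ p m : ℕ, 2 ≤ p → 2 ≤ m → ∀ s, bs p s → ∀ r : ℕ, r < m →
  Multiset.card (sml p m s r) ≤ Multiset.card s + 1

/-- **ORD** [150], from CRD, PSR, EVL. `OrdC` is closed under sums and products, `OrdC 1`, `OrdC (serY p)`
(one slope, degree `min i (p-i) ≥ 1`). If the coefficients of degree `≤ N` of `F` (bounded) satisfy `#s ≤ degree`, then
the coefficients of degree `n ≤ N` of `lam p m F` satisfy `#t ≤ n + 1` (CRD; the coefficient of degree `n` of `lam F`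
is a sum of coefficients of `F` of degree `i ≤ n` times `z^{cmin}[sml]` with `i + cmin = n`). From `Sys`:
`Q = Y + Y E Q`, `E = X² (lam (1 + E + Q (1+E)²) - 1)`: strong induction on the degree for `E` and `Q` together
(a coefficient of degree `n` of `E` comes from the degree `n - 2` of `lam`: `#t ≤ n - 1`; a coefficient of degree `n` of
`Y E Q`: `Y` has order `≥ 1`, so `E Q` is needed in degrees `≤ n - 1`). Then `serR = 1 + Q (1 + E)` and the product. -/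
def SpecORD : Prop := ∀ (p m : ℕ) (Q E H V U : Ser), Dat p m Q E H V U →
  OrdC E ∧ OrdC (serR Q E) ∧ OrdC ((1 + E) * serR Q E)

/-- **ORE** [40]. Termwise: the coefficient of `zⁿ [s]` is `0` or `#s ≤ n` and `l^{#s} zⁿ ≤ (l z)ⁿ`. -/
def SpecORE : Prop := ∀ (F : Ser) (z l : ℝ≥0∞), 1 ≤ l → OrdC F →
  pr (ev z F) (fun s => l ^ Multiset.card s) ≤ ms (ev (l * z) F)

/-- **LOE** [150], from EVA, EVL, PSR, EQZ, EQT, ORD, ORE, FTW, PRM, UPE. Let `e = (ev z E).co 0`, `R = ev z R'`,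
`F = (1 + ev z E) R = ev z ((1+E) R')`. `(Lv z x).co 0 = ⟨x, G⟩` (definitions of `Lv` and `GF`). EQZ (1) at `∅`:
`e + z² = z² ⟨F, G⟩`. By hypothesis (bounded support) `⟨F, L⟩ ≤ ⟨F, G⟩ + δ ⟨F, l^#⟩`, and
`⟨F, l^#⟩ ≤ ms (ev (l z) ((1+E) R'))` (ORE) `≤ ⟨ev (l z) ((1+E) R'), L_{lz}⟩` (`1 ≤ L`) `≤ (1 + ⟨ev (l z) E, N⟩) ⟨ev (l z) R', L⟩
≤ (1 + e') M_{lz}(e')` (PRM, EQT (4), UPE at `l z`). `F ≥ (1 + e) • R` as `ev z E ≥ e • 1`, and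
`⟨R, L⟩ ≥ M_z(e)` (EQT (4), PRM (4)). The second: by EQZ (6) `ev z V ≥ z • Lv R`, so
`evs z (cf0 V) = (ev z V).co 0 ≥ z ⟨R, G⟩` and `⟨R, L⟩ ≤ ⟨R, G⟩ + δ ⟨R, l^#⟩`, `⟨R, l^#⟩ ≤ ms (ev (l z) R') ≤ M_{lz}(e')`. -/
def SpecLOE : Prop := ∀ (p m : ℕ) (Q E H V U : Ser), Dat p m Q E H V U →
  ∀ z l e' δ : ℝ≥0∞, 1 ≤ l → l * z < 1 →
    (l * z) ^ 2 * (1 + e') * MM p (l * z) e' ≤ e' + (l * z) ^ 2 →
    (∀ s, bs p s → LF p z s ≤ GF p m z s + δ * l ^ (Multiset.card s)) →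
    z ^ 2 * (1 + (ev z E).co 0) * MM p z ((ev z E).co 0) ≤
      (ev z E).co 0 + z ^ 2 + z ^ 2 * (δ * ((1 + e') * MM p (l * z) e')) ∧
    z * MM p z ((ev z E).co 0) ≤ evs z (cf0 V) + z * (δ * MM p (l * z) e')

/-! ## IV. The function `M` in closed form -/

/-- **TPM** [60]. `List.Perm` induction, for all `f`. `cons`: the product is invariant, and the induction
hypothesis. `swap i j`: for `i = j` nothing to do; for `i ≠ j` the factor for `j` in the term of `i` is `z^j` if `j < i`,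
else `z^{p-j}` when `i` comes first, and `z^j` if `j ≤ i`, else `z^{p-j}`, when `j` comes first (factor of `f`): the same.
The remaining functions `t ↦ f t * (..i..) * (..j..)` agree up to the order of the factors. -/
def SpecTPM : Prop := ∀ (p : ℕ) (z : ℝ≥0∞) (w w' : List ℕ), w.Perm w' →
  ∀ f : ℕ → ℝ≥0∞, TT p z w f = TT p z w' f

/-- **TSO** [80]. Sorted words, by induction on `w`, for all `f`. For `i :: w` all letters `j` of `w` are `≥ i`, so the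
first term of `TT` is `f(i) z^{p-i} ∏ z^{p-j}`, the term `k = 0` of the sum; and in the second term `f' t = f t z^i` for
all letters `t` of `w` (only these matter in the formula of the induction hypothesis), which gives the terms `k + 1`. -/
def SpecTSO : Prop := ∀ (p : ℕ) (z : ℝ≥0∞) (w : List ℕ), w.Pairwise (· ≤ ·) → ∀ f : ℕ → ℝ≥0∞,
  TT p z w f = ∑ k ∈ Finset.range w.length,
    f (w.getD k 0) * ((w.take k).map fun i => z ^ i).prod * ((w.drop k).map fun i => z ^ (p - i)).prod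

/-- **CST** [80], from SRT. The list of slopes `w.map (2 i - p)` is sorted with elements in `(-p,p)`; for
`0 ≤ k ≤ length` `specSRT` gives `b(k) = sumPos (take k) + sumNeg (drop k)`; and
`min(i,p-i) + (2i-p)⁺ = i`, `min(i,p-i) + (2i-p)⁻ = p - i`. -/
def SpecCST : Prop := ∀ (p : ℕ) (w : List ℕ), w.Pairwise (· ≤ ·) → (∀ i ∈ w, 0 < i ∧ i < p) →
  ∀ k : ℕ, k ≤ w.length →
    wmin p w + bfun p (wst p w) (k : ℤ) = (w.take k).sum + ((w.drop k).map fun i => p - i).sum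

/-- **WRL** [150], from PRF, TPM, TSO, CST. Everything is invariant under permutations of `w` (TPM), so let `w` be
sorted (`List.mergeSort` or `insertionSort`), `n = #w`. By CST `z^{wmin + b(k)} = ∏_{take k} z^i ∏_{drop k} z^{p-i}` for
`0 ≤ k ≤ n`; `k = n` gives `∏ z^i`, and `k < n` gives `TT p z w 1` by TSO. For `L`: `b(-j) = b(0) + p j`,
`b(n + j) = b(n) + p j` for `j ≥ 0` (PRF (3), (4)), and `z^{wmin + b(0)} = ∏ z^{p-i}`, `z^{wmin+b(n)} = ∏ z^i`; split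
`ℤ` into `k < 0`, `0 ≤ k ≤ n`, `k > n`. -/
def SpecWRL : Prop := ∀ (p : ℕ) (z : ℝ≥0∞) (w : List ℕ), 2 ≤ p → (∀ i ∈ w, 0 < i ∧ i < p) →
  z ^ wmin p w * LF p z (wst p w) =
    (w.map fun i => z ^ i).prod + TT p z w (fun _ => 1) +
      ((w.map fun i => z ^ i).prod + (w.map fun i => z ^ (p - i)).prod) * A1 p z

/-- **SWF** [150]. Sums over words. (1) induction on `n` for all `f`:
`⟨y x, f⟩ = ∑_{0<i<p} z^{min(i,p-i)} ⟨x, f({2i-p} + ·)⟩`, as `ev z (serY p) = ∑_i z^{min(i,p-i)} • [{2i-p}]`.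
(2) induction. (3) linearity, induction. (4) induction, with (3). (5) induction on `n` for all `f`:
`SW (n+1) (TT f) = ∑_i f(i) z^{p-i} (∑_j (z^j if j < i, else z^{p-j}))ⁿ + ∑_i SW n (TT f_i)`; for `0 < i`
the inner sum is `c_{i-1}`, and by induction `∑_i SW n (TT f_i) = ∑_t f(t) z^{p-t} (∑_i (z^i if i ≤ t, else z^{p-i}))
∑_{l<n} c_t^l c_{t-1}^{n-1-l}`, the middle factor is `c_t`. -/
def SpecSWF : Prop := ∀ (p : ℕ) (z : ℝ≥0∞) (n : ℕ),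
  (∀ f : Fn, pr (ev z (serY p) ^ n) f = SW p n (fun w => z ^ wmin p w * f (wst p w))) ∧
  (∀ F F' : List ℕ → ℝ≥0∞, (∀ w, w.length = n → (∀ i ∈ w, 0 < i ∧ i < p) → F w = F' w) →
    SW p n F = SW p n F') ∧
  (∀ (F F' : List ℕ → ℝ≥0∞) (c : ℝ≥0∞), SW p n (fun w => F w + F' w) = SW p n F + SW p n F' ∧
    SW p n (fun w => F w * c) = SW p n F * c) ∧
  (∀ g : ℕ → ℝ≥0∞, SW p n (fun w => (w.map g).prod) = (∑ i ∈ Finset.Ioo 0 p, g i) ^ n) ∧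
  (∀ f : ℕ → ℝ≥0∞, SW p n (fun w => TT p z w f) =
    ∑ t ∈ Finset.Ioo 0 p, f t * z ^ (p - t) *
      ∑ l ∈ Finset.range n, ce p t z ^ l * ce p (t - 1) z ^ (n - 1 - l))

/-- **LNF** [80], from WRL, SWF. SWF (1) with `f = L`, then WRL under the sum (SWF (2)), then (3)-(5). `∑_{0<i<p} z^i
= ∑_{0<i<p} z^{p-i} = c_0` (reflection `i ↦ p - i`; `i ≤ 0` never holds). -/
def SpecLNF : Prop := ∀ (p : ℕ) (z : ℝ≥0∞) (n : ℕ), 2 ≤ p →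
  pr (ev z (serY p) ^ n) (LF p z) = ce p 0 z ^ n * (1 + 2 * A1 p z) +
    ∑ t ∈ Finset.Ioo 0 p, z ^ (p - t) *
      ∑ l ∈ Finset.range n, ce p t z ^ l * ce p (t - 1) z ^ (n - 1 - l)

/-- **MMF** [120], from LNF. `M_z(e) = ∑_n eⁿ (ℓ_n + ℓ_{n+1})`, `ℓ_n = ⟨yⁿ, L⟩` (`pr_mul_geo`, `(e • y)ⁿ = eⁿ • yⁿ`).
`∑ (e c)ⁿ = (1 - e c)⁻¹` (`ENNReal.tsum_geometric`), and `∑_n eⁿ ∑_{l<n+1} c^l c'^{n-l} = (1 - e c)⁻¹ (1 - e c')⁻¹`
(product of two series in `[0,∞]`; sum over pairs), `∑_n eⁿ ∑_{l<n} c^l c'^{n-1-l} = e` times this. -/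
def SpecMMF : Prop := ∀ (p : ℕ) (z e : ℝ≥0∞), 2 ≤ p →
  MM p z e = (1 + 2 * A1 p z) * (1 + ce p 0 z) * (1 - e * ce p 0 z)⁻¹ +
    (1 + e) * ∑ t ∈ Finset.Ioo 0 p, z ^ (p - t) * (1 - e * ce p (t - 1) z)⁻¹ * (1 - e * ce p t z)⁻¹

/-- **CRP** [120]. Facts on `c_t(x)`. (2): `gs (t+1) - gs t = x^{t+1}`. (5): `gs n x ≤ gs n (1/2) = 1 - 2⁻ⁿ < 1` for
`0 ≤ x ≤ 1/2`. (6): `ce` is the sum over `0 < i < p` of `z^i` (`i ≤ t`) or `z^{p-i}` (`i > t`), i.e. `gs t + gs (p-1-t)` after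
the reflection `i ↦ p - i`; `∑_{k≥1} x^{pk} = x^p/(1-x^p)`. -/
def SpecCRP : Prop := ∀ p : ℕ, 2 ≤ p →
  (∀ (t : ℕ) (x : ℝ), t ≤ p - 1 → cr p (p - 1 - t) x = cr p t x) ∧
  (∀ (t : ℕ) (x : ℝ), t < p - 1 → cr p t x - cr p (t + 1) x = x ^ (p - 1 - t) - x ^ (t + 1)) ∧
  (∀ (t : ℕ) (x y : ℝ), 0 ≤ x → x ≤ y → 0 ≤ cr p t x ∧ cr p t x ≤ cr p t y) ∧
  (∀ t : ℕ, Continuous (cr p t)) ∧
  (∀ (t : ℕ) (x : ℝ), 0 ≤ x → x ≤ 1 / 2 → x * cr p t x < 1) ∧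
  (∀ (t : ℕ) (x : ℝ), t ≤ p - 1 → 0 ≤ x → x < 1 →
    ce p t (ENNReal.ofReal x) = ENNReal.ofReal (cr p t x) ∧
    A1 p (ENNReal.ofReal x) = ENNReal.ofReal (x ^ p / (1 - x ^ p))) ∧
  cr p 0 (1 / 2) = 1 - 2 * (1 / 2) ^ p ∧
  (∀ x : ℝ, cr 2 0 x = x ∧ cr 2 1 x = x)

/-- **MRE** [80], from MMF, CRP. Convert the formula MMF: all terms are finite and nonnegative;
`(1 - ofReal a)⁻¹ = ofReal (1/(1-a))` for `a < 1`; reindex `t ∈ Ioo 0 p` to `t + 1`, `t ∈ range (p-1)`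
(`p - (t + 1) = p - 1 - t`); `1 + 2 x^p/(1-x^p) = (1+x^p)/(1-x^p)`. -/
def SpecMRE : Prop := ∀ (p : ℕ) (x e : ℝ), 2 ≤ p → 0 < x → x < 1 → 0 ≤ e →
  (∀ t ≤ p - 1, e * cr p t x < 1) →
  MM p (ENNReal.ofReal x) (ENNReal.ofReal e) = ENNReal.ofReal (Mr p x e) ∧ 0 ≤ Mr p x e

/-! ## V. Real analysis -/

/-- **EXU** [120], from CRP. `φ(x) = x M_x(x)` is continuous and strictly increasing on `[0, 1/2]` (the first term
`x (1+x^p)/(1-x^p) (1 + c_0) u_0` is strictly increasing, all factors are nonnegative and nondecreasing, as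
`u_t = 1/(1 - x c_t(x))`), `φ(0) = 0`, and `φ(1/2) ≥ 1/2 · (1+a)/(1-a) · (2 - 2a) · 2/(1 + 2a) = 2 (1+a)/(1+2a) > 1`,
`a = 2^{-p}` (`c_0(1/2) = 1 - 2a`). Intermediate value theorem. -/
def SpecEXU : Prop := ∀ p : ℕ, 2 ≤ p → ∃ x : ℝ, 0 < x ∧ x < 1 / 2 ∧ x * Mr p x x = 1 ∧
  ∀ y : ℝ, 0 < y → y < 1 / 2 → y * Mr p y y = 1 → y = x

/-- **EQP** [80], from CRP. With `a = y^p`, `u_t = 1/(1 - y c_t)`, `y c_0 = 1 - 1/u_0`:
`y (1 + c_0) u_0 = (1 + y) u_0 - 1`, `y · y^{p-1-t} = y^{p-t}` (`t < p - 1`), so with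
`S = ∑_{t<p-1} y^{p-t} u_t u_{t+1}`: `y M = (1+a)/(1-a) ((1+y) u_0 - 1) + (1+y) S` and
`eqF = (1+y) ((1+a) u_0 + (1-a) S)`, so `eqF - 2 = (1 - a)(y M - 1)`. For `p = 2`: `c_0 = c_1 = y`,
`eqF = (1+y)((1+y²)/(1-y²) + (1-y²) y²/(1-y²)²) = (1 + 2 y²)/(1 - y)`, so `2y² + 2y - 1 = 0`, `y = (√3-1)/2`. -/
def SpecEQP : Prop :=
  (∀ (p : ℕ) (y : ℝ), 2 ≤ p → 0 < y → y < 1 / 2 → (eqF p y = 2 ↔ y * Mr p y y = 1)) ∧
  ∀ y : ℝ, 0 < y → y < 1 / 2 → eqF 2 y = 2 → 1 / y = 1 + √3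

/-- **MUL** [200], from CRP. The multiplier is less than one. All at `e = x`: `u_t = ur p t x x ≥ 1`, `a = x^p`,
`θ = (1+a)/(1-a)`, `π_t = u_t u_{t+1}`, `g_t = x^{p-t} π_t`, `f_t = x^{t+2} π_t`, `t < p - 1`; `S₁ = ∑ g_t`,
`S₂ = ∑ g_t (u_t + u_{t+1})`. (a) `x c_t = 1 - 1/u_t`, so `x (1 + c_0) u_0 = (1+x) u_0 - 1`, `x c_t u_t = u_t - 1`; the hypothesis
says `(1+x)(θ u_0 + S₁) = 1 + θ`, and `dP = x + (1+x)[θ ((1+x) u_0² - (2+x) u_0 + 1) + x S₁ + (1+x)(S₂ - 2 S₁)]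
= (1+x)² (θ u_0² + S₂) - 2 - θ`. So `dP < 1` iff `(1+x)² B < 3 + θ`, `B = θ u_0² + S₂`, `A = θ u_0 + S₁`; as
`1 + θ = 2/(1-a)`, `3 + θ = (4 - 2a)/(1-a)`, `(1+x) A = 2/(1-a)`, this says `B < (1-a)(1-a/2) A²`.
(b) `g_t - f_t = u_t - u_{t+1}` (CRP (2): `x (c_t - c_{t+1}) = x^{p-t} - x^{t+2}`), and with `d = |p - 2 - 2t| ≤ p`,
`|g_t - f_t|/(g_t + f_t) = (1 - x^d)/(1 + x^d)` so `θ |g_t - f_t| ≤ g_t + f_t` (i.e. `x^p ≤ x^d`).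
(c) symmetry `t ↦ p - 2 - t` (`u_{p-1-t} = u_t`, CRP (1)): `∑ g_t φ_t = ∑ f_t φ_t` for `φ_t = 1` and
`φ_t = u_t + u_{t+1}`, so `2 S₁ = ∑ (g_t + f_t)`, `2 S₂ = ∑ (g_t + f_t)(u_t + u_{t+1})`. (d) let `U = u_K = max_{t ≤ p-1} u_t`.
`2 (2 U S₁ - S₂) = ∑ (g_t + f_t)((U - u_t) + (U - u_{t+1})) ≥ θ ∑ |u_t - u_{t+1}| ((U-u_t) + (U - u_{t+1}))
= θ ∑ |(U-u_t)² - (U-u_{t+1})²| ≥ 2 θ (U - u_0)²` (telescoping from `0` to `K` and from `K` to `p - 1`, `u_{p-1} = u_0`).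
So `B ≤ 2 U A - θ U² ≤ A²/θ = A² (1-a)/(1+a) < (1-a)(1-a/2) A²`, as `(1+a)(1-a/2) > 1` for `0 < a < 1`. -/
def SpecMUL : Prop := ∀ (p : ℕ) (x : ℝ), 2 ≤ p → 0 < x → x < 1 / 2 → x * Mr p x x = 1 → dP p x x < 1

/-- **TAN** [120], from CRP. With `u = 1/(1 - e₂ c)`, `v = 1/(1 - e₁ c)`: `0 < v ≤ u`, `u - v = (e₂ - e₁) c u v ≤
(e₂ - e₁) c u²`, and `u u' - v v' = (u - v) u' + v (u' - v') ≤ (e₂ - e₁)(c u² u' + c' u'² u)`; for `A ≥ B ≥ 0`: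
`(1+e₂) A - (1+e₁) B = (e₂ - e₁) A + (1 + e₁)(A - B) ≤ (e₂ - e₁) A + (1+e₂)(A - B)`. -/
def SpecTAN : Prop := ∀ (p : ℕ) (x e₁ e₂ : ℝ), 2 ≤ p → 0 < x → x < 1 → 0 ≤ e₁ → e₁ ≤ e₂ →
  (∀ t ≤ p - 1, e₂ * cr p t x < 1) →
  Mr p x e₁ ≤ Mr p x e₂ ∧ Mr p x e₂ - Mr p x e₁ ≤ dM p x e₂ * (e₂ - e₁) ∧ 0 ≤ dM p x e₂ ∧
  x ^ 2 * ((1 + e₂) * Mr p x e₂ - (1 + e₁) * Mr p x e₁) ≤ dP p x e₂ * (e₂ - e₁)

/-- **SUP** [100], from CRP, TAN. `dP p x e` is continuous in `e` near `x` (the denominators `1 - e c_t(x)` are positive),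
so there is `x < e' < 1` with `dP p x e' < 1` and `e' c_t(x) < 1` for all `t ≤ p - 1`. By TAN
`x² (1+e') M_x(e') ≤ x² (1+x) M_x(x) + dP (e' - x) < x (1+x) + (e' - x) = e' + x²`. The function
`z ↦ z² (1+e') M_z(e') - e' - z²` is continuous at `z = x` and negative there, `z ↦ e' c_t(z)` is continuous. -/
def SpecSUP : Prop := ∀ (p : ℕ) (x : ℝ), 2 ≤ p → 0 < x → x < 1 / 2 → x * Mr p x x = 1 → dP p x x < 1 →
  ∃ z' e' : ℝ, x < z' ∧ z' < 1 / 2 ∧ x < e' ∧ (∀ t ≤ p - 1, e' * cr p t z' < 1) ∧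
    z' ^ 2 * (1 + e') * Mr p z' e' ≤ e' + z' ^ 2

/-- **LOW** [60], from CRP, TAN. `P = dP p x x < 1`. TAN with `e₁ = e`, `e₂ = x`: `x² (1+e) M_x(e) ≥ x² (1+x) M_x(x) - P (x - e)
= x + x² - P (x - e)`. So `(1 - P)(x - e) ≤ ε`. And `x M_x(e) ≥ 1 - x dM (x - e)`. `C = x dM/(1-P)`. -/
def SpecLOW : Prop := ∀ (p : ℕ) (x : ℝ), 2 ≤ p → 0 < x → x < 1 / 2 → x * Mr p x x = 1 → dP p x x < 1 →
  ∃ C : ℝ, 0 ≤ C ∧ ∀ e ε : ℝ, 0 ≤ e → e ≤ x → 0 ≤ ε →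
    x ^ 2 * (1 + e) * Mr p x e ≤ e + x ^ 2 + ε → 1 - C * ε ≤ x * Mr p x e

/-! ## VI. Assembly -/

/-- **BVL** [200], from UPE, UPV, BDA, LOE, FTW, CRP, MRE, MUL, TAN, SUP, LOW, PSR. Let `X = ofReal x`. (a) By MRE `MM X X = ofReal (M_x(x))`, so
`X² (1+X) MM X X = X + X²`, `X MM X X = 1`; UPE with `e = X` gives `⟨ev X E, N⟩ ≤ X`, UPV gives
`evs X (cf0 V) + X^{1+pm} ≤ 1`, so `∑ b_n xⁿ` converges (`b_n ≥ 0` by PSR; `evs` is the `ENNReal.ofReal` of the sum) and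
is `≤ 1 - x^{1+pm} < 1`. (b) SUP gives `z', e'`; `l = z'/x > 1`; BDA gives `K, κ` (they do not depend on `m`);
`δ = K κ^m`. `e = (ev X E).co 0 ≤ ⟨ev X E, N⟩ ≤ X` (`N ≥ 1`), so `e` is real. LOE: with
`D = (1 + e') M_{z'}(e')`, `x² (1+e) M_x(e) ≤ e + x² + x² δ D`, and `x M_x(e) ≤ B(x) + x δ D`. LOW:
`x M_x(e) ≥ 1 - C x² δ D`. So `B(x) ≥ 1 - (C x² + x) D K κ^m`. -/
def SpecBVL : Prop := ∀ (p : ℕ) (x : ℝ), 2 ≤ p → 0 < x → x < 1 / 2 → x * Mr p x x = 1 →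
  ∃ C κ : ℝ, 0 ≤ C ∧ 0 < κ ∧ κ < 1 ∧ ∀ (m : ℕ) (Q E H V U : Ser), Dat p m Q E H V U →
    Summable (fun n => ((PowerSeries.coeff n (cf0 V) : ℤ) : ℝ) * x ^ n) ∧
    1 - C * κ ^ m ≤ ∑' n, ((PowerSeries.coeff n (cf0 V) : ℤ) : ℝ) * x ^ n ∧
    ∑' n, ((PowerSeries.coeff n (cf0 V) : ℤ) : ℝ) * x ^ n < 1

/-- **LFI** [120], from MainAS, UVX, PSR, BVL, EXU, EQP. For `m ≥ 2` take `Q, E, H, V, z₀` from `MainAS`, `U` from UVX
(`A = 1 + E`, `R = serR Q E`), so `Dat`. `B(z₀) = 1`, all `b_n ≥ 0`, `b_1 ≥ 1` (PSR), `B(x) < 1`: so `x < z₀` and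
`1 - B(x) = ∑ b_n (z₀ⁿ - xⁿ) ≥ z₀ - x`, so `z₀ - x ≤ C κ^m`. `ω = 1/z₀ < 1/x` and
`1/x - 1/z₀ = (z₀ - x)/(x z₀) ≤ C κ^m/x²`. -/
def SpecLFI : Prop := MainLR

end Pool.Agent.Lib.MPba1bba.LR
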